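import Pool.Agent.Run7.h931.Model

/-!
Definable predicates on assignments; basic sets in a model of ZF.
-/

set_option autoImplicit false

namespace Run7.h931

universe u v w

section

variable {M : Type u} {E : M → M → Prop}

/-- predicates of assignments which are given by formulas -/
def Dfn (E : M → M → Prop) (P : (ℕ → M) → Prop) : Prop := ∃ φ : Fml, ∀ v, Sat E φ v ↔ P v

theorem Dfn.congr {P Q : (ℕ → M) → Prop} (h : Dfn E P) (h' : ∀ v, P v ↔ Q v) : Dfn E Q := by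
  obtain ⟨φ, hφ⟩ := h
  exact ⟨φ, fun v => (hφ v).trans (h' v)⟩

theorem Dfn.mem (i j : ℕ) : Dfn E (fun v => E (v i) (v j)) := ⟨.mem i j, fun _ => Iff.rfl⟩

theorem Dfn.eq (i j : ℕ) : Dfn E (fun v => v i = v j) := ⟨.eq i j, fun _ => Iff.rfl⟩

theorem Dfn.not {P : (ℕ → M) → Prop} (h : Dfn E P) : Dfn E (fun v => ¬ P v) := by
  obtain ⟨φ, hφ⟩ := h
  exact ⟨.neg φ, fun v => not_congr (hφ v)⟩

theorem Dfn.and {P Q : (ℕ → M) → Prop} (h : Dfn E P) (h' : Dfn E Q) :
    Dfn E (fun v => P v ∧ Q v) := by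
  obtain ⟨φ, hφ⟩ := h
  obtain ⟨ψ, hψ⟩ := h'
  exact ⟨.conj φ ψ, fun v => and_congr (hφ v) (hψ v)⟩

theorem Dfn.or {P Q : (ℕ → M) → Prop} (h : Dfn E P) (h' : Dfn E Q) :
    Dfn E (fun v => P v ∨ Q v) :=
  (h.not.and h'.not).not.congr fun v => by tauto

theorem Dfn.imp {P Q : (ℕ → M) → Prop} (h : Dfn E P) (h' : Dfn E Q) :
    Dfn E (fun v => P v → Q v) :=
  (h.and h'.not).not.congr fun v => by tauto

theorem Dfn.iff {P Q : (ℕ → M) → Prop} (h : Dfn E P) (h' : Dfn E Q) :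
    Dfn E (fun v => (P v ↔ Q v)) :=
  ((h.imp h').and (h'.imp h)).congr fun v => by tauto

theorem Dfn.all {P : M → (ℕ → M) → Prop} (h : Dfn E (fun w => P (w 0) (fun n => w (n + 1)))) :
    Dfn E (fun v => ∀ a, P a v) := by
  obtain ⟨φ, hφ⟩ := h
  refine ⟨.all φ, fun v => forall_congr' fun a => (hφ (push a v)).trans ?_⟩
  exact Iff.rfl

theorem Dfn.ex {P : M → (ℕ → M) → Prop} (h : Dfn E (fun w => P (w 0) (fun n => w (n + 1)))) :
    Dfn E (fun v => ∃ a, P a v) := by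
  have h1 : Dfn E (fun v => ∀ a, ¬ P a v) := Dfn.all (P := fun a v => ¬ P a v) h.not
  refine h1.not.congr fun v => ?_
  push Not
  exact Iff.rfl

theorem Dfn.pair (i j k : ℕ) : Dfn E (fun v => IsPair E (v i) (v j) (v k)) := by
  unfold IsPair
  refine Dfn.all (Dfn.iff (Dfn.mem 0 (i + 1)) (Dfn.or ?_ ?_))
  · exact Dfn.all (Dfn.iff (Dfn.mem 0 1) (Dfn.eq 0 (j + 2)))
  · exact Dfn.all (Dfn.iff (Dfn.mem 0 1) (Dfn.or (Dfn.eq 0 (j + 2)) (Dfn.eq 0 (k + 2))))

end

section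

variable {M : Type u} {E : M → M → Prop} (hE : IsZF E)

include hE

theorem sep {P : M → (ℕ → M) → Prop} (h : Dfn E (fun w => P (w 0) (fun n => w (n + 1))))
    (v : ℕ → M) (a : M) : ∃ c, ∀ x, E x c ↔ E x a ∧ P x v := by
  obtain ⟨φ, hφ⟩ := h
  obtain ⟨c, hc⟩ := hE.separation φ v a
  refine ⟨c, fun x => (hc x).trans (and_congr_right fun _ => ?_)⟩
  exact hφ (push x v)

theorem exists_pair (a b : M) : ∃ p, IsPair E p a b := by
  obtain ⟨s, hs⟩ := hE.pairing a a
  obtain ⟨d, hd⟩ := hE.pairing a b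
  obtain ⟨p, hp⟩ := hE.pairing s d
  refine ⟨p, fun z => ?_⟩
  rw [hp]
  refine or_congr ⟨?_, fun h => ?_⟩ ⟨?_, fun h => ?_⟩
  · rintro rfl x
    rw [hs, or_self]
  · refine hE.extensionality _ _ fun x => ?_
    rw [h, hs, or_self]
  · rintro rfl x
    rw [hd]
  · refine hE.extensionality _ _ fun x => ?_
    rw [h, hd]

theorem pair_unique {a b p q : M} (hp : IsPair E p a b) (hq : IsPair E q a b) : p = q :=
  hE.extensionality _ _ fun z => (hp z).trans (hq z).symm

theorem pair_inj {a b a' b' p : M} (h : IsPair E p a b) (h' : IsPair E p a' b') :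
    a = a' ∧ b = b' := by
  obtain ⟨s, hs⟩ := hE.pairing a a
  obtain ⟨d, hd⟩ := hE.pairing a b
  have hs' : ∀ x, E x s ↔ x = a := fun x => by rw [hs, or_self]
  have h1 : E s p := (h s).2 (Or.inl hs')
  have h2 : E d p := (h d).2 (Or.inr hd)
  have ha : a = a' := by
    rcases (h' s).1 h1 with h3 | h3
    · exact (h3 a).1 ((hs' a).2 rfl)
    · exact ((hs' a').1 ((h3 a').2 (Or.inl rfl))).symm
  subst ha
  refine ⟨rfl, ?_⟩
  obtain ⟨d', hd'⟩ := hE.pairing a b'
  have h2' : E d' p := (h' d').2 (Or.inr hd')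
  -- b ∈ {a, b'} and b' ∈ {a, b}
  have hb : b = a ∨ b = b' := by
    rcases (h' d).1 h2 with h3 | h3
    · exact Or.inl ((h3 b).1 ((hd b).2 (Or.inr rfl)))
    · exact (h3 b).1 ((hd b).2 (Or.inr rfl))
  have hb' : b' = a ∨ b' = b := by
    rcases (h d').1 h2' with h3 | h3
    · exact Or.inl ((h3 b').1 ((hd' b').2 (Or.inr rfl)))
    · exact (h3 b').1 ((hd' b').2 (Or.inr rfl))
  rcases hb with hb | hb
  · rcases hb' with hb' | hb'
    · rw [hb, hb']
    · exact hb'.symm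
  · exact hb

/-- cartesian products -/
theorem exists_prod (A B : M) : ∃ C, ∀ p, E p C ↔ ∃ a b, E a A ∧ E b B ∧ IsPair E p a b := by
  obtain ⟨D, hD⟩ := hE.pairing A B
  obtain ⟨U, hU⟩ := hE.union D
  obtain ⟨P1, hP1⟩ := hE.power U
  obtain ⟨P2, hP2⟩ := hE.power P1
  obtain ⟨C, hC⟩ := sep hE (P := fun p v => ∃ a, ∃ b, E a (v 0) ∧ E b (v 1) ∧ IsPair E p a b)
    (Dfn.ex (Dfn.ex ((Dfn.mem 1 3).and ((Dfn.mem 0 4).and (Dfn.pair 2 1 0)))))
    (push A (push B fun _ => A)) P2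
  refine ⟨C, fun p => ?_⟩
  rw [hC]
  simp only [push]
  constructor
  · exact fun h => h.2
  · rintro ⟨a, b, ha, hb, hp⟩
    refine ⟨?_, a, b, ha, hb, hp⟩
    rw [hP2]
    intro y hy
    rw [hP1]
    intro x hx
    have hx' : x = a ∨ x = b := by
      rcases (hp y).1 hy with h3 | h3
      · exact Or.inl ((h3 x).1 hx)
      · exact (h3 x).1 hx
    rw [hU]
    rcases hx' with rfl | rfl
    · exact ⟨A, (hD A).2 (Or.inl rfl), ha⟩
    · exact ⟨B, (hD B).2 (Or.inr rfl), hb⟩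

theorem exists_num (k : ℕ) : ∃ a, Num E k a := by
  induction k with
  | zero =>
    obtain ⟨w, ⟨e, _, he⟩, _⟩ := hE.infinity
    exact ⟨e, he⟩
  | succ k ih =>
    obtain ⟨b, hb⟩ := ih
    obtain ⟨s, hs⟩ := hE.pairing b b
    obtain ⟨d, hd⟩ := hE.pairing b s
    obtain ⟨c, hc⟩ := hE.union d
    refine ⟨c, b, hb, fun x => ?_⟩
    rw [hc]
    constructor
    · rintro ⟨y, hy, hx⟩
      rcases (hd y).1 hy with rfl | rfl
      · exact Or.inl hx
      · right
        have := (hs x).1 hx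
        tauto
    · rintro (h | rfl)
      · exact ⟨b, (hd b).2 (Or.inl rfl), h⟩
      · exact ⟨s, (hd s).2 (Or.inr rfl), (hs x).2 (Or.inl rfl)⟩

theorem num_unique {k : ℕ} {a b : M} (ha : Num E k a) (hb : Num E k b) : a = b := by
  induction k generalizing a b with
  | zero => exact hE.extensionality _ _ fun x => ⟨fun h => absurd h (ha x), fun h => absurd h (hb x)⟩
  | succ k ih =>
    obtain ⟨a', ha', h1⟩ := ha
    obtain ⟨b', hb', h2⟩ := hb
    have := ih ha' hb'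
    subst this
    exact hE.extensionality _ _ fun x => (h1 x).trans (h2 x).symm

/-- no element is a member of itself -/
theorem not_mem_self (a : M) : ¬ E a a := by
  intro h
  obtain ⟨s, hs⟩ := hE.pairing a a
  obtain ⟨x, hx, hx'⟩ := hE.foundation s ⟨a, (hs a).2 (Or.inl rfl)⟩
  have : x = a := by
    have := (hs x).1 hx
    tauto
  subst this
  exact hx' x h ((hs x).2 (Or.inl rfl))

theorem num_mem {k : ℕ} {a x : M} (ha : Num E k a) : E x a ↔ ∃ j < k, Num E j x := by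
  induction k generalizing a with
  | zero => simpa using ha x
  | succ k ih =>
    obtain ⟨b, hb, h⟩ := ha
    rw [h, ih hb]
    constructor
    · rintro (⟨j, hj, hx⟩ | rfl)
      · exact ⟨j, by omega, hx⟩
      · exact ⟨k, by omega, hb⟩
    · rintro ⟨j, hj, hx⟩
      rcases Nat.lt_or_ge j k with h1 | h1
      · exact Or.inl ⟨j, h1, hx⟩
      · right
        have : j = k := by omega
        subst this
        exact num_unique hE hx hb

theorem num_inj {j k : ℕ} {a : M} (h : Num E j a) (h' : Num E k a) : j = k := by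
  rcases lt_trichotomy j k with h1 | h1 | h1
  · exact absurd ((num_mem hE h').2 ⟨j, h1, h⟩) (not_mem_self hE a)
  · exact h1
  · exact absurd ((num_mem hE h).2 ⟨k, h1, h'⟩) (not_mem_self hE a)

theorem num_inductive {k : ℕ} {a w : M} (ha : Num E k a) (hw : IsInductive E w) : E a w := by
  induction k generalizing a with
  | zero =>
    obtain ⟨⟨e, he, he'⟩, _⟩ := hw
    have : a = e := num_unique hE (k := 0) ha he'
    rw [this]
    exact he
  | succ k ih =>
    obtain ⟨b, hb, h⟩ := ha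
    obtain ⟨s, hs, hs'⟩ := hw.2 b (ih hb)
    have : a = s := hE.extensionality _ _ fun x => (h x).trans (hs' x).symm
    rw [this]
    exact hs

theorem dfn_inductive (i : ℕ) : Dfn E (fun v => IsInductive E (v i)) := by
  unfold IsInductive
  refine Dfn.and ?_ ?_
  · exact Dfn.ex ((Dfn.mem 0 (i + 1)).and (Dfn.all (Dfn.mem 0 1).not))
  · refine Dfn.all ((Dfn.mem 0 (i + 1)).imp (Dfn.ex ((Dfn.mem 0 (i + 2)).and ?_)))
    exact Dfn.all ((Dfn.mem 0 1).iff ((Dfn.mem 0 2).or (Dfn.eq 0 2)))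

/-- the set of natural numbers -/
theorem exists_omega (ho : IsOmega E) : ∃ w, ∀ x, E x w ↔ ∃ k, Num E k x := by
  obtain ⟨w, hw⟩ := hE.infinity
  obtain ⟨c, hc⟩ := sep hE (P := fun x _ => ∀ w', IsInductive E w' → E x w')
    (Dfn.all ((dfn_inductive hE 0).imp (Dfn.mem 1 0))) (fun _ => w) w
  refine ⟨c, fun x => ?_⟩
  rw [hc]
  constructor
  · exact fun h => ho x h.2
  · rintro ⟨k, hk⟩
    exact ⟨num_inductive hE hk hw, fun w' hw' => num_inductive hE hk hw'⟩

end

end Run7.h931
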