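import Pool.Agent.Run7.h931.One

/-!
Martin's conjecture with parameters.
-/

set_option autoImplicit false

namespace Run7.h931

universe u

section

variable {M : Type u} {E : M → M → Prop} [hO : OM E]

theorem wqo_param (h : MCm E) (F : ℕ → Fn E)
    (hF : ∃ s, FunR E (fun m n => Num E n m) (fun m (f : Fn E) => FnR E m f.1) s F)
    (hF' : ∀ n, TInv (F n)) :
    ∃ i j, i < j ∧ ∃ c : Rl E, ∀ x : Rl E, Above c x →
      LeT ((F i).1 x).1 (join ((F j).1 x).1 c.1) := by
  obtain ⟨i, j, hij, c, hc⟩ := h.wqo (fun n => jf (F n))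
    (seq_iff.2 (DefF.comp defF_jf (seq_iff.1 hF))) (fun n => jf_tminv (hF' n))
  exact ⟨i, j, hij, c, fun x hx => le_of_jump (hc x hx) (le_join_right _ _) (le_join_left _ _)⟩

end

end Run7.h931
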