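import Pool.Agent.Run7.h931.Reals
import Pool.Agent.Helper446.RE

/-!
Computable functions and c.e. predicates are represented in ω-models.
-/

set_option autoImplicit false

namespace Run7.h931

open Encodable

universe u

section

variable {M : Type u} {E : M → M → Prop} [hO : OM E]

theorem DefF.addN {S : Type} [Srt E S] {f g : S → ℕ} (hf : DefF E f) (hg : DefF E g) :
    DefF E (fun s => f s + g s) := by
  have h : DefF E (fun p : ℕ × ℕ => Nat.rec (motive := fun _ => ℕ) p.1
      (fun n t => (fun q : ℕ × ℕ × ℕ => q.2.2 + 1) (p.1, n, t)) p.2) :=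
    DefF.rec (f := fun n : ℕ => n) (h := fun q : ℕ × ℕ × ℕ => q.2.2 + 1) DefF.id
      (DefF.comp Def.succ (DefF.comp DefF.snd DefF.snd))
  refine (DefF.comp (f := fun p : ℕ × ℕ => Nat.rec (motive := fun _ => ℕ) p.1
      (fun n t => (fun q : ℕ × ℕ × ℕ => q.2.2 + 1) (p.1, n, t)) p.2) (g := fun s => (f s, g s)) h
      (hf.pair hg)).congr fun s => ?_
  simp only
  induction g s with
  | zero => rfl
  | succ n ih => simp only at ih ⊢; rw [ih]; rfl

theorem DefF.mulN {S : Type} [Srt E S] {f g : S → ℕ} (hf : DefF E f) (hg : DefF E g) :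
    DefF E (fun s => f s * g s) := by
  have h : DefF E (fun p : ℕ × ℕ => Nat.rec (motive := fun _ => ℕ) ((fun _ : ℕ => 0) p.1)
      (fun n t => (fun q : ℕ × ℕ × ℕ => q.2.2 + q.1) (p.1, n, t)) p.2) :=
    DefF.rec (f := fun n : ℕ => 0) (h := fun q : ℕ × ℕ × ℕ => q.2.2 + q.1) (DefF.const 0)
      (DefF.addN (DefF.comp DefF.snd DefF.snd) DefF.fst)
  refine (DefF.comp (f := fun p : ℕ × ℕ => Nat.rec (motive := fun _ => ℕ) ((fun _ : ℕ => 0) p.1)
      (fun n t => (fun q : ℕ × ℕ × ℕ => q.2.2 + q.1) (p.1, n, t)) p.2) (g := fun s => (f s, g s)) h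
      (hf.pair hg)).congr fun s => ?_
  simp only
  induction g s with
  | zero => rfl
  | succ n ih => simp only at ih ⊢; rw [ih]; rfl

theorem Def.ltN {S : Type} [Srt E S] {f g : S → ℕ} (hf : DefF E f) (hg : DefF E g) :
    Def E (fun s => f s < g s) := by
  have h : Def E (fun s => ∃ c : ℕ, f s + c + 1 = g s) := by
    refine Def.ex (P := fun (s : S) (c : ℕ) => f s + c + 1 = g s)
      (Def.eq (f := fun p : S × ℕ => f p.1 + p.2 + 1) (g := fun p => g p.1) ?_ ?_)
    · exact DefF.comp Def.succ (g := fun p : S × ℕ => f p.1 + p.2)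
        (DefF.addN (DefF.comp hf DefF.fst) DefF.snd)
    · exact DefF.comp hg DefF.fst
  refine h.congr fun s => ?_
  constructor
  · rintro ⟨c, hc⟩
    omega
  · intro h
    exact ⟨g s - f s - 1, by omega⟩

theorem DefF.pairN {S : Type} [Srt E S] {f g : S → ℕ} (hf : DefF E f) (hg : DefF E g) :
    DefF E (fun s => Nat.pair (f s) (g s)) := by
  have hf' : DefF E (fun p : S × ℕ => f p.1) := DefF.comp hf DefF.fst
  have hg' : DefF E (fun p : S × ℕ => g p.1) := DefF.comp hg DefF.fst
  have h : Def E (fun p : S × ℕ => (f p.1 < g p.1 ∧ g p.1 * g p.1 + f p.1 = p.2) ∨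
      (¬ f p.1 < g p.1 ∧ f p.1 * f p.1 + f p.1 + g p.1 = p.2)) :=
    Def.or (Def.and (Def.ltN hf' hg') (Def.eq (DefF.addN (DefF.mulN hg' hg') hf') DefF.snd))
      (Def.and (Def.ltN hf' hg').not
        (Def.eq (DefF.addN (DefF.addN (DefF.mulN hf' hf') hf') hg') DefF.snd))
  refine h.congr fun p => ?_
  simp only [Nat.pair]
  split_ifs with h1
  · simp [h1]
  · simp [h1]

theorem DefF.leftN {S : Type} [Srt E S] {f : S → ℕ} (hf : DefF E f) :
    DefF E (fun s => (Nat.unpair (f s)).1) := by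
  have h : Def E (fun p : S × ℕ => ∃ b : ℕ, Nat.pair p.2 b = f p.1) := by
    refine Def.ex (P := fun (p : S × ℕ) (b : ℕ) => Nat.pair p.2 b = f p.1) (Def.eq ?_ ?_)
    · exact DefF.pairN (DefF.comp DefF.snd DefF.fst) DefF.snd
    · exact DefF.comp hf (DefF.comp DefF.fst DefF.fst)
  refine h.congr fun p => ?_
  constructor
  · rintro ⟨b, hb⟩
    show (Nat.unpair (f p.1)).1 = p.2
    rw [← hb]
    simp
  · intro (hp : (Nat.unpair (f p.1)).1 = p.2)
    refine ⟨(Nat.unpair (f p.1)).2, ?_⟩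
    rw [← hp]
    simp

theorem DefF.rightN {S : Type} [Srt E S] {f : S → ℕ} (hf : DefF E f) :
    DefF E (fun s => (Nat.unpair (f s)).2) := by
  have h : Def E (fun p : S × ℕ => ∃ b : ℕ, Nat.pair b p.2 = f p.1) := by
    refine Def.ex (P := fun (p : S × ℕ) (b : ℕ) => Nat.pair b p.2 = f p.1) (Def.eq ?_ ?_)
    · exact DefF.pairN DefF.snd (DefF.comp DefF.snd DefF.fst)
    · exact DefF.comp hf (DefF.comp DefF.fst DefF.fst)
  refine h.congr fun p => ?_
  constructor
  · rintro ⟨b, hb⟩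
    show (Nat.unpair (f p.1)).2 = p.2
    rw [← hb]
    simp
  · intro (hp : (Nat.unpair (f p.1)).2 = p.2)
    refine ⟨(Nat.unpair (f p.1)).1, ?_⟩
    rw [← hp]
    simp

theorem DefF.ofPrimrec {f : ℕ → ℕ} (hf : Nat.Primrec f) : DefF E f := by
  induction hf with
  | zero => exact DefF.const 0
  | succ => exact Def.succ
  | left => exact DefF.leftN DefF.id
  | right => exact DefF.rightN DefF.id
  | pair _ _ h1 h2 => exact DefF.pairN h1 h2
  | comp _ _ h1 h2 => exact DefF.comp h1 h2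
  | @prec f g _ _ h1 h2 =>
    have h3 := DefF.rec (S := ℕ) (T := ℕ) (f := f) (h := fun q => g (Nat.pair q.1 (Nat.pair q.2.1 q.2.2))) h1
      (DefF.comp h2 (DefF.pairN DefF.fst (DefF.pairN (DefF.comp DefF.fst DefF.snd)
        (DefF.comp DefF.snd DefF.snd))))
    exact (DefF.comp h3 (g := fun n : ℕ => ((Nat.unpair n).1, (Nat.unpair n).2))
      (DefF.pair (DefF.leftN DefF.id) (DefF.rightN DefF.id))).congr fun n => rfl

theorem Def.ofPrimrec {f : ℕ → Bool} (hf : Primrec f) : Def E (fun n => f n = true) := by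
  have h1 : Nat.Primrec (fun n => (f n).toNat) := by
    have h2 : Primrec (fun n => (f n).toNat) :=
      (Primrec.dom_finite (fun b : Bool => b.toNat)).comp hf
    exact Primrec.nat_iff.1 h2
  have h2 : Def E (fun n => (f n).toNat = 1) := Def.eq (DefF.ofPrimrec h1) (DefF.const 1)
  refine h2.congr fun n => ?_
  cases f n <;> simp

theorem Def.ofRE {p : ℕ → Prop} (hp : REPred p) : Def E p := by
  obtain ⟨c, hc⟩ := Nat.Partrec.Code.exists_code.1 hp
  have h0 : Def E (fun m : ℕ => (Nat.Partrec.Code.evaln m.unpair.2 c m.unpair.1).isSome = true) := by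
    refine Def.ofPrimrec (Primrec.option_isSome.comp (Nat.Partrec.Code.primrec_evaln.comp
      (((Primrec.snd.comp Primrec.unpair).pair (Primrec.const c)).pair
        (Primrec.fst.comp Primrec.unpair))))
  have h1 : Def E (fun n : ℕ => ∃ k : ℕ, (Nat.Partrec.Code.evaln k c n).isSome = true) := by
    refine Def.ex (P := fun (n k : ℕ) => (Nat.Partrec.Code.evaln k c n).isSome = true) ?_
    refine (Def.comp (g := fun q : ℕ × ℕ => Nat.pair q.1 q.2) h0
      (DefF.pairN DefF.fst DefF.snd)).congr fun q => ?_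
    simp
  refine h1.congr fun n => ?_
  have h2 : p n ↔ (Nat.Partrec.Code.eval c n).Dom := by
    rw [hc]
    simp only [encode_nat, decode_nat, Part.coe_some, Part.bind_some, Part.map_Dom]
    constructor
    · intro h; exact ⟨h, trivial⟩
    · rintro ⟨h, -⟩; exact h
  rw [h2, Part.dom_iff_mem]
  constructor
  · rintro ⟨k, hk⟩
    obtain ⟨y, hy⟩ := Option.isSome_iff_exists.1 hk
    exact ⟨y, Nat.Partrec.Code.evaln_complete.2 ⟨k, hy⟩⟩
  · rintro ⟨y, hy⟩
    obtain ⟨k, hk⟩ := Nat.Partrec.Code.evaln_complete.1 hy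
    refine ⟨k, ?_⟩
    rw [Option.mem_def] at hk
    rw [hk]
    rfl

theorem DefF.ofComp {f : ℕ → ℕ} (hf : Computable f) : DefF E f := by
  have h1 : REPred (fun n : ℕ => f n.unpair.1 = n.unpair.2) := by
    refine Pool.Agent.Helper446.RE.eq ?_ ?_
    · exact hf.comp (Computable.fst.comp Computable.unpair)
    · exact Computable.snd.comp Computable.unpair
  refine (Def.comp (g := fun q : ℕ × ℕ => Nat.pair q.1 q.2) (Def.ofRE (E := E) h1)
      (DefF.pairN DefF.fst DefF.snd)).congr fun q => ?_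
  simp

end

end Run7.h931
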