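import Pool.Agent.Run7.h931.Model

/-!
# Martin's conjecture, Steel's conjecture and their many-one analogues in an ω-model

Reductions, the jump, cones; the four conjectures as properties of an ω-model `(M, E)` of ZF + DC.
-/

set_option autoImplicit false

namespace Run7.h931

open Encodable
open Nat.Partrec (Code)

universe u

/-! ### Reals -/

/-- the real `x` as an oracle -/
def orc (x : ℕ → Bool) : ℕ →. ℕ := fun n => Part.some (x n).toNat

/-- Turing reducibility `x ≤_T y` -/
def LeT (x y : ℕ → Bool) : Prop := TuringReducible (orc x) (orc y)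

/-- Turing equivalence `x ≡_T y` -/
def EqT (x y : ℕ → Bool) : Prop := LeT x y ∧ LeT y x

/-- the initial segment of length `s` of `x` -/
def ini (x : ℕ → Bool) (s : ℕ) : List Bool := (List.range s).map x

/-- The program `e` computes `y` from `x`: on the inputs `(n, σ)`, `σ` an initial segment of `x`, it
outputs `y n` for at least one `σ`, and it never outputs another value. -/
def ByT (e : Code) (x y : ℕ → Bool) : Prop :=
  ∀ n v : ℕ, (∃ s, v ∈ e.eval (encode (n, ini x s))) ↔ v = (y n).toNat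

open Classical in
/-- The Turing jump `x'`: the set of (the codes of) the pairs `(e, n)` such that the program `e`
halts on `(n, σ)` for some initial segment `σ` of `x`. -/
noncomputable def jump (x : ℕ → Bool) : ℕ → Bool := fun p =>
  decide (∃ s, ((Denumerable.ofNat Code p.unpair.1).eval (encode (p.unpair.2, ini x s))).Dom)

/-- the complement -/
def cpl (x : ℕ → Bool) : ℕ → Bool := fun n => !x n

/-- the join `x ⊕ y` -/
def join (x y : ℕ → Bool) : ℕ → Bool := fun n => if n % 2 = 0 then x (n / 2) else y (n / 2)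

/-- `x ≤_m y` -/
def LeM (x y : ℕ → Bool) : Prop := ∃ ρ : ℕ → ℕ, Computable ρ ∧ ∀ n, x n = y (ρ n)

/-- `x ≡_m y` -/
def EqM (x y : ℕ → Bool) : Prop := LeM x y ∧ LeM y x

/-- `x ≤_m y` by a function computable from `c` -/
def LeMC (c x y : ℕ → Bool) : Prop :=
  ∃ ρ : ℕ → ℕ, TuringReducible (fun n => Part.some (ρ n)) (orc c) ∧ ∀ n, x n = y (ρ n)

/-- the program `e` computes a many-one reduction of `x` to `y` -/
def ByM (e : Code) (x y : ℕ → Bool) : Prop := ∀ n, ∃ m ∈ e.eval n, x n = y m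

/-! ### Functions of the model -/

section

variable {M : Type u} {E : M → M → Prop}

/-- the cone with base `c` -/
def Above (c x : Rl E) : Prop := LeT c.1 x.1

/-- `f` is Turing invariant -/
def TInv (f : Fn E) : Prop := ∀ x y : Rl E, EqT x.1 y.1 → EqT (f.1 x).1 (f.1 y).1

/-- `f` is (≡_T, ≡_m)-invariant -/
def TMInv (f : Fn E) : Prop := ∀ x y : Rl E, EqT x.1 y.1 → EqM (f.1 x).1 (f.1 y).1

/-- `f` is uniformly Turing invariant: if `x ≡_T y` by the programs `i`, `j`, then `f x ≡_T f y` by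
programs which depend only on `i` and `j` -/
def UTInv (f : Fn E) : Prop := ∀ i j : Code, ∃ k l : Code, ∀ x y : Rl E,
  ByT i x.1 y.1 → ByT j y.1 x.1 → ByT k (f.1 x).1 (f.1 y).1 ∧ ByT l (f.1 y).1 (f.1 x).1

/-- `f` is uniformly (≡_T, ≡_m)-invariant -/
def UTMInv (f : Fn E) : Prop := ∀ i j : Code, ∃ k l : Code, ∀ x y : Rl E,
  ByT i x.1 y.1 → ByT j y.1 x.1 → ByM k (f.1 x).1 (f.1 y).1 ∧ ByM l (f.1 y).1 (f.1 x).1

/-- `f ≤_m^∇ g` -/
def LeN (f g : Fn E) : Prop :=
  ∃ c : Rl E, ∀ x : Rl E, Above c x → LeMC c.1 (f.1 x).1 (g.1 x).1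

/-- `f(x) ≤_T g(x)` on a cone -/
def LeC (f g : Fn E) : Prop := ∃ c : Rl E, ∀ x : Rl E, Above c x → LeT (f.1 x).1 (g.1 x).1

/-- `f(x) ≥_T x` on a cone -/
def Incr (f : Fn E) : Prop := ∃ c : Rl E, ∀ x : Rl E, Above c x → LeT x.1 (f.1 x).1

/-- `f` is constant up to Turing equivalence on a cone -/
def ConstT (f : Fn E) : Prop :=
  ∃ c : Rl E, ∀ x y : Rl E, Above c x → Above c y → EqT (f.1 x).1 (f.1 y).1

/-- `f` is constant up to many-one equivalence on a cone -/
def ConstM (f : Fn E) : Prop :=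
  ∃ c : Rl E, ∀ x y : Rl E, Above c x → Above c y → EqM (f.1 x).1 (f.1 y).1

end

section

variable {M : Type u} (E : M → M → Prop)

/-- The second part of MC_m, for all pairs of functions of `M`. -/
def MCm2 : Prop := ∀ f g : Fn E, TMInv f → TMInv g →
  LeN g f ∨ ∃ c : Rl E, ∀ x : Rl E, Above c x → LeMC c.1 (f.1 x).1 (cpl (g.1 x).1)

/-- `M` satisfies MC_m. -/
structure MCm : Prop where
  one : ∀ f : Fn E, TMInv f → ¬ ConstM f →
    (∃ c : Rl E, ∀ x : Rl E, Above c x → LeMC c.1 (jump x.1) (f.1 x).1) ∨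
      ∃ c : Rl E, ∀ x : Rl E, Above c x → LeMC c.1 (cpl (jump x.1)) (f.1 x).1
  two : MCm2 E
  /-- every sequence `F 0, F 1, …` in `M` of invariant functions contains two members which are in
  the right order -/
  wqo : ∀ F : ℕ → Fn E, (∃ h, FunR E (fun m n => Num E n m) (fun m (f : Fn E) => FnR E m f.1) h F) →
    (∀ n, TMInv (F n)) → ∃ i j, i < j ∧ LeN (F i) (F j)

/-- `M` satisfies SC_m. -/
def SCm : Prop := ∀ f : Fn E, TMInv f → ∃ g : Fn E, UTMInv g ∧ LeN f g ∧ LeN g f

/-- The first part of Martin's conjecture. -/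
def MC1 : Prop := ∀ f : Fn E, TInv f → ConstT f ∨ Incr f

/-- The second part of Martin's conjecture: the Turing invariant functions which are increasing on a
cone are prewellordered by `≤_T` on a cone, and `x ↦ f(x)'` is the successor of `f`. -/
structure MC2 : Prop where
  total : ∀ f g : Fn E, TInv f → TInv g → Incr f → Incr g → LeC f g ∨ LeC g f
  trans : ∀ f g h : Fn E, LeC f g → LeC g h → LeC f h
  /-- every nonempty set in `M` of such functions has a least member -/
  well : ∀ S : Fn E → Prop, (∃ a, SetR E (fun m (f : Fn E) => FnR E m f.1) a S) → (∃ f, S f) →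
    (∀ f, S f → TInv f ∧ Incr f) → ∃ f, S f ∧ ∀ g, S g → LeC f g
  succ : ∀ f : Fn E, TInv f → Incr f → ∃ g : Fn E, (∀ x : Rl E, (g.1 x).1 = jump (f.1 x).1) ∧
    TInv g ∧ Incr g ∧ LeC f g ∧ ¬ LeC g f ∧ ∀ h : Fn E, TInv h → Incr h → LeC h f ∨ LeC g h

/-- `M` satisfies Martin's conjecture. -/
structure MC : Prop where
  one : MC1 E
  two : MC2 E

/-- `M` satisfies Steel's conjecture. -/
def SC : Prop := ∀ f : Fn E, TInv f → ∃ g : Fn E, UTInv g ∧ LeC f g ∧ LeC g f

end

end Run7.h931
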