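import Pool.Agent.Run7.h931.MR

/-!
MC_m implies the second part of Martin's conjecture.
-/

set_option autoImplicit false

namespace Run7.h931

open Encodable
open Nat.Partrec (Code)

universe u

section

variable {M : Type u} {E : M → M → Prop}

theorem EqT.symm {x y : ℕ → Bool} (h : EqT x y) : EqT y x := ⟨h.2, h.1⟩

section

variable [hO : OM E]

/-- `x ↦ f(x)'` -/
noncomputable def jf (f : Fn E) : Fn E :=
  ⟨fun x => jmp (f.1 x), fn_iff.2 (DefF.jmp (DefF.fnEval (DefF.const f) DefF.id))⟩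

theorem jf_apply (f : Fn E) (x : Rl E) : ((jf f).1 x).1 = jump (f.1 x).1 := rfl

theorem jf_tminv {f : Fn E} (hf : TInv f) : TMInv (jf f) := fun x y h => eqM_jump (hf x y h)

theorem exists_join (c d : Rl E) : ∃ e : Rl E, ∀ x, Above e x → Above c x ∧ Above d x :=
  ⟨jn' c d, fun _ hx => ⟨(le_join_left _ _).trans hx, (le_join_right _ _).trans hx⟩⟩

/-- the second part of `MC_m` for the jumps of Turing invariant functions, with parameters -/
theorem two_param (h : MCm2 E) {f g : Fn E} (hf : TInv f) (hg : TInv g) :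
    (∃ c : Rl E, ∀ x, Above c x → LeT (g.1 x).1 (join (f.1 x).1 c.1)) ∨
      ∃ c : Rl E, ∀ x, Above c x → LeT (jump (f.1 x).1) (join (g.1 x).1 c.1) := by
  rcases h (jf f) (jf g) (jf_tminv hf) (jf_tminv hg) with ⟨c, hc⟩ | ⟨c, hc⟩
  · exact Or.inl ⟨c, fun x hx => le_of_jump (hc x hx) (le_join_right _ _) (le_join_left _ _)⟩
  · exact Or.inr ⟨c, fun x hx => le_of_jump_cpl (hc x hx) (le_join_right _ _) (le_join_left _ _)⟩

/-- the parameter is computable from the values of increasing functions -/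
theorem absorb {f : Fn E} (hf : Incr f) {c : Rl E} {A : Rl E → ℕ → Bool}
    (h : ∀ x, Above c x → LeT (A x) (join (f.1 x).1 c.1)) :
    ∃ d : Rl E, ∀ x, Above d x → LeT (A x) (f.1 x).1 := by
  obtain ⟨b, hb⟩ := hf
  obtain ⟨d, hd⟩ := exists_join b c
  refine ⟨d, fun x hx => ?_⟩
  obtain ⟨h1, h2⟩ := hd x hx
  exact (h x h2).trans (join_le (LeT.rfl' _) (h2.trans (hb x h1)))

theorem two_incr (h : MCm2 E) {f g : Fn E} (hf : TInv f) (hg : TInv g) (if' : Incr f)
    (ig : Incr g) : LeC g f ∨ ∃ c : Rl E, ∀ x, Above c x → LeT (jump (f.1 x).1) (g.1 x).1 := by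
  rcases two_param h hf hg with ⟨c, hc⟩ | ⟨c, hc⟩
  · exact Or.inl (absorb if' hc)
  · exact Or.inr (absorb ig hc)

theorem leC_trans {f g h : Fn E} (h1 : LeC f g) (h2 : LeC g h) : LeC f h := by
  obtain ⟨c, hc⟩ := h1
  obtain ⟨d, hd⟩ := h2
  obtain ⟨e, he⟩ := exists_join c d
  exact ⟨e, fun x hx => (hc x (he x hx).1).trans (hd x (he x hx).2)⟩

theorem jf_incr {f : Fn E} (hf : Incr f) : Incr (jf f) := by
  obtain ⟨c, hc⟩ := hf
  exact ⟨c, fun x hx => (hc x hx).trans (le_jump_self _)⟩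

theorem jf_tinv {f : Fn E} (hf : TInv f) : TInv (jf f) := by
  intro x y h
  have h1 := eqM_jump (hf x y h)
  have h2 : ∀ {a b : ℕ → Bool}, LeM a b → LeT a b := by
    rintro a b ⟨ρ, hρ, h⟩
    exact leT_of_comp hρ h
  exact ⟨h2 h1.1, h2 h1.2⟩

theorem lt_jf (f : Fn E) : LeC f (jf f) ∧ ¬ LeC (jf f) f := by
  refine ⟨⟨⟨fun _ => false, by
    rw [real_iff]
    exact (Def.const (T := ℕ) False).congr fun n => by simp⟩, fun x _ => le_jump_self _⟩, ?_⟩
  rintro ⟨c, hc⟩
  exact not_jump_le _ (hc c (LeT.rfl' _))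

theorem total_of (h : MCm2 E) {f g : Fn E} (hf : TInv f) (hg : TInv g) (if' : Incr f)
    (ig : Incr g) : LeC f g ∨ LeC g f := by
  rcases two_incr h hf hg if' ig with h1 | ⟨c, hc⟩
  · exact Or.inr h1
  · exact Or.inl ⟨c, fun x hx => (le_jump_self _).trans (hc x hx)⟩

/-- a sequence of functions of the model -/
theorem seq_iff {F : ℕ → Fn E} :
    (∃ h, FunR E (fun m n => Num E n m) (fun m (f : Fn E) => FnR E m f.1) h F) ↔ DefF E F :=
  exists_funR_iff (fun _ _ => num_en E) (fun _ _ => fnR_en)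

theorem defF_jf : DefF E (fun f : Fn E => jf f) := by
  have h : Def E (fun p : Fn E × Fn E => ∀ x : Rl E, jmp (p.1.1 x) = p.2.1 x) := by
    refine Def.all (P := fun (p : Fn E × Fn E) (x : Rl E) => jmp (p.1.1 x) = p.2.1 x) (Def.eq ?_ ?_)
    · exact DefF.jmp (DefF.fnEval (DefF.comp DefF.fst DefF.fst) DefF.snd)
    · exact DefF.fnEval (DefF.comp DefF.snd DefF.fst) DefF.snd
  refine h.congr fun p => ?_
  constructor
  · intro h
    exact Subtype.ext (funext h)
  · intro (h : Run7.h931.jf p.1 = p.2) x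
    rw [← h]
    rfl

theorem well_of (hD : DC E) (h : MCm E) (S : Fn E → Prop)
    (hS : ∃ a, SetR E (fun m (f : Fn E) => FnR E m f.1) a S) (h0 : ∃ f, S f)
    (h1 : ∀ f, S f → TInv f ∧ Incr f) : ∃ f, S f ∧ ∀ g, S g → LeC f g := by
  by_contra hcon
  push Not at hcon
  have hS' : Def E S := by
    rw [def_iff_set]
    obtain ⟨a, ha⟩ := hS
    refine ⟨a, fun x => ?_⟩
    rw [ha]
    refine exists_congr fun f => and_congr_right fun _ => ?_
    exact fnR_en.trans eq_comm
  obtain ⟨F, hF, hF'⟩ := dc_sort hD (D := S) (R := fun f g => ¬ LeC f g) hS'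
    (Def.leC DefF.fst DefF.snd).not h0 (fun f hf => by
      obtain ⟨g, hg, hg'⟩ := hcon f hf
      exact ⟨g, hg, hg'⟩)
  obtain ⟨i, j, hij, hle⟩ := h.wqo (fun n => jf (F n)) (seq_iff.2 (DefF.comp defF_jf hF))
    (fun n => jf_tminv (h1 _ (hF' n).1).1)
  -- `F i ≤ F j`
  have h2 : LeC (F i) (F j) := by
    obtain ⟨c, hc⟩ := hle
    refine absorb (h1 _ (hF' j).1).2 (c := c) (A := fun x => ((F i).1 x).1) fun x hx => ?_
    exact le_of_jump (hc x hx) (le_join_right _ _) (le_join_left _ _)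
  -- the sequence is decreasing
  have h3 : ∀ n, LeC (F (n + 1)) (F n) := fun n =>
    (total_of h.two (h1 _ (hF' (n + 1)).1).1 (h1 _ (hF' n).1).1 (h1 _ (hF' (n + 1)).1).2
      (h1 _ (hF' n).1).2).resolve_right (hF' n).2
  have h4 : ∀ k, LeC (F (i + 1 + k)) (F (i + 1)) := by
    intro k
    induction k with
    | zero => exact ⟨⟨fun _ => false, by
        rw [real_iff]
        exact (Def.const (T := ℕ) False).congr fun n => by simp⟩, fun x _ => LeT.rfl' _⟩
    | succ k ih => exact leC_trans (h3 (i + 1 + k)) ih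
  obtain ⟨k, rfl⟩ : ∃ k, j = i + 1 + k := ⟨j - (i + 1), by omega⟩
  exact (hF' i).2 (leC_trans h2 (h4 k))

theorem mc2_of (hD : DC E) (h : MCm E) : MC2 E where
  total f g hf hg if' ig := total_of h.two hf hg if' ig
  trans f g k h1 h2 := leC_trans h1 h2
  well := well_of hD h
  succ f hf hi := ⟨jf f, fun _ => rfl, jf_tinv hf, jf_incr hi, (lt_jf f).1, (lt_jf f).2,
    fun g hg hig => two_incr h.two hf hg hi hig⟩

end

end

end Run7.h931
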