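import Pool.Agent.Run7.h931.Play
import Pool.Agent.Run7.h931.Two

/-!
The uniformization game: in a set of reals of the model with members of cofinally many degrees, one
finds uniformly a real of the degree of `t ⊕ w`.
-/

set_option autoImplicit false

namespace Run7.h931

open Encodable
open Nat.Partrec (Code)
open Pool.Agent.H639.LU Pool.Agent.H869R3.FN Pool.Agent.R616.DI
open Pool.Agent.Helper446 Pool.Agent.Helper446.Defs

universe u

section

variable {M : Type u} {E : M → M → Prop} [hO : OM E]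

theorem defF_of_byT {S : Type} [Srt E S] {f g : S → Rl E} {d : Code}
    (h : ∀ s, ByT d (f s).1 (g s).1) (hf : DefF E f) : DefF E g := by
  refine DefF.compr ?_
  refine (Def.val (S := S × ℕ) (c := fun _ => encode d) (n := fun p => p.2) (v := fun _ => 1)
    (x := fun p => f p.1) (DefF.const _) DefF.snd (DefF.const _)
    (DefF.comp hf DefF.fst)).congr fun p => ?_
  unfold Val'
  rw [Denumerable.ofNat_encode]
  refine (h p.1 p.2 1).trans ?_
  cases (g p.1).1 p.2 <;> simp

/-- the real computed by a program -/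
theorem exists_real {x : Rl E} {y : ℕ → Bool} (h : LeT y x.1) : ∃ z : Rl E, z.1 = y :=
  ⟨⟨y, mem_of_leT h⟩, rfl⟩

theorem uce_ce {α : Type} [Primcodable α] {P : (ℕ → Bool) → α → Prop} (hP : UCE P) {f : ℕ → α}
    (hf : Computable f) (X : ℕ → Bool) : CE X (fun n => P X (f n)) := by
  obtain ⟨R, h1, -, h3⟩ := hP.comp hf
  exact (K2 ℕ X _).2 ⟨fun n σ => R (n, σ), h1, fun n => h3 X n⟩

/-- a function with a graph which is enumerable in a real of the model is in the model -/
theorem exists_bai {x : Rl E} {g : ℕ → ℕ} (h : CE x.1 (fun k => g k.unpair.1 = k.unpair.2)) :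
    ∃ z : Bai E, z.1 = g := by
  refine ⟨⟨g, ?_⟩, rfl⟩
  rw [bai_iff]
  refine (Def.comp (g := fun p : ℕ × ℕ => Nat.pair p.1 p.2) (def_of_ce h)
    (DefF.pairN DefF.fst DefF.snd)).congr fun p => ?_
  simp

theorem gr_mem (s : Bai E) : ∃ a, RealR E a (gr s.1) := by
  rw [real_iff]
  refine (Def.eq (DefF.comp (bai_iff.1 s.2) (DefF.leftN DefF.id))
    (DefF.rightN DefF.id)).congr fun n => ?_
  simp [gr]

/-- the digits of player I -/
noncomputable def pX (z : Bai E) : Rl E := ⟨fun n => decide (z.1 (2 * n + 2) ≠ 0), by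
  rw [real_iff]
  refine (Def.eq (DefF.comp (bai_iff.1 z.2) (DefF.ofComp (by fun_prop : Computable
    fun n : ℕ => 2 * n + 2))) (DefF.const 0)).not.congr fun n => ?_
  simp⟩

/-- the digits of player II -/
noncomputable def pY (z : Bai E) : Rl E := ⟨fun n => decide (z.1 (2 * n + 1) ≠ 0), by
  rw [real_iff]
  refine (Def.eq (DefF.comp (bai_iff.1 z.2) (DefF.ofComp (by fun_prop : Computable
    fun n : ℕ => 2 * n + 1))) (DefF.const 0)).not.congr fun n => ?_
  simp⟩

theorem defF_pX : DefF E (fun z : Bai E => pX z) := by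
  have h : DefF E (fun p : Bai E × ℕ => 2 * p.2 + 2) :=
    DefF.comp (f := fun n : ℕ => 2 * n + 2) (g := fun p : Bai E × ℕ => p.2)
      (DefF.ofComp (by fun_prop)) DefF.snd
  refine DefF.compr ?_
  refine (Def.eq (DefF.baiEval (F := fun p : Bai E × ℕ => p.1) DefF.fst h)
    (DefF.const 0)).not.congr fun p => ?_
  simp [pX]

theorem defF_pY : DefF E (fun z : Bai E => pY z) := by
  have h : DefF E (fun p : Bai E × ℕ => 2 * p.2 + 1) :=
    DefF.comp (f := fun n : ℕ => 2 * n + 1) (g := fun p : Bai E × ℕ => p.2)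
      (DefF.ofComp (by fun_prop)) DefF.snd
  refine DefF.compr ?_
  refine (Def.eq (DefF.baiEval (F := fun p : Bai E × ℕ => p.1) DefF.fst h)
    (DefF.const 0)).not.congr fun p => ?_
  simp [pY]

theorem decide_toNat (b : Bool) : decide (b.toNat ≠ 0) = b := by cases b <;> rfl

/-- the second player has no winning strategy -/
theorem not_two {K : Rl E → Prop} (hcof : ∀ z, ∃ x, Above z x ∧ K x) (s : Bai E)
    (hs : ∀ z : Bai E, (∀ n, z.1 (2 * n + 1) = s.1 (encode ((List.range (2 * n + 1)).map z.1))) →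
      ¬ (ByT (Denumerable.ofNat Code (z.1 0)) (pX z).1 (pY z).1 ∧ K (pX z))) : False := by
  obtain ⟨x, hx, hK⟩ := hcof ⟨gr s.1, gr_mem s⟩
  obtain ⟨P, hP, hP'⟩ := uce_play2
  have hj : LeT (join (gr s.1) x.1) x.1 := join_le hx (LeT.rfl' _)
  -- the answers of the strategy
  let H : ℕ → Bool := fun k => decide (play (nx2 s.1 k.unpair.1 x.1) (2 * k.unpair.2 + 1) ≠ 0)
  have hH : LeT H x.1 := by
    refine LeT.trans ?_ hj
    rw [leT_iff_ce]
    have h1 : ∀ v : ℕ, Computable fun k : ℕ => (k.unpair.1, 2 * k.unpair.2 + 1, v) := fun v => by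
      fun_prop
    have h2 : Computable fun p : ℕ × ℕ => (p.1.unpair.1, 2 * p.1.unpair.2 + 1, p.2) := by
      fun_prop
    constructor
    · have h3 : UCE (fun X (k : ℕ) => ∃ v : ℕ, P X (k.unpair.1, 2 * k.unpair.2 + 1, v) ∧ v ≠ 0) :=
        UCE.ex (S := fun X (k : ℕ) (v : ℕ) => P X (k.unpair.1, 2 * k.unpair.2 + 1, v) ∧ v ≠ 0)
          (UCE.and (hP.comp h2) (UCE.of_re (RE.ne Computable.snd (Computable.const 0))))
      refine (uce_ce h3 (f := fun n => n) Computable.id (join (gr s.1) x.1)).of_eq fun k => ?_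
      simp only [hP']
      simp [H]
    · have h3 : UCE (fun X (k : ℕ) => P X (k.unpair.1, 2 * k.unpair.2 + 1, 0)) := hP.comp (h1 0)
      refine (uce_ce h3 (f := fun n => n) Computable.id (join (gr s.1) x.1)).of_eq fun k => ?_
      simp only [hP']
      simp [H]
  obtain ⟨c, hc⟩ := rec_thm hH
  obtain ⟨z, hz⟩ : ∃ z : Bai E, z.1 = play (nx2 s.1 (encode c) x.1) := by
    refine exists_bai (x := x) (CE.mono hj ?_)
    have h2 : Computable fun k : ℕ => (encode c, k.unpair.1, k.unpair.2) :=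
      (Computable.const _).pair (by fun_prop)
    refine (uce_ce hP h2 (join (gr s.1) x.1)).of_eq fun k => ?_
    rw [hP']
  have e1 : (pX z).1 = x.1 := by
    funext n
    show decide (z.1 (2 * n + 2) ≠ 0) = x.1 n
    rw [hz, play2_even, decide_toNat]
  have e2 : (pY z).1 = fun n => H (Nat.pair (encode c) n) := by
    funext n
    show decide (z.1 (2 * n + 1) ≠ 0) = _
    simp only [H, Nat.unpair_pair, hz]
  refine hs z (fun n => ?_) ⟨?_, ?_⟩
  · rw [hz]
    exact play2_odd _ _ _ _
  · rw [hz, play2_zero, Denumerable.ofNat_encode, e1, e2]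
    exact hc
  · have : pX z = x := Subtype.ext e1
    rw [this]
    exact hK

/-- Uniformization: a set of reals with members of cofinally many degrees contains, for some `t`,
a real Turing equivalent to `t ⊕ w`, uniformly in `w`. -/
theorem uniformize (hAD : AD E) {K : Rl E → Prop} (hK : Def E K)
    (hcof : ∀ z, ∃ x, Above z x ∧ K x) (c : Rl E) :
    ∃ (t : Rl E) (L : Rl E → Rl E), DefF E L ∧ (∀ w, K (L w)) ∧
      (∃ p : Code, ByT p t.1 c.1) ∧ (∃ e : Code, ∀ w, ByT e (L w).1 (join t.1 w.1)) ∧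
      ∃ d : Code, ∀ w, ByT d (join t.1 w.1) (L w).1 := by
  have hA : Def E (fun z : Bai E =>
      ByT (Denumerable.ofNat Code (z.1 0)) (pX z).1 (pY z).1 ∧ K (pX z)) := by
    refine Def.and ?_ (hK.comp defF_pX)
    exact Def.byT (c := fun z : Bai E => z.1 0) (DefF.baiEval DefF.id (DefF.const 0)) defF_pX
      defF_pY
  obtain ⟨s, hs⟩ := ad_sort hAD hA
  rcases hs with hs | hs
  swap
  · exact (not_two hcof s hs).elim
  let G : Rl E := ⟨gr s.1, gr_mem s⟩
  let t : Rl E := jn' G c
  obtain ⟨P, hP, hP'⟩ := uce_play1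
  -- the plays
  have hz : ∀ w : Rl E, ∃ z : Bai E, z.1 = play (nx1 s.1 (join (join (gr s.1) c.1) w.1)) := by
    intro w
    refine exists_bai (x := jn' t w) ?_
    have h2 : Computable fun k : ℕ => (k.unpair.1, k.unpair.2) := by fun_prop
    refine (uce_ce hP h2 (join (join (gr s.1) c.1) w.1)).of_eq fun k => ?_
    rw [hP']
  choose Z hZ using hz
  have hwin : ∀ w, ByT (Denumerable.ofNat Code ((Z w).1 0)) (pX (Z w)).1 (pY (Z w)).1 ∧
      K (pX (Z w)) := by
    intro w
    refine hs (Z w) fun n => ?_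
    rw [hZ]
    exact play1_even _ _ _
  have e0 : ∀ w, (Z w).1 0 = s.1 (encode ([] : List ℕ)) := by
    intro w
    rw [hZ]
    exact play1_even _ _ 0
  have eY : ∀ w, (pY (Z w)).1 = join t.1 w.1 := by
    intro w
    funext n
    show decide ((Z w).1 (2 * n + 1) ≠ 0) = _
    rw [hZ, play1_odd, decide_toNat]
    rfl
  -- the program
  have hQ : ∀ b : Bool, UCE (fun X (n : ℕ) => ∃ v : ℕ, P X (2 * n + 2, v) ∧
      decide (v ≠ 0) = b) := by
    intro b
    refine UCE.ex (S := fun X (n v : ℕ) => P X (2 * n + 2, v) ∧ decide (v ≠ 0) = b)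
      (UCE.and (hP.comp (f := fun p : ℕ × ℕ => (2 * p.1 + 2, p.2)) (by fun_prop)) ?_)
    cases b with
    | true =>
      have : REPred (fun p : ℕ × ℕ => p.2 ≠ 0) := RE.ne Computable.snd (Computable.const 0)
      exact (UCE.of_re this).of_eq fun X p => by simp
    | false =>
      have : REPred (fun p : ℕ × ℕ => p.2 = 0) := RE.eq Computable.snd (Computable.const 0)
      exact (UCE.of_re this).of_eq fun X p => by simp
  obtain ⟨d, hd⟩ := exists_byT hQ
  have hd' : ∀ w, ByT d (join t.1 w.1) (pX (Z w)).1 := by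
    intro w
    refine hd _ _ fun b n => ?_
    have e1 : ∀ v, P (join t.1 w.1) (2 * n + 2, v) ↔ (Z w).1 (2 * n + 2) = v := by
      intro v
      rw [hZ]
      exact hP' s.1 c.1 w.1 _ _
    simp only [e1]
    show _ ↔ decide ((Z w).1 (2 * n + 2) ≠ 0) = b
    simp
  refine ⟨t, fun w => pX (Z w), ?_, fun w => (hwin w).2, ?_, ⟨Denumerable.ofNat Code
    (s.1 (encode ([] : List ℕ))), fun w => ?_⟩, d, hd'⟩
  · exact defF_of_byT (f := fun w => jn' t w) (g := fun w => pX (Z w)) (d := d) hd'
      (DefF.jn' (DefF.const t) DefF.id)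
  · obtain ⟨p, hp⟩ := byT_right
    exact ⟨p, hp _ _⟩
  · have h1 := (hwin w).1
    rw [e0, eY] at h1
    exact h1

end

end Run7.h931
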