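import Pool.Agent.Run7.h931.Deg
import Pool.Agent.R616.DI.Cone

/-!
Reductions: relative enumerability.
-/

set_option autoImplicit false

namespace Run7.h931

open Encodable
open Nat.Partrec (Code)
open Pool.Agent.H639.LU Pool.Agent.H869R3.FN Pool.Agent.R616.DI
open Pool.Agent.Helper446.Defs Pool.Agent.Helper446.Oracle

theorem orc_eq (x : ℕ → Bool) : orc x = chi (St x) := by
  funext n
  unfold orc chi chiN
  by_cases h : x n = true
  · rw [if_pos (show n ∈ St x from h), h]
    rfl
  · rw [if_neg (show n ∉ St x from h)]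
    rw [Bool.not_eq_true] at h
    rw [h]
    rfl

theorem leT_iff_le {x y : ℕ → Bool} : LeT x y ↔ le x y := by
  unfold LeT le
  rw [orc_eq, orc_eq]

theorem byT_iff {e : Code} {x y : ℕ → Bool} : ByT e x y ↔ Red e x y := Iff.rfl

theorem leT_iff {x y : ℕ → Bool} : LeT y x ↔ ∃ e, ByT e x y := by
  rw [leT_iff_le, le_iff]
  exact Iff.rfl

theorem LeT.rfl' (x : ℕ → Bool) : LeT x x := leT_iff_le.2 (le_refl' x)

theorem LeT.trans {x y z : ℕ → Bool} (h : LeT x y) (h' : LeT y z) : LeT x z :=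
  leT_iff_le.2 (le_trans' (leT_iff_le.1 h) (leT_iff_le.1 h'))

/-- relatively computably enumerable predicates of natural numbers -/
def CE (x : ℕ → Bool) (S : ℕ → Prop) : Prop := REIn (St x) S

theorem CE.of_eq {x : ℕ → Bool} {S T : ℕ → Prop} (h : CE x S) (h' : ∀ n, S n ↔ T n) : CE x T :=
  REIn.of_eq h h'

theorem CE.mono {x y : ℕ → Bool} (h : LeT x y) {S : ℕ → Prop} (hS : CE x S) : CE y S :=
  K4.1 x y (leT_iff_le.1 h) S hS

theorem CE.comp {x : ℕ → Bool} {S : ℕ → Prop} (hS : CE x S) {f : ℕ → ℕ} (hf : Computable f) :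
    CE x (fun n => S (f n)) := REIn.comp hS hf

theorem CE.pos (x : ℕ → Bool) : CE x (fun n => x n = true) :=
  (REIn.mem (A := St x) (f := fun n : ℕ => n) Computable.id).of_eq fun n => Iff.rfl

theorem CE.neg (x : ℕ → Bool) : CE x (fun n => x n = false) :=
  (REIn.not_mem (A := St x) (f := fun n : ℕ => n) Computable.id).of_eq fun n => by
    simp [St]

/-- Post's theorem -/
theorem leT_iff_ce {x y : ℕ → Bool} :
    LeT y x ↔ CE x (fun n => y n = true) ∧ CE x (fun n => y n = false) := by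
  rw [leT_iff_le]
  unfold le
  rw [turingReducible_iff]
  refine and_congr Iff.rfl ?_
  constructor
  · exact fun h => h.of_eq fun n => by simp [St]
  · exact fun h => h.of_eq fun n => by simp [St]

theorem jump_iff {x : ℕ → Bool} {p : ℕ} : jump x p = true ↔
    ∃ s, ((Denumerable.ofNat Code p.unpair.1).eval (encode (p.unpair.2, seg x s))).Dom := by
  classical
  unfold jump
  exact decide_eq_true_iff

theorem jump_code {x : ℕ → Bool} {c : Code} {n : ℕ} : jump x (Nat.pair (encode c) n) = true ↔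
    ∃ s, (c.eval (encode (n, seg x s))).Dom := by
  rw [jump_iff, Nat.unpair_pair]
  simp only [Denumerable.ofNat_encode]

theorem ce_jump (x : ℕ → Bool) : CE x (fun n => jump x n = true) := by
  refine ((K5 K2).2.1 x).of_eq fun n => ?_
  rw [jump_iff]
  exact Iff.rfl

theorem code_re {R : ℕ × Str → Prop} (hR : REPred R) :
    ∃ c : Code, ∀ p : ℕ × Str, (c.eval (encode p)).Dom ↔ R p := by
  obtain ⟨c, hc⟩ := code_of (f := fun p => (Part.assert (R p) fun _ => Part.some 0)) (by
    have h1 : Partrec (fun p : ℕ × Str => Part.assert (R p) fun _ => Part.some ()) := hR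
    exact (h1.map ((Computable.const 0).comp Computable.fst).to₂).of_eq fun p => by
      refine Part.ext fun a => ?_
      simp only [Part.mem_map_iff, Part.mem_assert_iff, Part.mem_some_iff]
      constructor
      · rintro ⟨b, ⟨h, -⟩, rfl⟩
        exact ⟨h, rfl⟩
      · rintro ⟨h, rfl⟩
        exact ⟨(), ⟨h, trivial⟩, rfl⟩)
  refine ⟨c, fun p => ?_⟩
  rw [hc]
  constructor
  · rintro ⟨h, -⟩
    exact h
  · exact fun h => ⟨h, trivial⟩

/-- the jump is complete -/
theorem CE.le_jump {x : ℕ → Bool} {S : ℕ → Prop} (hS : CE x S) :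
    ∃ f : ℕ → ℕ, Computable f ∧ ∀ n, S n ↔ jump x (f n) = true := by
  obtain ⟨R, hR, h⟩ := (K2 ℕ x S).1 hS
  obtain ⟨c, hc⟩ := code_re hR
  refine ⟨fun n => Nat.pair (encode c) n,
    (Primrec₂.natPair.comp (Primrec.const _) Primrec.id).to_comp, fun n => ?_⟩
  rw [jump_code, h]
  exact exists_congr fun s => (hc (n, seg x s)).symm

theorem ce_of_leMC {c x y z : ℕ → Bool} (h : LeMC c x y) (hc : LeT c z) {b : Bool}
    (hy : CE z (fun n => y n = b)) : CE z (fun n => x n = b) := by
  obtain ⟨ρ, hρ, h⟩ := h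
  have h1 : TuringReducible (fun n => Part.some (ρ n)) (chi (St z)) := by
    rw [← orc_eq]
    exact hρ.trans hc
  rw [turingReducible_fun_iff] at h1
  have h2 : REIn (St z) (fun n : ℕ => ∃ m : ℕ, ρ n = m ∧ y m = b) := by
    refine REIn.ex (S := fun (n m : ℕ) => ρ n = m ∧ y m = b) (REIn.and h1 ?_)
    exact REIn.comp (S := fun n : ℕ => y n = b) hy (by fun_prop)
  refine h2.of_eq fun n => ?_
  rw [h]
  simp

theorem leM_jump {x y : ℕ → Bool} (h : LeT x y) : LeM (jump x) (jump y) := by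
  obtain ⟨f, hf, h1⟩ := (CE.mono h (ce_jump x)).le_jump
  refine ⟨f, hf, fun n => ?_⟩
  rw [Bool.eq_iff_iff]
  exact h1 n

theorem eqM_jump {x y : ℕ → Bool} (h : EqT x y) : EqM (jump x) (jump y) :=
  ⟨leM_jump h.1, leM_jump h.2⟩

theorem leMC_of_leM {c x y : ℕ → Bool} (h : LeM x y) : LeMC c x y := by
  obtain ⟨ρ, hρ, h⟩ := h
  refine ⟨ρ, ?_, h⟩
  exact Partrec.turingReducible hρ

/-- the parameter gets out of many-one reductions between jumps -/
theorem le_of_jump {c x y z : ℕ → Bool} (h : LeMC c (jump y) (jump x)) (hc : LeT c z)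
    (hx : LeT x z) : LeT y z := by
  have hj : CE z (fun n => jump y n = true) :=
    ce_of_leMC h hc (CE.mono hx (ce_jump x))
  rw [leT_iff_ce]
  constructor
  · obtain ⟨f, hf, h1⟩ := (CE.pos y).le_jump
    exact (hj.comp hf).of_eq fun n => (h1 n).symm
  · obtain ⟨f, hf, h1⟩ := (CE.neg y).le_jump
    exact (hj.comp hf).of_eq fun n => (h1 n).symm

theorem le_of_jump_cpl {c x y z : ℕ → Bool} (h : LeMC c (jump y) (cpl (jump x))) (hc : LeT c z)
    (hx : LeT x z) : LeT (jump y) z := by
  have hj : CE z (fun n => jump y n = false) := by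
    refine ce_of_leMC h hc ?_
    refine (CE.mono hx (ce_jump x)).of_eq fun n => ?_
    simp [cpl]
  have hy : LeT y z := by
    rw [leT_iff_ce]
    constructor
    · obtain ⟨f, hf, h1⟩ := (CE.neg y).le_jump
      refine (hj.comp hf).of_eq fun n => ?_
      rw [← Bool.not_eq_true, ← h1 n]
      simp
    · obtain ⟨f, hf, h1⟩ := (CE.pos y).le_jump
      refine (hj.comp hf).of_eq fun n => ?_
      rw [← Bool.not_eq_true, ← h1 n]
      simp
  exact leT_iff_ce.2 ⟨CE.mono hy (ce_jump y), hj⟩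

theorem le_of_cpl_jump {c x y z : ℕ → Bool} (h : LeMC c (cpl (jump y)) (jump x)) (hc : LeT c z)
    (hx : LeT x z) : LeT y z := by
  have hj : CE z (fun n => jump y n = false) := by
    have h1 := ce_of_leMC h hc (CE.mono hx (ce_jump x))
    refine h1.of_eq fun n => ?_
    simp [cpl]
  rw [leT_iff_ce]
  constructor
  · obtain ⟨f, hf, h1⟩ := (CE.neg y).le_jump
    refine (hj.comp hf).of_eq fun n => ?_
    rw [← Bool.not_eq_true, ← h1 n]
    simp
  · obtain ⟨f, hf, h1⟩ := (CE.pos y).le_jump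
    refine (hj.comp hf).of_eq fun n => ?_
    rw [← Bool.not_eq_true, ← h1 n]
    simp

theorem le_jump_self (x : ℕ → Bool) : LeT x (jump x) := by
  rw [leT_iff_ce]
  constructor
  · obtain ⟨f, hf, h1⟩ := (CE.pos x).le_jump
    exact ((CE.pos (jump x)).comp hf).of_eq fun n => (h1 n).symm
  · obtain ⟨f, hf, h1⟩ := (CE.neg x).le_jump
    exact ((CE.pos (jump x)).comp hf).of_eq fun n => (h1 n).symm

theorem not_jump_le (x : ℕ → Bool) : ¬ LeT (jump x) x := by
  intro h
  -- diagonalise
  have h1 : CE x (fun n => jump x n = false) := (leT_iff_ce.1 h).2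
  obtain ⟨R, hR, h2⟩ := (K2 ℕ x _).1 (h1.comp (f := fun n => Nat.pair n n) (by fun_prop))
  obtain ⟨c, hc⟩ := code_re hR
  have h3 := h2 (encode c)
  have h4 : (∃ s, R (encode c) (seg x s)) ↔ jump x (Nat.pair (encode c) (encode c)) = true := by
    rw [jump_code]
    exact exists_congr fun s => (hc (encode c, seg x s)).symm
  rw [h4] at h3
  cases h5 : jump x (Nat.pair (encode c) (encode c)) <;> simp [h5] at h3

theorem leT_of_comp {x z : ℕ → Bool} {f : ℕ → ℕ} (hf : Computable f) (h : ∀ n, z n = x (f n)) :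
    LeT z x := leT_iff_le.2 (K4.2.2.2 _ _ f hf h)

theorem le_join_left (x y : ℕ → Bool) : LeT x (join x y) :=
  leT_of_comp (f := fun n => 2 * n) (by fun_prop) fun n => by
    unfold join
    rw [if_pos (by omega)]
    congr 1
    omega

theorem le_join_right (x y : ℕ → Bool) : LeT y (join x y) :=
  leT_of_comp (f := fun n => 2 * n + 1) (by fun_prop) fun n => by
    unfold join
    rw [if_neg (by omega)]
    congr 1
    omega

theorem join_le {x y z : ℕ → Bool} (hx : LeT x z) (hy : LeT y z) : LeT (join x y) z := by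
  have m2 : Computable (fun n : ℕ => n % 2) :=
    (Primrec.nat_mod.comp Primrec.id (Primrec.const 2)).to_comp
  have d2 : Computable (fun n : ℕ => n / 2) :=
    (Primrec.nat_div.comp Primrec.id (Primrec.const 2)).to_comp
  have key : ∀ b, CE z (fun n => x n = b) → CE z (fun n => y n = b) →
      CE z (fun n => join x y n = b) := by
    intro b h1 h2
    have h3 : REIn (St z) (fun n : ℕ => (n % 2 = 0 ∧ x (n / 2) = b) ∨ (n % 2 ≠ 0 ∧ y (n / 2) = b)) :=
      REIn.or (REIn.and (REIn.of_re (Pool.Agent.Helper446.RE.eq m2 (Computable.const 0))) (h1.comp d2))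
        (REIn.and (REIn.of_re (Pool.Agent.Helper446.RE.ne m2 (Computable.const 0))) (h2.comp d2))
    refine h3.of_eq fun n => ?_
    unfold join
    by_cases h : n % 2 = 0 <;> simp [h]
  obtain ⟨h1, h2⟩ := leT_iff_ce.1 hx
  obtain ⟨h3, h4⟩ := leT_iff_ce.1 hy
  exact leT_iff_ce.2 ⟨key _ h1 h3, key _ h2 h4⟩

end Run7.h931
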