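import Pool.Agent.Run7.h931.Comp
import Pool.Agent.Run7.h931.TR

/-!
Reductions and the jump are represented in the model.
-/

set_option autoImplicit false

namespace Run7.h931

open Encodable
open Nat.Partrec (Code)
open Pool.Agent.H639.LU Pool.Agent.H869R3.FN Pool.Agent.R616.DI
open Pool.Agent.Helper446.Defs Pool.Agent.Helper446.Oracle

universe u

section

variable {M : Type u} {E : M → M → Prop} [hO : OM E]

theorem Def.ofRE' {α : Type} [Primcodable α] [Inhabited α] {R : α → Prop} (hR : REPred R)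
    {S : Type} [Srt E S] {g : S → ℕ} {h : S → α} (hg : DefF E g) (he : ∀ s, encode (h s) = g s) :
    Def E (fun s => R (h s)) := by
  have h1 : REPred (fun k : ℕ => R ((decode (α := α) k).getD default)) :=
    Pool.Agent.Helper446.RE.comp hR (Computable.option_getD Computable.decode (Computable.const _))
  refine (Def.comp (Def.ofRE (E := E) h1) hg).congr fun s => ?_
  rw [← he]
  simp [encodek]

/-- appending a digit to a coded string -/
def app (b : Bool) (t : ℕ) : ℕ := encode ((decode (α := Str) t).getD [] ++ [b])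

theorem app_comp (b : Bool) : Computable (app b) := by
  unfold app
  exact Computable.encode.comp (Computable.list_append.comp
    (Computable.option_getD Computable.decode (Computable.const _)) (Computable.const _))

/-- codes of initial segments -/
theorem DefF.seg {S : Type} [Srt E S] {f : S → Rl E} {g : S → ℕ} (hf : DefF E f)
    (hg : DefF E g) : DefF E (fun s => encode (seg (f s).1 (g s))) := by
  have h1 : DefF E (fun q : Rl E × ℕ × ℕ => app (q.1.1 q.2.1) q.2.2) := by
    have hr : ∀ b, Def E (fun p : (Rl E × ℕ × ℕ) × ℕ => p.1.1.1 p.1.2.1 = b) := fun b =>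
      Def.real' (DefF.comp DefF.fst DefF.fst)
        (DefF.comp DefF.fst (DefF.comp DefF.snd DefF.fst)) b
    have ha : ∀ b, Def E (fun p : (Rl E × ℕ × ℕ) × ℕ => app b p.1.2.2 = p.2) := fun b =>
      Def.eq (DefF.comp (DefF.ofComp (app_comp b)) (DefF.comp DefF.snd (DefF.comp DefF.snd
        DefF.fst))) DefF.snd
    refine (((hr true).and (ha true)).or ((hr false).and (ha false))).congr fun p => ?_
    constructor
    · rintro (⟨h1, h2⟩ | ⟨h1, h2⟩)
      · show app (p.1.1.1 p.1.2.1) p.1.2.2 = p.2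
        rw [h1, h2]
      · show app (p.1.1.1 p.1.2.1) p.1.2.2 = p.2
        rw [h1, h2]
    · intro (h : app (p.1.1.1 p.1.2.1) p.1.2.2 = p.2)
      cases h1 : p.1.1.1 p.1.2.1 with
      | true => rw [h1] at h; exact Or.inl ⟨rfl, h⟩
      | false => rw [h1] at h; exact Or.inr ⟨rfl, h⟩
  have h2 := DefF.rec (S := Rl E) (T := ℕ) (f := fun _ => encode ([] : Str))
    (h := fun q : Rl E × ℕ × ℕ => app (q.1.1 q.2.1) q.2.2) (DefF.const _) h1
  refine (DefF.comp h2 (hf.pair hg)).congr fun s => ?_
  simp only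
  induction g s with
  | zero => rfl
  | succ n ih =>
    simp only at ih ⊢
    rw [ih, seg_succ']
    unfold app
    rw [encodek]
    rfl

/-- c.e. conditions on initial segments -/
theorem Def.seg {R : ℕ × Str → Prop} (hR : REPred R) {S : Type} [Srt E S] {k : S → ℕ}
    {f : S → Rl E} {g : S → ℕ} (hk : DefF E k) (hf : DefF E f) (hg : DefF E g) :
    Def E (fun s => R (k s, seg (f s).1 (g s))) :=
  Def.ofRE' hR (g := fun s => Nat.pair (k s) (encode (Pool.Agent.Helper446.Defs.seg (f s).1 (g s))))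
    (DefF.pairN hk (DefF.seg hf hg)) fun _ => rfl

theorem Def.ce {R : ℕ × Str → Prop} (hR : REPred R) {S : Type} [Srt E S] {k : S → ℕ}
    {f : S → Rl E} (hk : DefF E k) (hf : DefF E f) :
    Def E (fun s => ∃ t : ℕ, R (k s, Pool.Agent.Helper446.Defs.seg (f s).1 t)) := by
  refine Def.ex (P := fun (s : S) (t : ℕ) => R (k s, Pool.Agent.Helper446.Defs.seg (f s).1 t)) ?_
  exact Def.seg (S := S × ℕ) (k := fun p => k p.1) (f := fun p => f p.1) (g := fun p => p.2) hR
    (DefF.comp hk DefF.fst) (DefF.comp hf DefF.fst) DefF.snd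

/-- predicates which are c.e. in a real of the model are in the model -/
theorem def_of_ce {x : Rl E} {P : ℕ → Prop} (h : CE x.1 P) : Def E P := by
  obtain ⟨R, hR, h⟩ := (K2 ℕ x.1 P).1 h
  exact (Def.ce (S := ℕ) (k := fun n => n) (f := fun _ => x) hR DefF.id (DefF.const x)).congr
    fun n => (h n).symm

theorem mem_of_leT {x : Rl E} {y : ℕ → Bool} (h : LeT y x.1) : ∃ a, RealR E a y :=
  real_iff.2 (def_of_ce (leT_iff_ce.1 h).1)

theorem jump_mem (x : Rl E) : ∃ a, RealR E a (jump x.1) :=
  real_iff.2 (def_of_ce (ce_jump x.1))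

/-- the jump on the reals of the model -/
noncomputable def jmp (x : Rl E) : Rl E := ⟨jump x.1, jump_mem x⟩

theorem re_eval : REPred (fun p : ℕ × Str =>
    ((Denumerable.ofNat Code p.1.unpair.1).eval (encode (p.1.unpair.2, p.2))).Dom) := by
  refine Pool.Agent.Helper446.RE.comp K5_univ (f := fun p : ℕ × Str =>
    (Denumerable.ofNat Code p.1.unpair.1, p.1.unpair.2, p.2)) ?_
  have h1 : Computable fun p : ℕ × Str => Denumerable.ofNat Code p.1.unpair.1 :=
    (Computable.ofNat Code).comp (by fun_prop)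
  exact h1.pair (by fun_prop)

theorem re_eval_mem : REPred (fun p : ℕ × Str =>
    p.1.unpair.2.unpair.2 ∈ ((Denumerable.ofNat Code p.1.unpair.1).eval
      (encode (p.1.unpair.2.unpair.1, p.2)))) := by
  have h1 : REPred (fun p : ℕ × Str => ∃ k : ℕ, Nat.Partrec.Code.evaln k
      (Denumerable.ofNat Code p.1.unpair.1) (encode (p.1.unpair.2.unpair.1, p.2)) =
        some p.1.unpair.2.unpair.2) := by
    refine Pool.Agent.Helper446.RE.ex (p := fun (p : ℕ × Str) (k : ℕ) => Nat.Partrec.Code.evaln k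
      (Denumerable.ofNat Code p.1.unpair.1) (encode (p.1.unpair.2.unpair.1, p.2)) =
        some p.1.unpair.2.unpair.2) ?_
    have h2 : Computable fun p : (ℕ × Str) × ℕ => Denumerable.ofNat Code p.1.1.unpair.1 :=
      (Computable.ofNat Code).comp (by fun_prop)
    refine Pool.Agent.Helper446.RE.eq ?_ ?_
    · exact Nat.Partrec.Code.primrec_evaln.to_comp.comp
        (f := fun a : (ℕ × Code) × ℕ => Nat.Partrec.Code.evaln a.1.1 a.1.2 a.2)
        (g := fun x : (ℕ × Str) × ℕ => ((x.2, Denumerable.ofNat Code x.1.1.unpair.1),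
          encode (x.1.1.unpair.2.unpair.1, x.1.2)))
        ((Computable.snd.pair h2).pair (by fun_prop))
    · exact Computable.option_some.comp (by fun_prop)
  have h2 : (fun p : ℕ × Str => p.1.unpair.2.unpair.2 ∈ ((Denumerable.ofNat Code p.1.unpair.1).eval
      (encode (p.1.unpair.2.unpair.1, p.2)))) = (fun p : ℕ × Str => ∃ k : ℕ,
      Nat.Partrec.Code.evaln k (Denumerable.ofNat Code p.1.unpair.1)
        (encode (p.1.unpair.2.unpair.1, p.2)) = some p.1.unpair.2.unpair.2) := by
    funext p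
    exact propext Nat.Partrec.Code.evaln_complete
  rw [h2]
  exact h1

theorem DefF.jmp {S : Type} [Srt E S] {f : S → Rl E} (hf : DefF E f) :
    DefF E (fun s => jmp (f s)) := by
  refine DefF.compr ?_
  refine (Def.ce (S := S × ℕ) (k := fun p => p.2) (f := fun p => f p.1) re_eval DefF.snd
    (DefF.comp hf DefF.fst)).congr fun p => ?_
  exact jump_iff.symm

/-- `v` is an output of the program `c` on `(n, σ)` for an initial segment `σ` of `x` -/
def Val' (c : ℕ) (x : ℕ → Bool) (n v : ℕ) : Prop :=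
  ∃ s : ℕ, v ∈ (Denumerable.ofNat Code c).eval (encode (n, seg x s))

theorem Def.val {S : Type} [Srt E S] {c n v : S → ℕ} {x : S → Rl E} (hc : DefF E c)
    (hn : DefF E n) (hv : DefF E v) (hx : DefF E x) :
    Def E (fun s => Val' (c s) (x s).1 (n s) (v s)) := by
  refine (Def.ce (k := fun s => Nat.pair (c s) (Nat.pair (n s) (v s))) (f := x) re_eval_mem
    (DefF.pairN hc (DefF.pairN hn hv)) hx).congr fun s => ?_
  simp [Val']

theorem Def.byT {S : Type} [Srt E S] {c : S → ℕ} {x y : S → Rl E} (hc : DefF E c)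
    (hx : DefF E x) (hy : DefF E y) :
    Def E (fun s => ByT (Denumerable.ofNat Code (c s)) (x s).1 (y s).1) := by
  have h : Def E (fun s => ∀ n v : ℕ, Val' (c s) (x s).1 n v ↔
      (((y s).1 n = true ∧ v = 1) ∨ ((y s).1 n = false ∧ v = 0))) := by
    refine Def.all (P := fun (s : S) (n : ℕ) => ∀ v : ℕ, Val' (c s) (x s).1 n v ↔
      (((y s).1 n = true ∧ v = 1) ∨ ((y s).1 n = false ∧ v = 0))) ?_
    refine Def.all (P := fun (p : S × ℕ) (v : ℕ) => (Val' (c p.1) (x p.1).1 p.2 v ↔
      (((y p.1).1 p.2 = true ∧ v = 1) ∨ ((y p.1).1 p.2 = false ∧ v = 0)))) ?_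
    have e1 : DefF E (fun q : (S × ℕ) × ℕ => q.1.1) := DefF.comp DefF.fst DefF.fst
    have e2 : DefF E (fun q : (S × ℕ) × ℕ => q.1.2) := DefF.comp DefF.snd DefF.fst
    have e3 : DefF E (fun q : (S × ℕ) × ℕ => q.2) := DefF.snd
    refine Def.iff (Def.val (DefF.comp hc e1) e2 e3 (DefF.comp hx e1))
      (Def.or (Def.and (Def.real' (DefF.comp hy e1) e2 _) (Def.eq e3 (DefF.const _)))
        (Def.and (Def.real' (DefF.comp hy e1) e2 _) (Def.eq e3 (DefF.const _))))
  refine h.congr fun s => ?_
  refine forall_congr' fun n => forall_congr' fun v => iff_congr Iff.rfl ?_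
  cases (y s).1 n <;> simp

theorem leT_iff_nat {x y : ℕ → Bool} :
    LeT y x ↔ ∃ c : ℕ, ByT (Denumerable.ofNat Code c) x y := by
  rw [leT_iff]
  constructor
  · rintro ⟨e, he⟩
    exact ⟨encode e, by rwa [Denumerable.ofNat_encode]⟩
  · rintro ⟨c, hc⟩
    exact ⟨_, hc⟩

theorem Def.leT {S : Type} [Srt E S] {x y : S → Rl E} (hx : DefF E x) (hy : DefF E y) :
    Def E (fun s => LeT (x s).1 (y s).1) := by
  have h : Def E (fun s => ∃ c : ℕ, ByT (Denumerable.ofNat Code c) (y s).1 (x s).1) := by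
    refine Def.ex (P := fun (s : S) (c : ℕ) =>
      ByT (Denumerable.ofNat Code c) (y s).1 (x s).1) ?_
    exact Def.byT (S := S × ℕ) (c := fun p => p.2) (x := fun p => y p.1) (y := fun p => x p.1)
      DefF.snd (DefF.comp hy DefF.fst) (DefF.comp hx DefF.fst)
  exact h.congr fun s => leT_iff_nat.symm

theorem Def.leC {S : Type} [Srt E S] {f g : S → Fn E} (hf : DefF E f) (hg : DefF E g) :
    Def E (fun s => LeC (f s) (g s)) := by
  unfold LeC Above
  refine Def.ex (P := fun (s : S) (c : Rl E) => ∀ x : Rl E, LeT c.1 x.1 →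
    LeT ((f s).1 x).1 ((g s).1 x).1) ?_
  refine Def.all (P := fun (p : S × Rl E) (x : Rl E) => LeT p.2.1 x.1 →
    LeT ((f p.1).1 x).1 ((g p.1).1 x).1) (Def.imp ?_ ?_)
  · exact Def.leT (DefF.comp DefF.snd DefF.fst) DefF.snd
  · exact Def.leT (DefF.fnEval (DefF.comp hf (DefF.comp DefF.fst DefF.fst)) DefF.snd)
      (DefF.fnEval (DefF.comp hg (DefF.comp DefF.fst DefF.fst)) DefF.snd)

/-- joins in the model -/
theorem join_mem (x y : Rl E) : ∃ a, RealR E a (join x.1 y.1) := by
  rw [real_iff]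
  have d2 : DefF E (fun n : ℕ => n / 2) := DefF.ofComp
    (Primrec.nat_div.comp Primrec.id (Primrec.const 2)).to_comp
  have m2 : DefF E (fun n : ℕ => n % 2) := DefF.ofComp
    (Primrec.nat_mod.comp Primrec.id (Primrec.const 2)).to_comp
  refine (((Def.eq m2 (DefF.const 0)).and (Def.real (DefF.const x) d2)).or
    ((Def.eq m2 (DefF.const 0)).not.and (Def.real (DefF.const y) d2))).congr fun n => ?_
  unfold join
  by_cases h : n % 2 = 0 <;> simp [h]

/-- joins in the model -/
def jn' (x y : Rl E) : Rl E := ⟨join x.1 y.1, join_mem x y⟩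

theorem DefF.jn' {S : Type} [Srt E S] {f g : S → Rl E} (hf : DefF E f) (hg : DefF E g) :
    DefF E (fun s => jn' (f s) (g s)) := by
  refine DefF.compr ?_
  have d2 : DefF E (fun p : S × ℕ => p.2 / 2) := DefF.comp (DefF.ofComp
    (Primrec.nat_div.comp Primrec.id (Primrec.const 2)).to_comp) DefF.snd
  have m2 : DefF E (fun p : S × ℕ => p.2 % 2) := DefF.comp (DefF.ofComp
    (Primrec.nat_mod.comp Primrec.id (Primrec.const 2)).to_comp) DefF.snd
  refine (((Def.eq m2 (DefF.const 0)).and (Def.real (DefF.comp hf DefF.fst) d2)).or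
    ((Def.eq m2 (DefF.const 0)).not.and (Def.real (DefF.comp hg DefF.fst) d2))).congr fun n => ?_
  show _ ↔ join (f n.1).1 (g n.1).1 n.2 = true
  unfold join
  by_cases h : n.2 % 2 = 0 <;> simp [h]

end

end Run7.h931
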