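import Mathlib

/-!
# ω-models of ZF: their reals and their functions on the reals

Nothing here depends on a choice of representatives: an element `a` of a model `(M, E)` represents an
object (a natural number, a real, a function, …) by the relations below.
-/

set_option autoImplicit false

namespace Run7.h931

open Encodable

universe u v w

/-- Formulas of the language of set theory. The variables are natural numbers (de Bruijn indices):
a quantifier binds the variable `0` and shifts the others by one. -/
inductive Fml : Type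
  | mem : ℕ → ℕ → Fml
  | eq : ℕ → ℕ → Fml
  | neg : Fml → Fml
  | conj : Fml → Fml → Fml
  | all : Fml → Fml

/-- The assignment `a, v 0, v 1, …`. -/
def push {M : Type u} (a : M) (v : ℕ → M) : ℕ → M
  | 0 => a
  | n + 1 => v n

/-- Truth of a formula in the structure `(M, E)` under an assignment. -/
def Sat {M : Type u} (E : M → M → Prop) : Fml → (ℕ → M) → Prop
  | .mem i j, v => E (v i) (v j)
  | .eq i j, v => v i = v j
  | .neg φ, v => ¬ Sat E φ v
  | .conj φ ψ, v => Sat E φ v ∧ Sat E ψ v
  | .all φ, v => ∀ a, Sat E φ (push a v)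

section

variable {M : Type u} (E : M → M → Prop)

/-- `w` contains the empty set and is closed under `n ↦ n ∪ {n}`. -/
def IsInductive (w : M) : Prop :=
  (∃ e, E e w ∧ ∀ x, ¬ E x e) ∧ ∀ n, E n w → ∃ s, E s w ∧ ∀ x, E x s ↔ E x n ∨ x = n

/-- `(M, E)` is a model of ZF. -/
structure IsZF : Prop where
  extensionality : ∀ a b, (∀ x, E x a ↔ E x b) → a = b
  foundation : ∀ a, (∃ x, E x a) → ∃ x, E x a ∧ ∀ y, E y x → ¬ E y a
  pairing : ∀ a b, ∃ c, ∀ x, E x c ↔ x = a ∨ x = b
  union : ∀ a, ∃ c, ∀ x, E x c ↔ ∃ y, E y a ∧ E x y
  power : ∀ a, ∃ c, ∀ x, E x c ↔ ∀ y, E y x → E y a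
  infinity : ∃ w, IsInductive E w
  separation : ∀ (φ : Fml) (v : ℕ → M) (a : M), ∃ c, ∀ x, E x c ↔ E x a ∧ Sat E φ (push x v)
  replacement : ∀ (φ : Fml) (v : ℕ → M) (a : M),
    (∀ x, E x a → ∃! y, Sat E φ (push y (push x v))) →
      ∃ c, ∀ y, E y c ↔ ∃ x, E x a ∧ Sat E φ (push y (push x v))

/-- `a` is the `k`-th natural number of `M` (the `k`-th finite von Neumann ordinal). -/
def Num : ℕ → M → Prop
  | 0, a => ∀ x, ¬ E x a
  | k + 1, a => ∃ b, Num k b ∧ ∀ x, E x a ↔ E x b ∨ x = b

/-- `(M, E)` is an ω-model: its natural numbers (the members of all inductive sets) are standard. -/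
def IsOmega : Prop := ∀ n, (∀ w, IsInductive E w → E n w) → ∃ k, Num E k n

/-- `p` is the ordered pair of `a` and `b` in `M`: `p = {{a}, {a, b}}`. -/
def IsPair (p a b : M) : Prop :=
  ∀ z, E z p ↔ (∀ x, E x z ↔ x = a) ∨ ∀ x, E x z ↔ x = a ∨ x = b

/-- Let `r m s` mean that the element `m` of `M` is the object `s`. Then `SetR E r a P` means that
`a` is, in `M`, the set of the objects with the property `P`. -/
def SetR {S : Type v} (r : M → S → Prop) (a : M) (P : S → Prop) : Prop :=
  ∀ x, E x a ↔ ∃ s, P s ∧ r x s

/-- Let `r m s`, `r' m t` mean that the element `m` of `M` is the object `s`, the object `t`. Then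
`FunR E r r' f F` means that `f` is, in `M`, the function `F`, as a set of ordered pairs. -/
def FunR {S : Type v} {T : Type w} (r : M → S → Prop) (r' : M → T → Prop) (f : M) (F : S → T) :
    Prop :=
  ∀ p, E p f ↔ ∃ s x y, r x s ∧ r' y (F s) ∧ IsPair E p x y

/-- The set `a` of natural numbers of `M` has the characteristic function `x`. -/
def RealR (a : M) (x : ℕ → Bool) : Prop := SetR E (fun m n => Num E n m) a fun n => x n = true

/-- The reals of `M`: the sets of natural numbers in `M`, given by their characteristic functions. -/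
def Rl : Type := {x : ℕ → Bool // ∃ a, RealR E a x}

/-- `f` is, in `M`, the function `g` from natural numbers to natural numbers. -/
def BaiR (f : M) (g : ℕ → ℕ) : Prop := FunR E (fun m n => Num E n m) (fun m n => Num E n m) f g

/-- The functions from natural numbers to natural numbers in `M`. -/
def Bai : Type := {g : ℕ → ℕ // ∃ f, BaiR E f g}

/-- `f` is, in `M`, the function `F` from reals to reals. -/
def FnR (f : M) (F : Rl E → Rl E) : Prop :=
  FunR E (fun m (x : Rl E) => RealR E m x.1) (fun m (x : Rl E) => RealR E m x.1) f F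

/-- The functions from reals to reals in `M`. -/
def Fn : Type := {F : Rl E → Rl E // ∃ f, FnR E f F}

/-- `M` satisfies the axiom of dependent choice: if every member of the nonempty set `A` is in the
relation `r` to some member of `A`, then there is in `M` a sequence `h` of members of `A`, with
values `g 0, g 1, …`, each of which is in the relation `r` to the next one. -/
def DC : Prop :=
  ∀ A r : M, (∃ a, E a A) → (∀ a, E a A → ∃ b, E b A ∧ ∃ p, IsPair E p a b ∧ E p r) →
    ∃ (h : M) (g : ℕ → M), FunR E (fun m n => Num E n m) (fun m a => m = a) h g ∧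
      ∀ n, E (g n) A ∧ ∃ p, IsPair E p (g n) (g (n + 1)) ∧ E p r

/-- `M` satisfies the axiom of determinacy. The players I and II choose in turn the values of
`z : ℕ → ℕ`, player I chooses `z 0, z 2, …` and wins if `A z`. A strategy is a function `s` of the
code of the position. -/
def AD : Prop :=
  ∀ A : Bai E → Prop, (∃ a, SetR E (fun m (z : Bai E) => BaiR E m z.1) a A) →
    ∃ s : Bai E,
      (∀ z : Bai E, (∀ n, z.1 (2 * n) = s.1 (encode ((List.range (2 * n)).map z.1))) → A z) ∨
      ∀ z : Bai E, (∀ n, z.1 (2 * n + 1) = s.1 (encode ((List.range (2 * n + 1)).map z.1))) →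
        ¬ A z

end

end Run7.h931
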