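import Pool.Agent.Run7.h931.Steel

/-!
MC_m implies the first part of Martin's conjecture with a parameter; what is missing.
-/

set_option autoImplicit false

namespace Run7.h931

open Nat.Partrec (Code)

universe u

section

variable {M : Type u} (E : M → M → Prop)

/-- Parameters can be eliminated: if `f` is Turing invariant and `f(x) ⊕ c ≥_T x` on a cone, then
`f(x) ≥_T c` on a cone. -/
def PE : Prop := ∀ f : Fn E, TInv f → ∀ c : Rl E,
  (∃ b : Rl E, ∀ x : Rl E, Above b x → LeT x.1 (join (f.1 x).1 c.1)) →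
    ∃ b : Rl E, ∀ x : Rl E, Above b x → LeT c.1 (f.1 x).1

end

theorem zero_le (y : ℕ → Bool) : LeT (fun _ => false) y := by
  unfold LeT orc
  exact Partrec.turingReducible (Computable.const 0).partrec

section

variable {M : Type u} {E : M → M → Prop} [hO : OM E]

/-- part I with a parameter -/
theorem one_param (h : MCm E) {f : Fn E} (hf : TInv f) :
    ConstT f ∨ ∃ c : Rl E, ∀ x, Above c x → LeT x.1 (join (f.1 x).1 c.1) := by
  by_cases hc : ConstM (jf f)
  · left
    obtain ⟨c, hc⟩ := hc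
    have key : ∀ x y : ℕ → Bool, LeM (jump x) (jump y) → LeT x y := fun x y h =>
      le_of_jump (c := fun _ => false) (leMC_of_leM h) (zero_le _) (LeT.rfl' _)
    refine ⟨c, fun x y hx hy => ?_⟩
    have h1 := hc x y hx hy
    exact ⟨key _ _ h1.1, key _ _ h1.2⟩
  · right
    rcases h.one (jf f) (jf_tminv hf) hc with ⟨c, h1⟩ | ⟨c, h1⟩
    · exact ⟨c, fun x hx => le_of_jump (h1 x hx) (le_join_right _ _) (le_join_left _ _)⟩
    · exact ⟨c, fun x hx => le_of_cpl_jump (h1 x hx) (le_join_right _ _) (le_join_left _ _)⟩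

theorem not_const {f : Fn E} (hf : ConstT f) (c b : Rl E)
    (h : ∀ x : Rl E, Above b x → LeT x.1 (join (f.1 x).1 c.1)) : False := by
  obtain ⟨a, ha⟩ := hf
  -- `y` computes `a`, `b`, `c` and the constant value
  obtain ⟨y1, h1⟩ := exists_join a b
  obtain ⟨y2, h2⟩ := exists_join c (f.1 a)
  obtain ⟨y, h3⟩ := exists_join y1 y2
  obtain ⟨h4, h5⟩ := h3 y (LeT.rfl' _)
  obtain ⟨h6, h7⟩ := h1 y h4
  obtain ⟨h8, h9⟩ := h2 y h5
  have hy : LeT y.1 (jmp y).1 := le_jump_self _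
  have h10 := h (jmp y) (h7.trans hy)
  have h11 := (ha (jmp y) a (h6.trans hy) (LeT.rfl' _)).1
  exact not_jump_le y.1 (h10.trans (join_le (h11.trans h9) h8))

theorem mc1_iff (h : MCm E) : MC1 E ↔ PE E := by
  constructor
  · intro h1 f hf c ⟨b, hb⟩
    rcases h1 f hf with h2 | ⟨a, ha⟩
    · exact (not_const h2 c b hb).elim
    · obtain ⟨y, hy⟩ := exists_join a c
      exact ⟨y, fun x hx => (hy x hx).2.trans (ha x (hy x hx).1)⟩
  · intro h1 f hf
    rcases one_param h hf with h2 | ⟨c, hc⟩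
    · exact Or.inl h2
    · right
      obtain ⟨b, hb⟩ := h1 f hf c ⟨c, hc⟩
      obtain ⟨y, hy⟩ := exists_join b c
      exact ⟨y, fun x hx => (hc x (hy x hx).2).trans (join_le (LeT.rfl' _) (hb x (hy x hx).1))⟩

theorem sc_const {f : Fn E} (hf : ConstT f) : ∃ g : Fn E, UTInv g ∧ LeC f g ∧ LeC g f := by
  obtain ⟨a, ha⟩ := hf
  refine ⟨⟨fun _ => f.1 a, fn_iff.2 (DefF.const _)⟩, fun i j => ?_,
    ⟨a, fun x hx => (ha x a hx (LeT.rfl' _)).1⟩, ⟨a, fun x hx => (ha x a hx (LeT.rfl' _)).2⟩⟩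
  obtain ⟨d, hd⟩ := Pool.Agent.H869R3.FN.exists_id
  exact ⟨d, d, fun x y _ _ => ⟨hd _, hd _⟩⟩

theorem all_iff (hD : DC E) (hAD : AD E) (h : MCm E) (hS : SCm E) :
    (MC E ∧ SC E) ↔ MC1 E := by
  constructor
  · exact fun h1 => h1.1.one
  · intro h1
    refine ⟨⟨h1, mc2_of hD h⟩, fun f hf => ?_⟩
    rcases h1 f hf with h2 | h2
    · exact sc_const h2
    · exact sc_incr hD hAD hS hf h2

end

end Run7.h931
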