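import Pool.Agent.Run7.h931.U

/-!
Plays of games with integer moves.
-/

set_option autoImplicit false

namespace Run7.h931

open Encodable
open Nat.Partrec (Code)
open Pool.Agent.H639.LU Pool.Agent.H869R3.FN Pool.Agent.R616.DI
open Pool.Agent.Helper446 Pool.Agent.Helper446.Defs

/-- positions -/
def pos (nx : List ℕ → ℕ) : ℕ → List ℕ
  | 0 => []
  | m + 1 => pos nx m ++ [nx (pos nx m)]

/-- the play with next moves `nx` -/
def play (nx : List ℕ → ℕ) (m : ℕ) : ℕ := nx (pos nx m)

theorem pos_eq (nx : List ℕ → ℕ) (m : ℕ) : pos nx m = (List.range m).map (play nx) := by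
  induction m with
  | zero => rfl
  | succ m ih =>
    rw [List.range_succ, List.map_append, ← ih]
    rfl

theorem play_eq (nx : List ℕ → ℕ) (m : ℕ) : play nx m = nx ((List.range m).map (play nx)) := by
  rw [← pos_eq]
  rfl

theorem pos_length (nx : List ℕ → ℕ) (m : ℕ) : (pos nx m).length = m := by
  rw [pos_eq]
  simp

theorem pos_take (nx : List ℕ → ℕ) {i m : ℕ} (h : i ≤ m) : (pos nx m).take i = pos nx i := by
  rw [pos_eq, pos_eq, ← List.map_take, List.take_range, min_eq_left h]

theorem pos_get (nx : List ℕ → ℕ) {i m : ℕ} (h : i < m) : (pos nx m)[i]? = some (play nx i) := by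
  rw [pos_eq]
  simp [h]

theorem pos_unique {nx : List ℕ → ℕ} {l : List ℕ}
    (h : ∀ i < l.length, l[i]? = some (nx (l.take i))) : l = pos nx l.length := by
  have key : ∀ i ≤ l.length, l.take i = pos nx i := by
    intro i
    induction i with
    | zero => intro _; rfl
    | succ i ih =>
      intro hi
      have h1 := ih (by omega)
      have h2 := h i (by omega)
      have h3 : l[i]? = some l[i] := List.getElem?_eq_getElem (by omega)
      rw [h3] at h2
      have h4 := Option.some.inj h2
      rw [List.take_succ_eq_append_getElem (by omega), h1, h4, h1]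
      rfl
  have := key l.length le_rfl
  rwa [List.take_length] at this

/-- the graph of a play -/
theorem play_iff {nx : List ℕ → ℕ} {m v : ℕ} :
    play nx m = v ↔ ∃ l : List ℕ, l.length = m ∧
      (∀ i < l.length, ∃ v', l[i]? = some v' ∧ nx (l.take i) = v') ∧ nx l = v := by
  constructor
  · intro h
    refine ⟨pos nx m, pos_length nx m, fun i hi => ?_, h⟩
    rw [pos_length] at hi
    exact ⟨play nx i, pos_get nx hi, by rw [pos_take nx hi.le]; rfl⟩
  · rintro ⟨l, hl, h1, h2⟩
    have h3 : l = pos nx l.length := pos_unique fun i hi => by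
      obtain ⟨v', h4, h5⟩ := h1 i hi
      rw [h4, h5]
    rw [hl] at h3
    rw [← h2, h3]
    rfl

/-- if the graph of the next move is uniformly enumerable then so is the graph of the play -/
theorem UCE.play {α : Type} [Primcodable α] {N : (ℕ → Bool) → α × List ℕ × ℕ → Prop}
    (hN : UCE N) : ∃ P : (ℕ → Bool) → α × ℕ × ℕ → Prop, UCE P ∧
      ∀ (X : ℕ → Bool) (a : α) (nx : List ℕ → ℕ), (∀ l v, N X (a, l, v) ↔ nx l = v) →
        ∀ m v, P X (a, m, v) ↔ Run7.h931.play nx m = v := by
  refine ⟨fun X p => ∃ l : List ℕ, l.length = p.2.1 ∧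
    (∀ i < l.length, ∃ v', l[i]? = some v' ∧ N X (p.1, l.take i, v')) ∧ N X (p.1, l, p.2.2), ?_,
    fun X a nx h m v => ?_⟩
  · refine UCE.ex (S := fun X (p : α × ℕ × ℕ) (l : List ℕ) => l.length = p.2.1 ∧
      (∀ i < l.length, ∃ v', l[i]? = some v' ∧ N X (p.1, l.take i, v')) ∧ N X (p.1, l, p.2.2)) ?_
    refine UCE.and (UCE.of_re (RE.eq (by fun_prop) (by fun_prop))) (UCE.and ?_ ?_)
    · refine UCE.all_lt (S := fun X (p : (α × ℕ × ℕ) × List ℕ) (i : ℕ) =>
        ∃ v', p.2[i]? = some v' ∧ N X (p.1.1, p.2.take i, v')) ?_ (by fun_prop)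
      refine UCE.ex (S := fun X (p : ((α × ℕ × ℕ) × List ℕ) × ℕ) (v' : ℕ) =>
        p.1.2[p.2]? = some v' ∧ N X (p.1.1.1, p.1.2.take p.2, v')) (UCE.and ?_ ?_)
      · exact UCE.of_re (RE.eq (by fun_prop) (by fun_prop))
      · refine UCE.comp (f := fun p : (((α × ℕ × ℕ) × List ℕ) × ℕ) × ℕ =>
          (p.1.1.1.1, p.1.1.2.take p.1.2, p.2)) hN ?_
        have h1 : Computable fun p : (((α × ℕ × ℕ) × List ℕ) × ℕ) × ℕ => p.1.1.2.take p.1.2 :=
          Primrec.list_take.to_comp.comp (Computable.snd.comp Computable.fst)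
            (Computable.snd.comp (Computable.fst.comp Computable.fst))
        exact ((by fun_prop : Computable fun p : (((α × ℕ × ℕ) × List ℕ) × ℕ) × ℕ => p.1.1.1.1)).pair
          (h1.pair Computable.snd)
    · exact UCE.comp (f := fun p : (α × ℕ × ℕ) × List ℕ => (p.1.1, p.2, p.1.2.2)) hN (by fun_prop)
  · rw [play_iff]
    simp only [h]

/-! ### the second player follows a strategy -/

/-- next moves: player I plays `e` and the digits of `x`, player II follows `s` -/
def nx2 (s : ℕ → ℕ) (e : ℕ) (x : ℕ → Bool) (l : List ℕ) : ℕ :=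
  if l.length = 0 then e else if l.length % 2 = 1 then s (encode l) else
    (x (l.length / 2 - 1)).toNat

theorem play2_zero (s : ℕ → ℕ) (e : ℕ) (x : ℕ → Bool) : play (nx2 s e x) 0 = e := rfl

theorem play2_even (s : ℕ → ℕ) (e : ℕ) (x : ℕ → Bool) (n : ℕ) :
    play (nx2 s e x) (2 * n + 2) = (x n).toNat := by
  unfold play nx2
  rw [pos_length, if_neg (by omega), if_neg (by omega)]
  congr 2
  omega

theorem play2_odd (s : ℕ → ℕ) (e : ℕ) (x : ℕ → Bool) (n : ℕ) :
    play (nx2 s e x) (2 * n + 1) =
      s (encode ((List.range (2 * n + 1)).map (play (nx2 s e x)))) := by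
  conv_lhs => unfold play nx2
  rw [pos_length, if_neg (by omega), if_pos (by omega), pos_eq]
  rfl

/-- the first player follows a strategy, the second player plays the digits of `y` -/
def nx1 (s : ℕ → ℕ) (y : ℕ → Bool) (l : List ℕ) : ℕ :=
  if l.length % 2 = 0 then s (encode l) else (y (l.length / 2)).toNat

theorem play1_even (s : ℕ → ℕ) (y : ℕ → Bool) (n : ℕ) :
    play (nx1 s y) (2 * n) = s (encode ((List.range (2 * n)).map (play (nx1 s y)))) := by
  conv_lhs => unfold play nx1
  rw [pos_length, if_pos (by omega), pos_eq]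
  rfl

theorem play1_odd (s : ℕ → ℕ) (y : ℕ → Bool) (n : ℕ) :
    play (nx1 s y) (2 * n + 1) = (y n).toNat := by
  unfold play nx1
  rw [pos_length, if_neg (by omega)]
  congr 2
  omega

/-- the graph of a function as a real -/
def gr (s : ℕ → ℕ) (k : ℕ) : Bool := decide (s k.unpair.1 = k.unpair.2)

theorem gr_pair {s : ℕ → ℕ} {a b : ℕ} : gr s (Nat.pair a b) = true ↔ s a = b := by
  unfold gr
  rw [Nat.unpair_pair, decide_eq_true_iff]

theorem comp_mod2 {α : Type} [Primcodable α] {f : α → ℕ} (hf : Computable f) :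
    Computable fun a => f a % 2 :=
  (Primrec.nat_mod.comp Primrec.id (Primrec.const 2)).to_comp.comp hf

theorem comp_div2 {α : Type} [Primcodable α] {f : α → ℕ} (hf : Computable f) :
    Computable fun a => f a / 2 :=
  (Primrec.nat_div.comp Primrec.id (Primrec.const 2)).to_comp.comp hf

/-- the play of the second player's strategy is uniformly enumerable from `gr s ⊕ x` -/
theorem uce_play2 : ∃ P : (ℕ → Bool) → ℕ × ℕ × ℕ → Prop, UCE P ∧
    ∀ (s : ℕ → ℕ) (x : ℕ → Bool) (e m v : ℕ),
      P (join (gr s) x) (e, m, v) ↔ play (nx2 s e x) m = v := by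
  have hN : UCE (fun X (p : ℕ × List ℕ × ℕ) => (p.2.1.length = 0 ∧ p.2.2 = p.1) ∨
      (p.2.1.length ≠ 0 ∧ ((p.2.1.length % 2 = 1 ∧ X (2 * Nat.pair (encode p.2.1) p.2.2) = true) ∨
        (p.2.1.length % 2 = 0 ∧ ∃ b : Bool, X (2 * (p.2.1.length / 2 - 1) + 1) = b ∧
          p.2.2 = b.toNat)))) := by
    have hl : Computable fun p : ℕ × List ℕ × ℕ => p.2.1.length := by fun_prop
    have hp : Computable fun p : ℕ × List ℕ × ℕ => 2 * Nat.pair (encode p.2.1) p.2.2 := by
      fun_prop
    refine UCE.or (UCE.and (UCE.of_re (RE.eq hl (Computable.const 0)))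
      (UCE.of_re (RE.eq (by fun_prop) (by fun_prop)))) (UCE.and (UCE.of_re (RE.ne hl
        (Computable.const 0))) (UCE.or (UCE.and (UCE.of_re (RE.eq (comp_mod2 hl)
          (Computable.const 1))) (UCE.digit hp true)) (UCE.and (UCE.of_re (RE.eq (comp_mod2 hl)
            (Computable.const 0))) ?_)))
    have h2 : Computable fun p : ℕ × List ℕ × ℕ => 2 * (p.2.1.length / 2 - 1) + 1 := by
      have h3 := comp_div2 hl
      have h4 : Computable fun n : ℕ => 2 * (n - 1) + 1 := by fun_prop
      exact h4.comp h3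
    have h5 : ∀ b : Bool, UCE (fun X (p : ℕ × List ℕ × ℕ) =>
        X (2 * (p.2.1.length / 2 - 1) + 1) = b ∧ p.2.2 = b.toNat) := fun b =>
      UCE.and (UCE.digit h2 b) (UCE.of_re (RE.eq (by fun_prop) (Computable.const _)))
    refine ((h5 true).or (h5 false)).of_eq fun X p => ?_
    constructor
    · rintro (h | h)
      exacts [⟨true, h⟩, ⟨false, h⟩]
    · rintro ⟨b, h⟩
      cases b
      exacts [Or.inr h, Or.inl h]
  obtain ⟨P, hP, hP'⟩ := hN.play
  refine ⟨P, hP, fun s x e m v => hP' _ _ _ (fun l v => ?_) m v⟩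
  simp only
  have e1 : join (gr s) x (2 * Nat.pair (encode l) v) = true ↔ s (encode l) = v := by
    rw [← gr_pair (s := s)]
    unfold join
    rw [if_pos (by omega)]
    rw [Nat.mul_div_cancel_left _ (by norm_num)]
  have e2 : join (gr s) x (2 * (l.length / 2 - 1) + 1) = x (l.length / 2 - 1) := by
    unfold join
    rw [if_neg (by omega)]
    congr 1
    omega
  rw [e1, e2]
  unfold nx2
  by_cases h0 : l.length = 0
  · simp [h0, eq_comm]
  · rw [if_neg h0]
    by_cases h1 : l.length % 2 = 1
    · rw [if_pos h1]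
      simp [h0, h1]
    · rw [if_neg h1]
      have h2 : l.length % 2 = 0 := by omega
      simp [h0, h2, eq_comm]

/-- the play of the first player's strategy `s` against the real `y = (gr s ⊕ c) ⊕ w` is uniformly
enumerable from `y` -/
theorem uce_play1 : ∃ P : (ℕ → Bool) → ℕ × ℕ → Prop, UCE P ∧
    ∀ (s : ℕ → ℕ) (c w : ℕ → Bool) (m v : ℕ),
      P (join (join (gr s) c) w) (m, v) ↔ play (nx1 s (join (join (gr s) c) w)) m = v := by
  have hN : UCE (fun X (p : ℕ × List ℕ × ℕ) =>
      (p.2.1.length % 2 = 0 ∧ X (4 * Nat.pair (encode p.2.1) p.2.2) = true) ∨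
        (p.2.1.length % 2 = 1 ∧ ∃ b : Bool, X (p.2.1.length / 2) = b ∧
          p.2.2 = b.toNat)) := by
    have hl : Computable fun p : ℕ × List ℕ × ℕ => p.2.1.length := by fun_prop
    have hp : Computable fun p : ℕ × List ℕ × ℕ => 4 * Nat.pair (encode p.2.1) p.2.2 := by
      fun_prop
    refine UCE.or (UCE.and (UCE.of_re (RE.eq (comp_mod2 hl) (Computable.const 0)))
      (UCE.digit hp true)) (UCE.and (UCE.of_re (RE.eq (comp_mod2 hl) (Computable.const 1))) ?_)
    have h5 : ∀ b : Bool, UCE (fun X (p : ℕ × List ℕ × ℕ) =>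
        X (p.2.1.length / 2) = b ∧ p.2.2 = b.toNat) := fun b =>
      UCE.and (UCE.digit (comp_div2 hl) b) (UCE.of_re (RE.eq (by fun_prop) (Computable.const _)))
    refine ((h5 true).or (h5 false)).of_eq fun X p => ?_
    constructor
    · rintro (h | h)
      exacts [⟨true, h⟩, ⟨false, h⟩]
    · rintro ⟨b, h⟩
      cases b
      exacts [Or.inr h, Or.inl h]
  obtain ⟨P, hP, hP'⟩ := hN.play
  refine ⟨fun X p => P X (0, p.1, p.2), hP.comp (f := fun p : ℕ × ℕ => (0, p.1, p.2)) (by fun_prop),
    fun s c w m v => hP' _ _ _ (fun l v => ?_) m v⟩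
  simp only
  have e1 : join (join (gr s) c) w (4 * Nat.pair (encode l) v) = true ↔ s (encode l) = v := by
    rw [← gr_pair (s := s)]
    unfold join
    rw [if_pos (by omega), if_pos (by omega)]
    have : 4 * Nat.pair (encode l) v / 2 / 2 = Nat.pair (encode l) v := by omega
    rw [this]
  rw [e1]
  unfold nx1
  by_cases h1 : l.length % 2 = 0
  · rw [if_pos h1]
    simp [h1]
  · rw [if_neg h1]
    have h2 : l.length % 2 = 1 := by omega
    simp [h2, eq_comm]

/-- the recursion theorem, relative to an oracle -/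
theorem rec_thm {x : ℕ → Bool} {H : ℕ → Bool} (h : LeT H x) :
    ∃ c : Code, ByT c x (fun n => H (Nat.pair (encode c) n)) := by
  obtain ⟨d, hd⟩ := leT_iff.1 h
  have hf : Partrec₂ (fun (c : Code) (m : ℕ) => (Part.ofOption (decode (α := ℕ × Str) m)).bind
      fun a => d.eval (encode (Nat.pair (encode c) a.1, a.2))) := by
    refine Partrec.bind (Computable.ofOption (Computable.decode.comp Computable.snd)) ?_
    refine Nat.Partrec.Code.eval_part.comp (Computable.const d) (Computable.encode.comp ?_)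
    have h1 : Computable fun p : (Code × ℕ) × ℕ × Str => Nat.pair (encode p.1.1) p.2.1 :=
      (Primrec₂.natPair.to_comp).comp (Computable.encode.comp (Computable.fst.comp Computable.fst))
        (Computable.fst.comp Computable.snd)
    exact h1.pair (Computable.snd.comp Computable.snd)
  obtain ⟨c, hc⟩ := Nat.Partrec.Code.fixed_point₂ hf
  refine ⟨c, fun n v => ?_⟩
  have e1 : ∀ s, c.eval (encode (n, ini x s)) =
      d.eval (encode (Nat.pair (encode c) n, ini x s)) := by
    intro s
    rw [hc]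
    simp only [encodek]
    exact Part.bind_some _ _
  simp only [e1]
  exact hd _ v

end Run7.h931
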