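import Pool.Agent.Run7.h931.Srt

/-!
Power sorts, function sorts, the reals, dependent choice.
-/

set_option autoImplicit false

namespace Run7.h931

universe u

section

variable {M : Type u} {E : M → M → Prop} [hO : OM E]

theorem Def.set {T : Type} [Srt E T] {P : T → Prop} (h : Def E P) :
    ∃ c, ∀ x, E x c ↔ ∃ t, P t ∧ en E t = x := by
  obtain ⟨a, ha⟩ := h
  obtain ⟨c, hc⟩ := sep' E (P := fun x v => E x (v 0)) (Dfn.mem 0 1) (push a fun _ => a)
    (Srt.dom E T)
  refine ⟨c, fun x => ?_⟩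
  rw [hc, mem_dom' E]
  simp only [push]
  constructor
  · rintro ⟨⟨t, rfl⟩, h⟩
    exact ⟨t, (ha t).1 h, rfl⟩
  · rintro ⟨t, h, rfl⟩
    exact ⟨⟨t, rfl⟩, (ha t).2 h⟩

theorem def_iff_set {T : Type} [Srt E T] {P : T → Prop} :
    Def E P ↔ ∃ c, ∀ x, E x c ↔ ∃ t, P t ∧ en E t = x := by
  refine ⟨Def.set, ?_⟩
  rintro ⟨c, hc⟩
  refine ⟨c, fun t => ?_⟩
  rw [hc]
  constructor
  · rintro ⟨t', h, h'⟩
    rw [en_inj] at h'
    exact h' ▸ h
  · exact fun h => ⟨t, h, rfl⟩

variable (E) in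
/-- subsets of a sort which belong to `M` -/
def Pw (T : Type) [Srt E T] : Type := {P : T → Prop // Def E P}

noncomputable instance srtPw {T : Type} [Srt E T] : Srt E (Pw E T) where
  enc P := P.2.set.choose
  inj := by
    intro P Q h
    refine Subtype.ext (funext fun t => propext ?_)
    have h1 := P.2.set.choose_spec (en E t)
    have h2 := Q.2.set.choose_spec (en E t)
    simp only at h
    rw [h] at h1
    have h3 := h1.symm.trans h2
    constructor
    · intro hp
      obtain ⟨t', h4, h5⟩ := h3.1 ⟨t, hp, rfl⟩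
      rw [en_inj] at h5
      exact h5 ▸ h4
    · intro hp
      obtain ⟨t', h4, h5⟩ := h3.2 ⟨t, hp, rfl⟩
      rw [en_inj] at h5
      exact h5 ▸ h4
  dom := (hO.zf.power (Srt.dom E T)).choose
  mem_dom := by
    intro a
    rw [(hO.zf.power (Srt.dom E T)).choose_spec a]
    constructor
    · intro h
      have hD : Def E (fun t : T => E (en E t) a) := ⟨a, fun t => Iff.rfl⟩
      refine ⟨⟨fun t => E (en E t) a, hD⟩, ?_⟩
      refine ext' E fun x => ?_
      rw [hD.set.choose_spec x]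
      constructor
      · rintro ⟨t, ht, rfl⟩
        exact ht
      · intro hx
        obtain ⟨t, rfl⟩ := (Srt.mem_dom _).1 (h x hx)
        exact ⟨t, hx, rfl⟩
    · rintro ⟨P, rfl⟩ y hy
      obtain ⟨t, _, rfl⟩ := (P.2.set.choose_spec y).1 hy
      exact en_dom E t

theorem en_pw {T : Type} [Srt E T] (P : Pw E T) (x : M) :
    E x (en E P) ↔ ∃ t, P.1 t ∧ en E t = x := P.2.set.choose_spec x

theorem en_pw' {T : Type} [Srt E T] (P : Pw E T) (t : T) : E (en E t) (en E P) ↔ P.1 t := by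
  rw [en_pw P]
  constructor
  · rintro ⟨t', h, h'⟩
    rw [en_inj] at h'
    exact h' ▸ h
  · exact fun h => ⟨t, h, rfl⟩

theorem Def.mem_pw {T : Type} [Srt E T] : Def E (fun p : T × Pw E T => p.2.1 p.1) := by
  refine Def.of (Q := fun x _ => ∃ y, ∃ z, IsPair E x y z ∧ E y z) (fun _ => Srt.dom E T)
    (Dfn.ex (Dfn.ex ((Dfn.pair 2 1 0).and (Dfn.mem 1 0)))) fun p => ?_
  simp only [isPair_iff]
  constructor
  · intro h
    exact ⟨_, _, rfl, (en_pw' p.2 p.1).2 h⟩
  · rintro ⟨y, z, h1, h2⟩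
    rw [en_pair, mpair_inj] at h1
    rw [← h1.1, ← h1.2] at h2
    exact (en_pw' p.2 p.1).1 h2

theorem Def.mem_pw' {S T : Type} [Srt E S] [Srt E T] {f : S → T} {g : S → Pw E T}
    (hf : DefF E f) (hg : DefF E g) : Def E (fun s => (g s).1 (f s)) :=
  Def.comp (P := fun p : T × Pw E T => p.2.1 p.1) (g := fun s => (f s, g s)) Def.mem_pw
    (DefF.pair hf hg)

theorem Def.eq {S T : Type} [Srt E S] [Srt E T] {f g : S → T}
    (hf : DefF E f) (hg : DefF E g) : Def E (fun s => f s = g s) :=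
  Def.comp (P := fun p : T × T => p.1 = p.2) (g := fun s => (f s, g s)) DefF.id
    (DefF.pair hf hg)

/-- subsorts -/
@[reducible] noncomputable def srtSub {T : Type} [Srt E T] {P : T → Prop} (h : Def E P) :
    Srt E {t // P t} where
  enc t := en E t.1
  inj := fun s t h => Subtype.ext ((en_inj E).1 h)
  dom := h.set.choose
  mem_dom := by
    intro a
    rw [h.set.choose_spec]
    constructor
    · rintro ⟨t, ht, rfl⟩
      exact ⟨⟨t, ht⟩, rfl⟩
    · rintro ⟨t, rfl⟩
      exact ⟨t.1, t.2, rfl⟩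

/-- transport of sorts -/
@[reducible] noncomputable def srtEquiv {S T : Type} [Srt E T] (e : S ≃ T) : Srt E S where
  enc s := en E (e s)
  inj := fun s t h => e.injective ((en_inj E).1 h)
  dom := Srt.dom E T
  mem_dom := by
    intro a
    rw [mem_dom' E]
    constructor
    · rintro ⟨t, rfl⟩
      exact ⟨e.symm t, by simp⟩
    · rintro ⟨s, rfl⟩
      exact ⟨e s, rfl⟩

variable (E) in
/-- functions between sorts which belong to `M` -/
def FF (S : Type) (T : Type) [Srt E S] [Srt E T] : Type := {F : S → T // DefF E F}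

/-- functional relations -/
theorem def_functional {S T : Type} [Srt E S] [Srt E T] :
    Def E (fun R : Pw E (S × T) => ∀ s, ∃ t, R.1 (s, t) ∧ ∀ t', R.1 (s, t') → t' = t) := by
  refine Def.all (P := fun (R : Pw E (S × T)) (s : S) =>
    ∃ t, R.1 (s, t) ∧ ∀ t', R.1 (s, t') → t' = t) ?_
  refine Def.ex (P := fun (x : Pw E (S × T) × S) (t : T) =>
    x.1.1 (x.2, t) ∧ ∀ t', x.1.1 (x.2, t') → t' = t) ?_
  refine Def.and ?_ ?_
  · exact Def.mem_pw' (f := fun p : (Pw E (S × T) × S) × T => (p.1.2, p.2))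
      (g := fun p => p.1.1) ((DefF.comp DefF.snd DefF.fst).pair DefF.snd)
      (DefF.comp DefF.fst DefF.fst)
  · refine Def.all (P := fun (x : (Pw E (S × T) × S) × T) (t' : T) =>
      x.1.1.1 (x.1.2, t') → t' = x.2) ?_
    refine Def.imp ?_ ?_
    · exact Def.mem_pw' (f := fun p : ((Pw E (S × T) × S) × T) × T => (p.1.1.2, p.2))
        (g := fun p => p.1.1.1)
        ((DefF.comp DefF.snd (DefF.comp DefF.fst DefF.fst)).pair DefF.snd)
        (DefF.comp DefF.fst (DefF.comp DefF.fst DefF.fst))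
    · exact Def.eq (f := fun p : ((Pw E (S × T) × S) × T) × T => p.2) (g := fun p => p.1.2)
        DefF.snd (DefF.comp DefF.snd DefF.fst)

/-- functions are functional relations -/
noncomputable def ffEquiv (S : Type) (T : Type) [Srt E S] [Srt E T] :
    FF E S T ≃ {R : Pw E (S × T) // ∀ s, ∃ t, R.1 (s, t) ∧ ∀ t', R.1 (s, t') → t' = t} where
  toFun F := ⟨⟨fun p => F.1 p.1 = p.2, F.2⟩, fun s => ⟨F.1 s, rfl, fun _ h => h.symm⟩⟩
  invFun R := ⟨fun s => (R.2 s).choose, by
    refine R.1.2.congr fun p => ?_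
    have h := (R.2 p.1).choose_spec
    constructor
    · exact fun h' => (h.2 p.2 h').symm
    · intro (h' : (R.2 p.1).choose = p.2)
      have h1 := h.1
      rw [h'] at h1
      exact h1⟩
  left_inv F := by
    refine Subtype.ext (funext fun s => ?_)
    have h := (⟨F.1 s, rfl, fun _ h => h.symm⟩ : ∃ t, F.1 s = t ∧ ∀ t', F.1 s = t' → t' = t)
    exact h.choose_spec.1.symm
  right_inv R := by
    refine Subtype.ext (Subtype.ext (funext fun p => propext ?_))
    have h := (R.2 p.1).choose_spec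
    constructor
    · intro (h' : (R.2 p.1).choose = p.2)
      have h1 := h.1
      rw [h'] at h1
      exact h1
    · exact fun h' => (h.2 p.2 h').symm

noncomputable instance srtFF {S T : Type} [Srt E S] [Srt E T] : Srt E (FF E S T) :=
  letI := srtSub (E := E) (def_functional (E := E) (S := S) (T := T))
  srtEquiv (ffEquiv S T)

theorem en_ff {S T : Type} [Srt E S] [Srt E T] (F : FF E S T) (x : M) :
    E x (en E F) ↔ ∃ s, x = mpair E (en E s) (en E (F.1 s)) := by
  have h : E x (en E F) ↔ E x (en E (T := Pw E (S × T)) ⟨fun p => F.1 p.1 = p.2, F.2⟩) := Iff.rfl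
  refine h.trans ((en_pw (E := E) (T := S × T) ⟨fun p => F.1 p.1 = p.2, F.2⟩ x).trans ?_)
  constructor
  · rintro ⟨t, h1, rfl⟩
    exact ⟨t.1, by rw [en_pair, ← h1]⟩
  · rintro ⟨s, rfl⟩
    exact ⟨(s, F.1 s), rfl, rfl⟩

/-- evaluation -/
theorem DefF.eval {S T : Type} [Srt E S] [Srt E T] :
    DefF E (fun p : FF E S T × S => p.1.1 p.2) := by
  refine Def.of (Q := fun x _ => ∃ f, ∃ s, ∃ t, ∃ p, ∃ q, IsPair E x p t ∧ IsPair E p f s ∧
    IsPair E q s t ∧ E q f) (fun _ => Srt.dom E T)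
    (Dfn.ex (Dfn.ex (Dfn.ex (Dfn.ex (Dfn.ex ((Dfn.pair 5 1 2).and ((Dfn.pair 1 4 3).and
      ((Dfn.pair 0 3 2).and (Dfn.mem 0 4))))))))) fun p => ?_
  simp only [isPair_iff]
  constructor
  · intro h
    refine ⟨en E p.1.1, en E p.1.2, en E p.2, _, _, rfl, rfl, rfl, ?_⟩
    rw [en_ff p.1.1]
    exact ⟨p.1.2, by rw [h]⟩
  · rintro ⟨f, s, t, p', q, h1, rfl, rfl, h2⟩
    rw [en_pair, mpair_inj, en_pair, mpair_inj] at h1
    obtain ⟨⟨rfl, rfl⟩, rfl⟩ := h1
    rw [en_ff p.1.1] at h2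
    obtain ⟨s, hs⟩ := h2
    rw [mpair_inj, en_inj, en_inj] at hs
    rw [hs.2, hs.1]

theorem DefF.eval' {R S T : Type} [Srt E R] [Srt E S] [Srt E T]
    {F : R → FF E S T} {g : R → S} (hF : DefF E F) (hg : DefF E g) :
    DefF E (fun r => (F r).1 (g r)) :=
  DefF.comp (f := fun p : FF E S T × S => p.1.1 p.2) (g := fun r => (F r, g r)) DefF.eval
    (DefF.pair hF hg)

end

end Run7.h931
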