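import Pool.Agent.Run7.h931.Pow

/-!
The sorts of the reals, of Baire space and of the functions on the reals; dependent choice and
determinacy for sorts; recursion on the natural numbers.
-/

set_option autoImplicit false

namespace Run7.h931

open Encodable

universe u

section

variable {M : Type u} {E : M → M → Prop} [hO : OM E]

/-! ### reals -/

theorem realR_iff {a : M} {x : ℕ → Bool} :
    RealR E a x ↔ ∀ y, E y a ↔ ∃ n, x n = true ∧ en E n = y := by
  unfold RealR SetR
  simp only [num_en]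
  exact forall_congr' fun y => iff_congr Iff.rfl (exists_congr fun n =>
    and_congr_right fun _ => eq_comm)

theorem real_iff {x : ℕ → Bool} : (∃ a, RealR E a x) ↔ Def E (fun n => x n = true) := by
  rw [def_iff_set]
  exact exists_congr fun a => realR_iff

/-- reals are sets of natural numbers -/
noncomputable def rlEquiv : Rl E ≃ Pw E ℕ where
  toFun x := ⟨fun n => x.1 n = true, real_iff.1 x.2⟩
  invFun P := ⟨by classical exact fun n => decide (P.1 n), by
    rw [real_iff]
    exact P.2.congr fun n => by simp⟩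
  left_inv x := by
    refine Subtype.ext (funext fun n => ?_)
    simp
  right_inv P := by
    refine Subtype.ext (funext fun n => ?_)
    simp

noncomputable instance srtRl : Srt E (Rl E) := srtEquiv rlEquiv

theorem realR_en {a : M} {x : Rl E} : RealR E a x.1 ↔ a = en E x := by
  rw [realR_iff]
  have h : ∀ y, E y (en E x) ↔ ∃ n, x.1 n = true ∧ en E n = y :=
    fun y => en_pw (rlEquiv x) y
  constructor
  · intro h'
    exact ext' E fun y => (h' y).trans (h y).symm
  · rintro rfl
    exact h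

theorem DefF.rlEquiv : DefF E (fun x : Rl E => rlEquiv x) :=
  Def.congr (P := fun p : Rl E × Pw E ℕ => Run7.h931.rlEquiv p.1 = p.2)
    (by
      refine Def.of (Q := fun x _ => ∃ y, IsPair E x y y) (fun _ => Srt.dom E ℕ)
        (Dfn.ex (Dfn.pair 1 0 0)) fun p => ?_
      simp only [isPair_iff]
      have e : en E p = mpair E (en E (Run7.h931.rlEquiv p.1)) (en E p.2) := rfl
      constructor
      · intro h
        refine ⟨en E p.2, ?_⟩
        rw [e, h]
      · rintro ⟨y, hy⟩
        rw [e, mpair_inj] at hy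
        rw [← en_inj E, hy.1, hy.2]) fun _ => Iff.rfl

theorem DefF.rlSymm : DefF E (fun P : Pw E ℕ => Run7.h931.rlEquiv.symm P) := by
  have h : Def E (fun p : Pw E ℕ × Rl E => Run7.h931.rlEquiv p.2 = p.1) :=
    Def.eq (DefF.comp DefF.rlEquiv DefF.snd) DefF.fst
  refine h.congr fun p => ?_
  rw [← Equiv.eq_symm_apply]
  exact eq_comm

/-- membership in reals -/
theorem Def.real {S : Type} [Srt E S] {f : S → Rl E} {g : S → ℕ} (hf : DefF E f)
    (hg : DefF E g) : Def E (fun s => (f s).1 (g s) = true) :=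
  Def.mem_pw' (f := g) (g := fun s => rlEquiv (f s)) hg
    (DefF.comp (f := fun x : Rl E => Run7.h931.rlEquiv x) DefF.rlEquiv hf)

theorem Def.real' {S : Type} [Srt E S] {f : S → Rl E} {g : S → ℕ} (hf : DefF E f)
    (hg : DefF E g) (b : Bool) : Def E (fun s => (f s).1 (g s) = b) := by
  cases b with
  | true => exact Def.real hf hg
  | false =>
    refine (Def.real hf hg).not.congr fun s => ?_
    simp

/-- comprehension for reals -/
theorem DefF.compr {S : Type} [Srt E S] {f : S → Rl E}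
    (h : Def E (fun p : S × ℕ => (f p.1).1 p.2 = true)) : DefF E f := by
  have h1 : Def E (fun p : S × Rl E => ∀ n : ℕ, (f p.1).1 n = true ↔ p.2.1 n = true) := by
    refine Def.all (P := fun (p : S × Rl E) (n : ℕ) =>
      ((f p.1).1 n = true ↔ p.2.1 n = true)) (Def.iff ?_ ?_)
    · exact Def.comp (P := fun p : S × ℕ => (f p.1).1 p.2 = true)
        (g := fun p : (S × Rl E) × ℕ => (p.1.1, p.2)) h
        (DefF.pair (DefF.comp DefF.fst DefF.fst) DefF.snd)
    · exact Def.real (DefF.comp DefF.snd DefF.fst) DefF.snd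
  refine h1.congr fun p => ?_
  constructor
  · intro h2
    refine Subtype.ext (funext fun n => ?_)
    rw [Bool.eq_iff_iff]
    exact h2 n
  · intro (h2 : f p.1 = p.2) n
    rw [h2]

/-! ### functions -/

theorem funR_iff {S T : Type} [Srt E S] [Srt E T] {r : M → S → Prop} {r' : M → T → Prop}
    (h : ∀ a s, r a s ↔ a = en E s) (h' : ∀ a t, r' a t ↔ a = en E t) {f : M} {F : S → T} :
    FunR E r r' f F ↔ ∀ p, E p f ↔ ∃ s, p = mpair E (en E s) (en E (F s)) := by
  unfold FunR
  simp only [h, h', isPair_iff]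
  refine forall_congr' fun p => iff_congr Iff.rfl ?_
  constructor
  · rintro ⟨s, x, y, rfl, rfl, h⟩
    exact ⟨s, h⟩
  · rintro ⟨s, h⟩
    exact ⟨s, _, _, rfl, rfl, h⟩

theorem exists_funR_iff {S T : Type} [Srt E S] [Srt E T] {r : M → S → Prop} {r' : M → T → Prop}
    (h : ∀ a s, r a s ↔ a = en E s) (h' : ∀ a t, r' a t ↔ a = en E t) {F : S → T} :
    (∃ f, FunR E r r' f F) ↔ DefF E F := by
  simp only [funR_iff h h']
  unfold DefF
  rw [def_iff_set]
  refine exists_congr fun f => forall_congr' fun p => iff_congr Iff.rfl ?_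
  constructor
  · rintro ⟨s, rfl⟩
    exact ⟨(s, F s), rfl, rfl⟩
  · rintro ⟨⟨s, t⟩, h1, rfl⟩
    have h1 : F s = t := h1
    exact ⟨s, by rw [h1]; rfl⟩

theorem funR_en {S T : Type} [Srt E S] [Srt E T] {r : M → S → Prop} {r' : M → T → Prop}
    (h : ∀ a s, r a s ↔ a = en E s) (h' : ∀ a t, r' a t ↔ a = en E t) {f : M} {F : FF E S T} :
    FunR E r r' f F.1 ↔ f = en E F := by
  rw [funR_iff h h']
  constructor
  · intro h1
    exact ext' E fun y => (h1 y).trans (en_ff F y).symm
  · rintro rfl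
    exact en_ff F

theorem bai_iff {g : ℕ → ℕ} : (∃ f, BaiR E f g) ↔ DefF E g :=
  exists_funR_iff (fun _ _ => num_en E) (fun _ _ => num_en E)

/-- Baire space -/
noncomputable def baiEquiv : Bai E ≃ FF E ℕ ℕ :=
  Equiv.subtypeEquivRight fun _ => bai_iff

noncomputable instance srtBai : Srt E (Bai E) := srtEquiv baiEquiv

theorem baiR_en {a : M} {g : Bai E} : BaiR E a g.1 ↔ a = en E g :=
  funR_en (F := baiEquiv g) (fun _ _ => num_en E) (fun _ _ => num_en E)

theorem fn_iff {F : Rl E → Rl E} : (∃ f, FnR E f F) ↔ DefF E F :=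
  exists_funR_iff (fun _ _ => realR_en) (fun _ _ => realR_en)

/-- functions on the reals -/
noncomputable def fnEquiv : Fn E ≃ FF E (Rl E) (Rl E) :=
  Equiv.subtypeEquivRight fun _ => fn_iff

noncomputable instance srtFn : Srt E (Fn E) := srtEquiv fnEquiv

theorem fnR_en {a : M} {F : Fn E} : FnR E a F.1 ↔ a = en E F :=
  funR_en (F := fnEquiv F) (fun _ _ => realR_en) (fun _ _ => realR_en)

theorem DefF.equivOf {S T : Type} [Srt E T] (e : S ≃ T) :
    letI := srtEquiv (E := E) e
    DefF E (fun s : S => e s) := by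
  letI := srtEquiv (E := E) e
  refine Def.of (Q := fun x _ => ∃ y, IsPair E x y y) (fun _ => Srt.dom E T)
    (Dfn.ex (Dfn.pair 1 0 0)) fun p => ?_
  simp only [isPair_iff]
  have h1 : en E p = mpair E (en E (e p.1)) (en E p.2) := rfl
  constructor
  · intro h
    refine ⟨en E p.2, ?_⟩
    rw [h1, h]
  · rintro ⟨y, hy⟩
    rw [h1, mpair_inj] at hy
    rw [← en_inj E, hy.1, hy.2]

theorem DefF.baiEval {S : Type} [Srt E S] {F : S → Bai E} {g : S → ℕ} (hF : DefF E F)
    (hg : DefF E g) : DefF E (fun s => (F s).1 (g s)) :=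
  DefF.eval' (F := fun s => baiEquiv (F s)) (g := g)
    (DefF.comp (f := fun x : Bai E => baiEquiv x) (DefF.equivOf baiEquiv) hF) hg

theorem DefF.fnEval {S : Type} [Srt E S] {F : S → Fn E} {g : S → Rl E} (hF : DefF E F)
    (hg : DefF E g) : DefF E (fun s => (F s).1 (g s)) :=
  DefF.eval' (F := fun s => fnEquiv (F s)) (g := g)
    (DefF.comp (f := fun x : Fn E => fnEquiv x) (DefF.equivOf fnEquiv) hF) hg

/-! ### choice and determinacy -/

theorem dc_sort (h : DC E) {T : Type} [Srt E T] {D : T → Prop} {R : T → T → Prop}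
    (hD : Def E D) (hR : Def E (fun p : T × T => R p.1 p.2)) (h0 : ∃ t, D t)
    (h1 : ∀ s, D s → ∃ t, D t ∧ R s t) :
    ∃ g : ℕ → T, DefF E g ∧ ∀ n, D (g n) ∧ R (g n) (g (n + 1)) := by
  obtain ⟨A, hA⟩ := hD.set
  obtain ⟨r, hr⟩ := hR
  have hA' : ∀ t, E (en E t) A ↔ D t := by
    intro t
    rw [hA]
    constructor
    · rintro ⟨t', h, h'⟩
      rw [en_inj] at h'
      exact h' ▸ h
    · exact fun h => ⟨t, h, rfl⟩
  obtain ⟨f, g, hf, hg⟩ := h A r (by
    obtain ⟨t, ht⟩ := h0
    exact ⟨_, (hA' t).2 ht⟩) (by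
    intro a ha
    obtain ⟨s, hs, rfl⟩ := (hA a).1 ha
    obtain ⟨t, ht, ht'⟩ := h1 s hs
    exact ⟨_, (hA' t).2 ht, _, mpair_spec E _ _, (hr (s, t)).2 ht'⟩)
  have h2 : ∀ n, ∃ t : T, en E t = g n := by
    intro n
    obtain ⟨t, _, ht⟩ := (hA _).1 (hg n).1
    exact ⟨t, ht⟩
  choose g' hg' using h2
  refine ⟨g', ?_, fun n => ⟨?_, ?_⟩⟩
  · refine ⟨f, fun p => ?_⟩
    rw [hf]
    simp only [num_en, isPair_iff]
    constructor
    · rintro ⟨s, x, y, rfl, rfl, h⟩
      rw [← hg', en_pair, mpair_inj, en_inj, en_inj] at h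
      show g' p.1 = p.2
      rw [h.1, h.2]
    · intro (h : g' p.1 = p.2)
      exact ⟨p.1, _, _, rfl, rfl, by rw [en_pair, ← hg', h]⟩
  · rw [← hA', hg']
    exact (hg n).1
  · obtain ⟨p, hp, hp'⟩ := (hg n).2
    rw [isPair_iff, ← hg' n, ← hg' (n + 1)] at hp
    rw [hp] at hp'
    exact (hr (g' n, g' (n + 1))).1 hp'

theorem ad_sort (h : AD E) {A : Bai E → Prop} (hA : Def E A) :
    ∃ s : Bai E,
      (∀ z : Bai E, (∀ n, z.1 (2 * n) = s.1 (encode ((List.range (2 * n)).map z.1))) → A z) ∨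
      ∀ z : Bai E, (∀ n, z.1 (2 * n + 1) = s.1 (encode ((List.range (2 * n + 1)).map z.1))) →
        ¬ A z := by
  refine h A ?_
  obtain ⟨c, hc⟩ := hA.set
  refine ⟨c, fun x => ?_⟩
  rw [hc]
  simp only [baiR_en]
  exact exists_congr fun z => and_congr_right fun _ => eq_comm

/-! ### recursion -/

theorem DefF.compr_nat {S : Type} [Srt E S] {f : S → ℕ}
    (h : Def E (fun p : S × ℕ => f p.1 = p.2)) : DefF E f := h

theorem Def.succ : DefF E (fun n : ℕ => n + 1) := by
  refine Def.of (Q := fun x _ => ∃ a, ∃ b, IsPair E x a b ∧ ∀ z, E z b ↔ E z a ∨ z = a)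
    (fun _ => Srt.dom E ℕ)
    (Dfn.ex (Dfn.ex ((Dfn.pair 2 1 0).and (Dfn.all ((Dfn.mem 0 1).iff ((Dfn.mem 0 2).or
      (Dfn.eq 0 2))))))) fun p => ?_
  simp only [isPair_iff]
  have hs : ∀ n : ℕ, ∀ b : M, (∀ z, E z b ↔ E z (en E n) ∨ z = en E n) ↔ b = en E (n + 1) := by
    intro n b
    rw [← num_en]
    constructor
    · intro h
      exact ⟨_, (num_en E).2 rfl, h⟩
    · rintro ⟨c, hc, h⟩
      rw [num_en] at hc
      subst hc
      exact h
  constructor
  · intro h
    refine ⟨en E p.1, en E p.2, rfl, ?_⟩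
    rw [hs, ← h]
  · rintro ⟨a, b, h1, h2⟩
    rw [en_pair, mpair_inj] at h1
    rw [← h1.1, ← h1.2, hs, en_inj] at h2
    exact h2.symm

/-- a singleton -/
theorem Def.single {T : Type} [Srt E T] (t : T) : Def E (fun s => s = t) :=
  Def.eq DefF.id (DefF.const t)

/-- recursion on natural numbers -/
theorem DefF.rec {S T : Type} [Srt E S] [Srt E T] {f : S → T} {h : S × ℕ × T → T}
    (hf : DefF E f) (hh : DefF E h) :
    DefF E (fun p : S × ℕ => Nat.rec (motive := fun _ => T) (f p.1)
      (fun n t => h (p.1, n, t)) p.2) := by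
  set G : S → ℕ → T := fun s n => Nat.rec (motive := fun _ => T) (f s)
      (fun n t => h (s, n, t)) n with hG
  have hG0 : ∀ s, G s 0 = f s := fun _ => rfl
  have hG1 : ∀ s n, G s (n + 1) = h (s, n, G s n) := fun _ _ => rfl
  show Def E (fun p : (S × ℕ) × T => G p.1.1 p.1.2 = p.2)
  -- the closed sets
  let C : S → Pw E (ℕ × T) → Prop := fun s u => u.1 (0, f s) ∧ ∀ n : ℕ, ∀ t : T,
    u.1 (n, t) → u.1 (n + 1, h (s, n, t))
  have h1 : Def E (fun p : (S × ℕ) × T => ∀ u : Pw E (ℕ × T), C p.1.1 u → u.1 (p.1.2, p.2)) := by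
    refine Def.all (P := fun (p : (S × ℕ) × T) (u : Pw E (ℕ × T)) =>
      C p.1.1 u → u.1 (p.1.2, p.2)) (Def.imp (Def.and ?_ ?_) ?_)
    · refine Def.mem_pw' (f := fun p : ((S × ℕ) × T) × Pw E (ℕ × T) => (0, f p.1.1.1))
        (g := fun p => p.2) (DefF.pair (DefF.const 0) (DefF.comp hf ?_)) DefF.snd
      exact DefF.comp DefF.fst (DefF.comp DefF.fst DefF.fst)
    · refine Def.all (P := fun (p : ((S × ℕ) × T) × Pw E (ℕ × T)) (n : ℕ) =>
        ∀ t, p.2.1 (n, t) → p.2.1 (n + 1, h (p.1.1.1, n, t))) ?_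
      refine Def.all (P := fun (p : (((S × ℕ) × T) × Pw E (ℕ × T)) × ℕ) (t : T) =>
        p.1.2.1 (p.2, t) → p.1.2.1 (p.2 + 1, h (p.1.1.1.1, p.2, t))) (Def.imp ?_ ?_)
      · exact Def.mem_pw' (f := fun p : ((((S × ℕ) × T) × Pw E (ℕ × T)) × ℕ) × T => (p.1.2, p.2))
          (g := fun p => p.1.1.2) (DefF.pair (DefF.comp DefF.snd DefF.fst) DefF.snd)
          (DefF.comp DefF.snd (DefF.comp DefF.fst DefF.fst))
      · refine Def.mem_pw' (f := fun p : ((((S × ℕ) × T) × Pw E (ℕ × T)) × ℕ) × T =>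
          (p.1.2 + 1, h (p.1.1.1.1.1, p.1.2, p.2)))
          (g := fun p => p.1.1.2) (DefF.pair ?_ (DefF.comp hh (DefF.pair ?_ (DefF.pair ?_ ?_)))) ?_
        · exact DefF.comp Def.succ (DefF.comp DefF.snd DefF.fst)
        · exact DefF.comp DefF.fst (DefF.comp DefF.fst (DefF.comp DefF.fst (DefF.comp DefF.fst
            DefF.fst)))
        · exact DefF.comp DefF.snd DefF.fst
        · exact DefF.snd
        · exact DefF.comp DefF.snd (DefF.comp DefF.fst DefF.fst)
    · exact Def.mem_pw' (f := fun p : ((S × ℕ) × T) × Pw E (ℕ × T) => (p.1.1.2, p.1.2))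
        (g := fun p => p.2)
        (DefF.pair (DefF.comp DefF.snd (DefF.comp DefF.fst DefF.fst))
          (DefF.comp DefF.snd DefF.fst)) DefF.snd
  refine h1.congr fun p => ?_
  obtain ⟨⟨s, n⟩, t⟩ := p
  simp only
  constructor
  · intro h2
    -- a closed set which contains at `n` only the value
    have h3 : ∀ m : ℕ, Def E (fun q : ℕ × T => q.1 ≤ m → q.2 = G s q.1) := by
      intro m
      induction m with
      | zero =>
        have : Def E (fun q : ℕ × T => q.1 = 0 → q.2 = f s) :=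
          Def.imp (Def.eq DefF.fst (DefF.const 0)) (Def.eq DefF.snd (DefF.const (f s)))
        refine this.congr fun q => ?_
        constructor
        · intro h4 h5
          have : q.1 = 0 := by omega
          rw [h4 this, this, hG0]
        · intro h4 h5
          rw [h4 (by omega), h5, hG0]
      | succ m ih =>
        have h4 : Def E (fun q : ℕ × T => q.1 = m + 1 → q.2 = G s (m + 1)) :=
          Def.imp (Def.eq DefF.fst (DefF.const (m + 1))) (Def.eq DefF.snd (DefF.const (G s (m + 1))))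
        refine (ih.and h4).congr fun q => ?_
        constructor
        · rintro ⟨h5, h6⟩ h7
          rcases Nat.lt_or_ge m q.1 with h8 | h8
          · have : q.1 = m + 1 := by omega
            rw [h6 this, this]
          · exact h5 h8
        · intro h5
          exact ⟨fun h6 => h5 (by omega), fun h6 => by rw [h5 (by omega), h6]⟩
    have h4 := h2 ⟨fun q => q.1 ≤ n → q.2 = G s q.1, h3 n⟩ ⟨fun _ => rfl, fun m t h5 h6 => by
      have h7 : m ≤ n := by
        have : m + 1 ≤ n := h6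
        omega
      have h8 : t = G s m := h5 h7
      show h (s, m, t) = G s (m + 1)
      rw [h8, hG1]⟩
    exact (h4 le_rfl).symm
  · rintro rfl u ⟨h2, h3⟩
    induction n with
    | zero => exact h2
    | succ n ih => exact h3 n _ ih

end

end Run7.h931
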