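import Pool.Agent.Run7.h931.One

/-!
What is missing: the reduction of the question to functions `f` such that `f ⊕ c` is uniformly Turing
invariant.
-/

set_option autoImplicit false

namespace Run7.h931

open Nat.Partrec (Code)

universe u

section

variable {M : Type u} (E : M → M → Prop)

/-- `f` is a Turing invariant function of `M` and `c` a real of `M` such that `x ↦ f(x) ⊕ c` is
uniformly Turing invariant, and, for all reals `x` of `M`, `x ≤_T f(x) ⊕ c` but `c` is not computable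
from `f(x)`. -/
def Bad (f : Fn E) (c : Rl E) : Prop :=
  TInv f ∧ (∃ g : Fn E, UTInv g ∧ ∀ x : Rl E, (g.1 x).1 = join (f.1 x).1 c.1) ∧
    ∀ x : Rl E, LeT x.1 (join (f.1 x).1 c.1) ∧ ¬ LeT c.1 (f.1 x).1

end

section

variable {M : Type u} {E : M → M → Prop} [hO : OM E]

/-- Martin's cone theorem in the model -/
theorem cone_thm (hAD : AD E) {A : Rl E → Prop} (hA : Def E A)
    (inv : ∀ x y : Rl E, EqT x.1 y.1 → A x → A y) (cof : ∀ z, ∃ x, Above z x ∧ A x) :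
    ∃ c : Rl E, ∀ x, Above c x → A x := by
  obtain ⟨t, L, -, hLA, -, ⟨e, he⟩, d, hd⟩ := uniformize hAD hA cof
    ⟨fun _ => false, real_iff.2 ((Def.const (T := ℕ) False).congr fun n => by simp)⟩
  refine ⟨t, fun x hx => inv (L x) x ?_ (hLA x)⟩
  exact eq_of_above (fun w => ⟨leT_iff.2 ⟨d, hd w⟩, leT_iff.2 ⟨e, he w⟩⟩) hx

theorem utinv_shift {g : Fn E} (hg : UTInv g) (b : Rl E) :
    ∃ g' : Fn E, UTInv g' ∧ ∀ w, g'.1 w = g.1 (jn' b w) := by
  refine ⟨⟨fun w => g.1 (jn' b w), fn_iff.2 (DefF.comp (fn_iff.1 g.2)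
    (DefF.jn' (DefF.const b) DefF.id))⟩, fun i j => ?_, fun _ => rfl⟩
  obtain ⟨pl, hpl⟩ := byT_left
  obtain ⟨pr, hpr⟩ := byT_right
  have hL : ∀ i : Code, ∃ i' : Code, ∀ w w' : Rl E, ByT i w.1 w'.1 →
      ByT i' (jn' b w).1 (jn' b w').1 := by
    intro i
    obtain ⟨a1, h1⟩ := byT_comp pr i
    obtain ⟨a2, h2⟩ := byT_join pl a1
    exact ⟨a2, fun w w' hw => h2 _ _ _ (hpl _ _) (h1 _ _ _ (hpr _ _) hw)⟩
  obtain ⟨i', hi'⟩ := hL i
  obtain ⟨j', hj'⟩ := hL j
  obtain ⟨k, l, hkl⟩ := hg i' j'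
  exact ⟨k, l, fun x y h1 h2 => hkl _ _ (hi' x y h1) (hj' y x h2)⟩

theorem mc1_of_no_bad (hD : DC E) (hAD : AD E) (h : MCm E) (hS : SCm E)
    (hb : ¬ ∃ f c, Bad E f c) : MC1 E := by
  intro f hf
  rcases one_param h hf with h2 | ⟨c₀, hc₀⟩
  · exact Or.inl h2
  right
  obtain ⟨t, L, g, hL, hct, hLt, hg, hgL⟩ := sc_core hD hAD hS hf c₀
  -- it is enough that the values compute `t` on a cone
  by_cases hcone : ∃ b : Rl E, ∀ x, Above b x → LeT t.1 (f.1 x).1
  · obtain ⟨b, hb⟩ := hcone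
    obtain ⟨y, hy⟩ := exists_join b c₀
    exact ⟨y, fun x hx => (hc₀ x (hy x hx).2).trans
      (join_le (LeT.rfl' _) (hct.trans (hb x (hy x hx).1)))⟩
  exfalso
  have hA : Def E (fun x : Rl E => ¬ LeT t.1 (f.1 x).1) :=
    (Def.leT (x := fun _ => t) (y := fun x => f.1 x) (DefF.const t) (fn_iff.1 f.2)).not
  obtain ⟨b, hb'⟩ := cone_thm hAD hA
    (fun x y hxy hx hy => hx (hy.trans (hf x y hxy).2)) (by
      intro z
      by_contra hcon
      push Not at hcon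
      exact hcone ⟨z, hcon⟩)
  have hF : DefF E (fun w => f.1 (L (jn' b w))) :=
    DefF.comp (fn_iff.1 f.2) (DefF.comp hL (DefF.jn' (DefF.const b) DefF.id))
  obtain ⟨g', hg', hgg'⟩ := utinv_shift hg b
  have hLL : ∀ x y : Rl E, EqT x.1 y.1 → EqT (L (jn' b x)).1 (L (jn' b y)).1 := by
    have key : ∀ x y : Rl E, LeT x.1 y.1 → LeT (L (jn' b x)).1 (L (jn' b y)).1 := by
      intro x y hxy
      refine (hLt _).1.trans (LeT.trans ?_ (hLt _).2)
      refine join_le (le_join_left _ _) (LeT.trans ?_ (le_join_right _ _))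
      exact join_le (le_join_left _ _) (hxy.trans (le_join_right _ _))
    exact fun x y hxy => ⟨key x y hxy.1, key y x hxy.2⟩
  refine hb ⟨⟨fun w => f.1 (L (jn' b w)), fn_iff.2 hF⟩, t, ?_, ⟨g', hg', fun x => ?_⟩, fun x => ⟨?_, ?_⟩⟩
  · exact fun x y hxy => hf _ _ (hLL x y hxy)
  · rw [hgg', hgL]
    rfl
  · have e1 : LeT (jn' b x).1 (L (jn' b x)).1 := (le_join_right _ _).trans (hLt _).2
    have e2 : Above c₀ (L (jn' b x)) := hct.trans ((le_join_left _ _).trans (hLt _).2)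
    refine (le_join_right b.1 x.1).trans (e1.trans ((hc₀ _ e2).trans ?_))
    exact join_le (le_join_left _ _) (hct.trans (le_join_right _ _))
  · refine hb' _ ?_
    have e1 : LeT (jn' b x).1 (L (jn' b x)).1 := (le_join_right _ _).trans (hLt _).2
    exact (le_join_left _ _).trans e1

theorem no_bad_of_mc1 (h1 : MC1 E) : ¬ ∃ f c, Bad E f c := by
  rintro ⟨f, c, hf, -, hx⟩
  rcases h1 f hf with h2 | ⟨a, ha⟩
  · exact not_const h2 c c fun x _ => (hx x).1
  · obtain ⟨y, hy⟩ := exists_join a c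
    obtain ⟨h3, h4⟩ := hy y (LeT.rfl' _)
    exact (hx y).2 (h4.trans (ha y h3))

theorem all_iff_no_bad (hD : DC E) (hAD : AD E) (h : MCm E) (hS : SCm E) :
    (MC E ∧ SC E) ↔ ¬ ∃ f c, Bad E f c :=
  (all_iff hD hAD h hS).trans ⟨no_bad_of_mc1, mc1_of_no_bad hD hAD h hS⟩

end

end Run7.h931
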