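import Pool.Agent.Run7.h931.Base

/-!
Sorts: types whose elements are represented by the members of a set of the model. Definable
predicates and functions on sorts.
-/

set_option autoImplicit false

namespace Run7.h931

universe u

/-- `(M, E)` is an ω-model of ZF. -/
class OM {M : Type u} (E : M → M → Prop) : Prop where
  zf : IsZF E
  om : IsOmega E

/-- a type represented by a set of `M` -/
class Srt {M : Type u} (E : M → M → Prop) (T : Type) where
  enc : T → M
  inj : Function.Injective enc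
  dom : M
  mem_dom : ∀ a, E a dom ↔ ∃ t, enc t = a

section

variable {M : Type u} (E : M → M → Prop)

/-- the code of an object -/
abbrev en {T : Type} [Srt E T] (t : T) : M := Srt.enc (E := E) t

/-- the predicate is represented in `M` -/
def Def {T : Type} [Srt E T] (P : T → Prop) : Prop := ∃ a : M, ∀ t, E (en E t) a ↔ P t

theorem en_inj {T : Type} [Srt E T] {s t : T} : en E s = en E t ↔ s = t :=
  (Srt.inj (E := E) (T := T)).eq_iff

theorem en_dom {T : Type} [Srt E T] (t : T) : E (en E t) (Srt.dom E T) :=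
  (Srt.mem_dom (E := E) (T := T) _).2 ⟨t, rfl⟩

theorem mem_dom' {T : Type} [Srt E T] {a : M} : E a (Srt.dom E T) ↔ ∃ t : T, en E t = a :=
  Srt.mem_dom a

variable [hO : OM E]

/-- pairs in `M` -/
noncomputable def mpair (a b : M) : M := (exists_pair hO.zf a b).choose

theorem mpair_spec (a b : M) : IsPair E (mpair E a b) a b := (exists_pair hO.zf a b).choose_spec

theorem isPair_iff {p a b : M} : IsPair E p a b ↔ p = mpair E a b :=
  ⟨fun h => pair_unique hO.zf h (mpair_spec E a b), fun h => h ▸ mpair_spec E a b⟩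

theorem mpair_inj {a b a' b' : M} : mpair E a b = mpair E a' b' ↔ a = a' ∧ b = b' := by
  constructor
  · intro h
    exact pair_inj hO.zf (mpair_spec E a b) (h ▸ mpair_spec E a' b')
  · rintro ⟨rfl, rfl⟩
    rfl

noncomputable instance srtProd {S T : Type} [Srt E S] [Srt E T] : Srt E (S × T) where
  enc p := mpair E (en E p.1) (en E p.2)
  inj := by
    rintro ⟨a, b⟩ ⟨c, d⟩ h
    obtain ⟨h1, h2⟩ := (mpair_inj E).1 h
    rw [en_inj] at h1 h2
    exact Prod.ext h1 h2
  dom := (exists_prod hO.zf (Srt.dom E S) (Srt.dom E T)).choose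
  mem_dom := by
    intro p
    rw [(exists_prod hO.zf (Srt.dom E S) (Srt.dom E T)).choose_spec p]
    constructor
    · rintro ⟨a, b, ha, hb, h⟩
      obtain ⟨s, rfl⟩ := (Srt.mem_dom _).1 ha
      obtain ⟨t, rfl⟩ := (Srt.mem_dom _).1 hb
      exact ⟨(s, t), ((isPair_iff E).1 h).symm⟩
    · rintro ⟨⟨s, t⟩, rfl⟩
      exact ⟨_, _, en_dom E s, en_dom E t, mpair_spec E _ _⟩

theorem en_pair {S T : Type} [Srt E S] [Srt E T] (p : S × T) :
    en E p = mpair E (en E p.1) (en E p.2) := rfl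

/-- numerals -/
noncomputable def mnum (k : ℕ) : M := (exists_num hO.zf k).choose

theorem mnum_spec (k : ℕ) : Num E k (mnum E k) := (exists_num hO.zf k).choose_spec

theorem num_iff {k : ℕ} {a : M} : Num E k a ↔ a = mnum E k :=
  ⟨fun h => num_unique hO.zf h (mnum_spec E k), fun h => h ▸ mnum_spec E k⟩

noncomputable instance srtNat : Srt E ℕ where
  enc := mnum E
  inj := fun j k h => num_inj hO.zf (mnum_spec E j) (h ▸ mnum_spec E k)
  dom := (exists_omega hO.zf hO.om).choose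
  mem_dom := by
    intro a
    rw [(exists_omega hO.zf hO.om).choose_spec a]
    exact exists_congr fun k => (num_iff E).trans eq_comm

theorem num_en {k : ℕ} {a : M} : Num E k a ↔ a = en E k := num_iff E

theorem sep' {P : M → (ℕ → M) → Prop} (h : Dfn E (fun w => P (w 0) (fun n => w (n + 1))))
    (v : ℕ → M) (a : M) : ∃ c, ∀ x, E x c ↔ E x a ∧ P x v := sep hO.zf h v a

theorem ext' {a b : M} (h : ∀ x, E x a ↔ E x b) : a = b := hO.zf.extensionality a b h

variable {E}

theorem Def.congr {T : Type} [Srt E T] {P Q : T → Prop} (h : Def E P) (h' : ∀ t, P t ↔ Q t) :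
    Def E Q := by
  obtain ⟨a, ha⟩ := h
  exact ⟨a, fun t => (ha t).trans (h' t)⟩

/-- separation for sorts -/
theorem Def.of {T : Type} [Srt E T] {P : T → Prop} {Q : M → (ℕ → M) → Prop} (v : ℕ → M)
    (h : Dfn E (fun w => Q (w 0) (fun n => w (n + 1)))) (h' : ∀ t, P t ↔ Q (en E t) v) :
    Def E P := by
  obtain ⟨c, hc⟩ := sep' E h v (Srt.dom E T)
  refine ⟨c, fun t => ?_⟩
  rw [hc, h']
  exact and_iff_right (en_dom E t)

theorem Def.and {T : Type} [Srt E T] {P Q : T → Prop} (h : Def E P) (h' : Def E Q) :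
    Def E (fun t => P t ∧ Q t) := by
  obtain ⟨a, ha⟩ := h
  obtain ⟨b, hb⟩ := h'
  refine Def.of (Q := fun x v => E x (v 0) ∧ E x (v 1)) (push a (push b fun _ => a))
    ((Dfn.mem 0 1).and (Dfn.mem 0 2)) fun t => ?_
  simp only [push, ha, hb]

theorem Def.not {T : Type} [Srt E T] {P : T → Prop} (h : Def E P) :
    Def E (fun t => ¬ P t) := by
  obtain ⟨a, ha⟩ := h
  refine Def.of (Q := fun x v => ¬ E x (v 0)) (push a fun _ => a) (Dfn.mem 0 1).not fun t => ?_
  simp only [push, ha]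

theorem Def.or {T : Type} [Srt E T] {P Q : T → Prop} (h : Def E P) (h' : Def E Q) :
    Def E (fun t => P t ∨ Q t) :=
  (h.not.and h'.not).not.congr fun v => by tauto

theorem Def.imp {T : Type} [Srt E T] {P Q : T → Prop} (h : Def E P) (h' : Def E Q) :
    Def E (fun t => P t → Q t) :=
  (h.and h'.not).not.congr fun v => by tauto

theorem Def.iff {T : Type} [Srt E T] {P Q : T → Prop} (h : Def E P) (h' : Def E Q) :
    Def E (fun t => (P t ↔ Q t)) :=
  ((h.imp h').and (h'.imp h)).congr fun v => by tauto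

theorem Def.const {T : Type} [Srt E T] (p : Prop) : Def E (fun _ : T => p) := by
  by_cases hp : p
  · refine ⟨Srt.dom E T, fun t => ?_⟩
    simp only [hp, iff_true]
    exact en_dom E t
  · have h1 : Def E (fun _ : T => True) := by
      refine ⟨Srt.dom E T, fun t => ?_⟩
      simp only [iff_true]
      exact en_dom E t
    exact h1.not.congr fun t => by simp [hp]

theorem Def.ex {S T : Type} [Srt E S] [Srt E T] {P : T → S → Prop}
    (h : Def E (fun p : T × S => P p.1 p.2)) : Def E (fun t => ∃ s, P t s) := by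
  obtain ⟨a, ha⟩ := h
  refine Def.of (Q := fun x v => ∃ y, E y (v 0) ∧ ∃ p, IsPair E p x y ∧ E p (v 1))
    (push (Srt.dom E S) (push a fun _ => a))
    (Dfn.ex ((Dfn.mem 0 2).and (Dfn.ex ((Dfn.pair 0 2 1).and (Dfn.mem 0 4))))) fun t => ?_
  simp only [push, isPair_iff]
  constructor
  · rintro ⟨s, hs⟩
    exact ⟨en E s, en_dom E s, _, rfl, (ha (t, s)).2 hs⟩
  · rintro ⟨y, hy, p, rfl, hp⟩
    obtain ⟨s, rfl⟩ := (Srt.mem_dom _).1 hy
    exact ⟨s, (ha (t, s)).1 hp⟩

theorem Def.all {S T : Type} [Srt E S] [Srt E T] {P : T → S → Prop}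
    (h : Def E (fun p : T × S => P p.1 p.2)) : Def E (fun t => ∀ s, P t s) := by
  have h1 : Def E (fun t => ∃ s, ¬ P t s) := Def.ex (P := fun t s => ¬ P t s) h.not
  refine h1.not.congr fun t => ?_
  push Not
  exact Iff.rfl

/-- the function has a graph in `M` -/
def DefF (E : M → M → Prop) [OM E] {S T : Type} [Srt E S] [Srt E T] (g : S → T) :
    Prop := Def E (fun p : S × T => g p.1 = p.2)

theorem DefF.congr {S T : Type} [Srt E S] [Srt E T] {g g' : S → T} (h : DefF E g)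
    (h' : ∀ s, g s = g' s) : DefF E g' := by
  have : g = g' := funext h'
  rw [← this]
  exact h

theorem Def.comp {S T : Type} [Srt E S] [Srt E T] {P : T → Prop} {g : S → T}
    (h : Def E P) (hg : DefF E g) : Def E (fun s => P (g s)) := by
  obtain ⟨a, ha⟩ := h
  obtain ⟨b, hb⟩ := hg
  refine Def.of (Q := fun x v => ∃ y, E y (v 0) ∧ ∃ p, IsPair E p x y ∧ E p (v 1) ∧ E y (v 2))
    (push (Srt.dom E T) (push b (push a fun _ => a)))
    (Dfn.ex ((Dfn.mem 0 2).and (Dfn.ex ((Dfn.pair 0 2 1).and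
      ((Dfn.mem 0 4).and (Dfn.mem 1 5)))))) fun s => ?_
  simp only [push, isPair_iff]
  constructor
  · intro hs
    exact ⟨en E (g s), en_dom E _, _, rfl, (hb (s, g s)).2 rfl, (ha _).2 hs⟩
  · rintro ⟨y, hy, p, rfl, hp, hy'⟩
    obtain ⟨t, rfl⟩ := (Srt.mem_dom _).1 hy
    have h1 := (hb (s, t)).1 hp
    simp only at h1
    rw [h1]
    exact (ha _).1 hy'

theorem DefF.id {T : Type} [Srt E T] : DefF E (fun t : T => t) := by
  refine Def.of (Q := fun x v => ∃ y, IsPair E x y y) (fun _ => Srt.dom E T)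
    (Dfn.ex (Dfn.pair 1 0 0)) fun p => ?_
  simp only [isPair_iff]
  constructor
  · intro h
    refine ⟨en E p.1, ?_⟩
    rw [en_pair, ← h]
  · rintro ⟨y, hy⟩
    rw [en_pair, mpair_inj] at hy
    rw [← en_inj E, hy.1, hy.2]

theorem DefF.fst {S T : Type} [Srt E S] [Srt E T] :
    DefF E (fun p : S × T => p.1) := by
  refine Def.of (Q := fun x v => ∃ y, ∃ z, ∃ p, IsPair E p y z ∧ IsPair E x p y)
    (fun _ => Srt.dom E T) (Dfn.ex (Dfn.ex (Dfn.ex ((Dfn.pair 0 2 1).and (Dfn.pair 3 0 2)))))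
    fun p => ?_
  simp only [isPair_iff]
  constructor
  · intro h
    refine ⟨en E p.1.1, en E p.1.2, _, rfl, ?_⟩
    rw [en_pair, ← h, en_pair]
  · rintro ⟨y, z, q, rfl, hy⟩
    rw [en_pair, mpair_inj, en_pair, mpair_inj] at hy
    rw [← en_inj E, hy.1.1, hy.2]

theorem DefF.snd {S T : Type} [Srt E S] [Srt E T] :
    DefF E (fun p : S × T => p.2) := by
  refine Def.of (Q := fun x v => ∃ y, ∃ z, ∃ p, IsPair E p y z ∧ IsPair E x p z)
    (fun _ => Srt.dom E T) (Dfn.ex (Dfn.ex (Dfn.ex ((Dfn.pair 0 2 1).and (Dfn.pair 3 0 1)))))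
    fun p => ?_
  simp only [isPair_iff]
  constructor
  · intro h
    refine ⟨en E p.1.1, en E p.1.2, _, rfl, ?_⟩
    rw [en_pair, ← h, en_pair]
  · rintro ⟨y, z, q, rfl, hy⟩
    rw [en_pair, mpair_inj, en_pair, mpair_inj] at hy
    rw [← en_inj E, hy.1.2, hy.2]

theorem DefF.const {S T : Type} [Srt E S] [Srt E T] (t : T) :
    DefF E (fun _ : S => t) := by
  refine Def.of (Q := fun x v => ∃ y, IsPair E x y (v 0))
    (push (en E t) fun _ => Srt.dom E T) (Dfn.ex (Dfn.pair 1 0 2))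
    fun p => ?_
  simp only [isPair_iff, push]
  constructor
  · intro h
    refine ⟨en E p.1, ?_⟩
    rw [en_pair, ← h]
  · rintro ⟨y, hy⟩
    rw [en_pair, mpair_inj] at hy
    rw [← en_inj E, hy.2]

theorem DefF.comp {R S T : Type} [Srt E R] [Srt E S] [Srt E T] {f : S → T}
    {g : R → S} (hf : DefF E f) (hg : DefF E g) : DefF E (fun r => f (g r)) := by
  obtain ⟨a, ha⟩ := hf
  obtain ⟨b, hb⟩ := hg
  refine Def.of (Q := fun x v => ∃ r, ∃ s, ∃ t, ∃ p, ∃ q, E s (v 2) ∧ IsPair E x r t ∧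
      IsPair E p r s ∧ IsPair E q s t ∧ E p (v 1) ∧ E q (v 0))
    (push a (push b (push (Srt.dom E S) fun _ => a)))
    (Dfn.ex (Dfn.ex (Dfn.ex (Dfn.ex (Dfn.ex ((Dfn.mem 3 8).and ((Dfn.pair 5 4 2).and
      ((Dfn.pair 1 4 3).and ((Dfn.pair 0 3 2).and ((Dfn.mem 1 7).and (Dfn.mem 0 6))))))))))) fun p => ?_
  simp only [push, isPair_iff]
  constructor
  · intro h
    refine ⟨en E p.1, en E (g p.1), en E p.2, _, _, en_dom E _, rfl, rfl, rfl,
      (hb (p.1, g p.1)).2 rfl, (ha (g p.1, p.2)).2 h⟩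
  · rintro ⟨r, s, t, p', q, hs, h1, rfl, rfl, h2, h3⟩
    obtain ⟨s, rfl⟩ := (Srt.mem_dom _).1 hs
    rw [en_pair, mpair_inj] at h1
    rw [← h1.1] at h2
    rw [← h1.2] at h3
    have h4 := (hb (p.1, s)).1 h2
    have h5 := (ha (s, p.2)).1 h3
    simp only at h4 h5
    rw [h4, h5]

theorem DefF.pair {R S T : Type} [Srt E R] [Srt E S] [Srt E T] {f : R → S}
    {g : R → T} (hf : DefF E f) (hg : DefF E g) : DefF E (fun r => (f r, g r)) := by
  obtain ⟨a, ha⟩ := hf
  obtain ⟨b, hb⟩ := hg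
  refine Def.of (Q := fun x v => ∃ r, ∃ s, ∃ t, ∃ y, ∃ p, ∃ q, IsPair E x r y ∧ IsPair E y s t ∧
      IsPair E p r s ∧ IsPair E q r t ∧ E p (v 0) ∧ E q (v 1))
    (push a (push b fun _ => a))
    (Dfn.ex (Dfn.ex (Dfn.ex (Dfn.ex (Dfn.ex (Dfn.ex ((Dfn.pair 6 5 2).and ((Dfn.pair 2 4 3).and
      ((Dfn.pair 1 5 4).and ((Dfn.pair 0 5 3).and ((Dfn.mem 1 7).and (Dfn.mem 0 8))))))))))))
    fun p => ?_
  simp only [push, isPair_iff]
  constructor
  · intro h
    refine ⟨en E p.1, en E (f p.1), en E (g p.1), en E p.2, _, _, rfl, ?_, rfl, rfl,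
      (ha (p.1, f p.1)).2 rfl, (hb (p.1, g p.1)).2 rfl⟩
    rw [← h]
    rfl
  · rintro ⟨r, s, t, y, p', q, h1, h2, rfl, rfl, h3, h4⟩
    rw [en_pair, mpair_inj] at h1
    obtain ⟨h1, h5⟩ := h1
    rw [← h1] at h3 h4
    rw [← h5, en_pair, mpair_inj] at h2
    rw [← h2.1] at h3
    rw [← h2.2] at h4
    have h6 := (ha (p.1, p.2.1)).1 h3
    have h7 := (hb (p.1, p.2.2)).1 h4
    simp only at h6 h7
    rw [h6, h7]

end

end Run7.h931
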