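import Pool.Agent.Run7.h931.Game

/-!
SC_m implies Steel's conjecture with a parameter.
-/

set_option autoImplicit false

namespace Run7.h931

open Encodable
open Nat.Partrec (Code)
open Pool.Agent.H639.LU Pool.Agent.H869R3.FN Pool.Agent.R616.DI
open Pool.Agent.Helper446 Pool.Agent.Helper446.Defs

universe u

/-- a uniformly enumerable predicate is many-one reducible to the jump, uniformly -/
theorem UCE.idx {S : (ℕ → Bool) → ℕ → Prop} (h : UCE S) :
    ∃ f : ℕ → ℕ, Computable f ∧ ∀ X n, S X n ↔ jump X (f n) = true := by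
  obtain ⟨R, hR, -, h⟩ := h
  obtain ⟨c, hc⟩ := code_re hR
  refine ⟨fun n => Nat.pair (encode c) n,
    (Primrec₂.natPair.comp (Primrec.const _) Primrec.id).to_comp, fun X n => ?_⟩
  rw [jump_code, h]
  exact exists_congr fun s => (hc (n, seg X s)).symm

/-- the index `i` gives a many-one reduction of `x` to `y` computable from `c` -/
def MV (i : ℕ) (c x y : ℕ → Bool) : Prop :=
  (∀ n, ∃ m, jump c (Nat.pair i (Nat.pair n m)) = true) ∧
    ∀ n m, jump c (Nat.pair i (Nat.pair n m)) = true → x n = y m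

theorem exists_mv {c x y : ℕ → Bool} (h : LeMC c x y) : ∃ i, MV i c x y := by
  obtain ⟨ρ, hρ, h⟩ := h
  rw [orc_eq, Pool.Agent.Helper446.Oracle.turingReducible_fun_iff] at hρ
  have h1 : CE c (fun k => ρ k.unpair.1 = k.unpair.2) :=
    hρ.comp (f := fun k : ℕ => (k.unpair.1, k.unpair.2)) (by fun_prop)
  obtain ⟨R, hR, h2⟩ := (K2 ℕ c _).1 h1
  obtain ⟨r, hr⟩ := code_re hR
  have h3 : ∀ n m, jump c (Nat.pair (encode r) (Nat.pair n m)) = true ↔ ρ n = m := by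
    intro n m
    rw [jump_code]
    have h4 := h2 (Nat.pair n m)
    rw [Nat.unpair_pair] at h4
    rw [h4]
    exact exists_congr fun s => (hr (Nat.pair n m, seg c s))
  refine ⟨encode r, fun n => ⟨ρ n, (h3 n _).2 rfl⟩, fun n m hm => ?_⟩
  rw [h, (h3 n m).1 hm]

section

variable {M : Type u} {E : M → M → Prop} [hO : OM E]

theorem Def.mv {S : Type} [Srt E S] {i : S → ℕ} {c x y : S → Rl E} (hi : DefF E i)
    (hc : DefF E c) (hx : DefF E x) (hy : DefF E y) :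
    Def E (fun s => MV (i s) (c s).1 (x s).1 (y s).1) := by
  unfold MV
  refine Def.and ?_ ?_
  · refine Def.all (P := fun (s : S) (n : ℕ) => ∃ m, jump (c s).1 (Nat.pair (i s) (Nat.pair n m)) =
      true) ?_
    refine Def.ex (P := fun (p : S × ℕ) (m : ℕ) =>
      jump (c p.1).1 (Nat.pair (i p.1) (Nat.pair p.2 m)) = true) ?_
    have e1 : DefF E (fun q : (S × ℕ) × ℕ => q.1.1) := DefF.comp DefF.fst DefF.fst
    have e2 : DefF E (fun q : (S × ℕ) × ℕ => q.1.2) := DefF.comp DefF.snd DefF.fst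
    exact Def.real (f := fun q : (S × ℕ) × ℕ => jmp (c q.1.1)) (DefF.jmp (DefF.comp hc e1))
      (DefF.pairN (DefF.comp hi e1) (DefF.pairN e2 DefF.snd))
  · refine Def.all (P := fun (s : S) (n : ℕ) => ∀ m, jump (c s).1 (Nat.pair (i s) (Nat.pair n m)) =
      true → (x s).1 n = (y s).1 m) ?_
    refine Def.all (P := fun (p : S × ℕ) (m : ℕ) =>
      jump (c p.1).1 (Nat.pair (i p.1) (Nat.pair p.2 m)) = true →
        (x p.1).1 p.2 = (y p.1).1 m) ?_
    have e1 : DefF E (fun q : (S × ℕ) × ℕ => q.1.1) := DefF.comp DefF.fst DefF.fst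
    have e2 : DefF E (fun q : (S × ℕ) × ℕ => q.1.2) := DefF.comp DefF.snd DefF.fst
    refine Def.imp ?_ ?_
    · exact Def.real (f := fun q : (S × ℕ) × ℕ => jmp (c q.1.1)) (DefF.jmp (DefF.comp hc e1))
        (DefF.pairN (DefF.comp hi e1) (DefF.pairN e2 DefF.snd))
    · refine ((Def.real (DefF.comp hx e1) e2).iff (Def.real (DefF.comp hy e1) DefF.snd)).congr
        fun q => ?_
      exact Bool.eq_iff_iff.symm

/-- countable choice for bounds -/
theorem choose_bound (hD : DC E) {P : ℕ → Rl E → Prop}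
    (hP : Def E (fun p : ℕ × Rl E => P p.1 p.2))
    (mono : ∀ k z z', Above z z' → P k z → P k z') (h : ∀ k, ∃ z, P k z) :
    ∃ z, ∀ k, P k z := by
  have hstep : DefF E (fun p : ℕ × Rl E => p.1 + 1) := DefF.comp Def.succ DefF.fst
  obtain ⟨g, hg, hg'⟩ := dc_sort hD (T := ℕ × Rl E) (D := fun p => P p.1 p.2)
    (R := fun p q => q.1 = p.1 + 1) hP
    (Def.eq (f := fun p : (ℕ × Rl E) × (ℕ × Rl E) => p.2.1) (g := fun p => p.1.1 + 1)
      (DefF.comp DefF.fst DefF.snd)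
      (DefF.comp (f := fun p : ℕ × Rl E => p.1 + 1) hstep DefF.fst))
    (by
      obtain ⟨z, hz⟩ := h 0
      exact ⟨(0, z), hz⟩)
    (by
      rintro ⟨k, z⟩ _
      obtain ⟨z', hz'⟩ := h (k + 1)
      exact ⟨(k + 1, z'), hz', rfl⟩)
  -- the members of the sequence
  have h1 : ∀ n, (g n).1 = (g 0).1 + n := by
    intro n
    induction n with
    | zero => rfl
    | succ n ih =>
      rw [(hg' n).2, ih]
      omega
  have hZ : Def E (fun k : ℕ => (g k.unpair.1).2.1 k.unpair.2 = true) :=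
    Def.real (f := fun k : ℕ => (g k.unpair.1).2)
      (DefF.comp DefF.snd (DefF.comp hg (DefF.leftN DefF.id))) (DefF.rightN DefF.id)
  let Z : Rl E := ⟨fun k => (g k.unpair.1).2.1 k.unpair.2, real_iff.2 hZ⟩
  have h2 : ∀ n, Above (g n).2 Z := by
    intro n
    refine leT_of_comp (f := fun m => Nat.pair n m)
      (Primrec₂.natPair.comp (Primrec.const _) Primrec.id).to_comp fun m => ?_
    show _ = (g (Nat.pair n m).unpair.1).2.1 (Nat.pair n m).unpair.2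
    rw [Nat.unpair_pair]
  -- finitely many
  have h3 : ∀ K, ∃ z, ∀ k < K, P k z := by
    intro K
    induction K with
    | zero => exact ⟨Z, fun k hk => absurd hk (Nat.not_lt_zero _)⟩
    | succ K ih =>
      obtain ⟨z, hz⟩ := ih
      obtain ⟨z', hz'⟩ := h K
      obtain ⟨y, hy⟩ := exists_join z z'
      have h4 := hy y (LeT.rfl' _)
      refine ⟨y, fun k hk => ?_⟩
      rcases Nat.lt_or_ge k K with h5 | h5
      · exact mono _ _ _ h4.1 (hz k h5)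
      · have : k = K := by omega
        subst this
        exact mono _ _ _ h4.2 hz'
  obtain ⟨z, hz⟩ := h3 (g 0).1
  obtain ⟨y, hy⟩ := exists_join z Z
  have h4 := hy y (LeT.rfl' _)
  refine ⟨y, fun k => ?_⟩
  rcases Nat.lt_or_ge k (g 0).1 with h5 | h5
  · exact mono _ _ _ h4.1 (hz k h5)
  · obtain ⟨n, rfl⟩ : ∃ n, k = (g 0).1 + n := ⟨k - (g 0).1, by omega⟩
    rw [← h1 n]
    exact mono _ _ _ ((h2 n).trans h4.2) (hg' n).1

/-- the common parameter of a many-one equivalence on a cone -/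
theorem common {f g : Fn E} (h1 : LeN f g) (h2 : LeN g f) :
    ∃ c b : Rl E, ∀ x, Above b x → LeMC c.1 (f.1 x).1 (g.1 x).1 ∧ LeMC c.1 (g.1 x).1 (f.1 x).1 := by
  obtain ⟨c, hc⟩ := h1
  obtain ⟨d, hd⟩ := h2
  have key : ∀ {a b x y : ℕ → Bool}, LeT a b → LeMC a x y → LeMC b x y := by
    rintro a b x y h ⟨ρ, hρ, h'⟩
    exact ⟨ρ, hρ.trans h, h'⟩
  refine ⟨jn' c d, jn' c d, fun x hx => ⟨?_, ?_⟩⟩
  · exact key (le_join_left _ _) (hc x ((le_join_left _ _).trans hx))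
  · exact key (le_join_right _ _) (hd x ((le_join_right _ _).trans hx))

theorem half {f g : Fn E} {c t : Rl E} {L : Rl E → Rl E} {i1 i2 : ℕ} (hg : UTMInv g)
    (hK : ∀ w, MV i1 c.1 (jump (f.1 (L w)).1) (g.1 (L w)).1 ∧
      MV i2 c.1 (g.1 (L w)).1 (jump (f.1 (L w)).1))
    {p e d : Code} (hp : ByT p t.1 c.1) (he : ∀ w, ByT e (L w).1 (join t.1 w.1))
    (hd : ∀ w, ByT d (join t.1 w.1) (L w).1) (i j : Code) :
    ∃ k : Code, ∀ w w' : Rl E, ByT i w.1 w'.1 → ByT j w'.1 w.1 →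
      ByT k (join (f.1 (L w)).1 t.1) (join (f.1 (L w')).1 t.1) := by
  obtain ⟨pl, hpl⟩ := byT_left
  obtain ⟨pr, hpr⟩ := byT_right
  -- programs between `L w` and `L w'`
  have hL : ∀ i : Code, ∃ i' : Code, ∀ w w' : Rl E, ByT i w.1 w'.1 →
      ByT i' (L w).1 (L w').1 := by
    intro i
    obtain ⟨a1, h1⟩ := byT_comp pr i
    obtain ⟨a2, h2⟩ := byT_join pl a1
    obtain ⟨a3, h3⟩ := byT_comp e a2
    obtain ⟨a4, h4⟩ := byT_comp a3 d
    refine ⟨a4, fun w w' hw => h4 _ _ _ (h3 _ _ _ (he w) (h2 _ _ _ (hpl _ _)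
      (h1 _ _ _ (hpr _ _) hw))) (hd w')⟩
  obtain ⟨i', hi'⟩ := hL i
  obtain ⟨j', hj'⟩ := hL j
  obtain ⟨k, l, hkl⟩ := hg i' j'
  -- programs for `c` and `f (L w)`
  obtain ⟨pc, hpc⟩ := byT_comp pr p
  have hj : ∀ a : ℕ, UCE (fun X (q : ℕ × ℕ) => jump X (Nat.pair a (Nat.pair q.1 q.2)) = true) := by
    intro a
    refine UCE.ofJump ?_
    exact (Primrec₂.natPair.comp (Primrec.const _) (Primrec₂.natPair.comp Primrec.fst
      Primrec.snd)).to_comp
  obtain ⟨S1, hS1, hS1'⟩ := (hj i1).subst pc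
  obtain ⟨S2, hS2, hS2'⟩ := (hj i2).subst pc
  obtain ⟨S3, hS3, hS3'⟩ := (UCE.ofJump (α := ℕ) (f := fun n => n) Computable.id).subst pl
  have ha : ∀ b : Bool, ∃ a : ℕ → ℕ, Computable a ∧ ∀ X n, X n = b ↔ jump X (a n) = true :=
    fun b => (UCE.digit (α := ℕ) (f := fun n => n) Computable.id b).idx
  choose a ha ha' using ha
  have hre : REPred (fun q : ℕ × ℕ => q.2 ∈ l.eval q.1) := by
    have h1 : REPred (fun q : ℕ × ℕ => ∃ k : ℕ, Nat.Partrec.Code.evaln k l q.1 = some q.2) := by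
      refine RE.ex (p := fun (q : ℕ × ℕ) (k : ℕ) => Nat.Partrec.Code.evaln k l q.1 = some q.2) ?_
      refine RE.eq ?_ (Computable.option_some.comp (by fun_prop))
      exact Nat.Partrec.Code.primrec_evaln.to_comp.comp
        (f := fun a : (ℕ × Code) × ℕ => Nat.Partrec.Code.evaln a.1.1 a.1.2 a.2)
        (g := fun x : (ℕ × ℕ) × ℕ => ((x.2, l), x.1.1)) (by fun_prop)
    have h2 : (fun q : ℕ × ℕ => q.2 ∈ l.eval q.1) =
        (fun q : ℕ × ℕ => ∃ k : ℕ, Nat.Partrec.Code.evaln k l q.1 = some q.2) := by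
      funext q
      exact propext Nat.Partrec.Code.evaln_complete
    rw [h2]
    exact h1
  have hQ : ∀ b : Bool, UCE (fun Z (n : ℕ) => ∃ m : ℕ × ℕ × ℕ, S1 Z (a b n, m.1) ∧
      m.2.1 ∈ l.eval m.1 ∧ S2 Z (m.2.1, m.2.2) ∧ S3 Z m.2.2) := by
    intro b
    refine UCE.ex (S := fun Z (n : ℕ) (m : ℕ × ℕ × ℕ) => S1 Z (a b n, m.1) ∧
      m.2.1 ∈ l.eval m.1 ∧ S2 Z (m.2.1, m.2.2) ∧ S3 Z m.2.2) ?_
    refine UCE.and (hS1.comp (f := fun q : ℕ × ℕ × ℕ × ℕ => (a b q.1, q.2.1)) ?_)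
      (UCE.and (UCE.of_re (RE.comp hre (f := fun q : ℕ × ℕ × ℕ × ℕ => (q.2.1, q.2.2.1))
        (by fun_prop))) (UCE.and (hS2.comp (f := fun q : ℕ × ℕ × ℕ × ℕ => (q.2.2.1, q.2.2.2))
          (by fun_prop)) (hS3.comp (f := fun q : ℕ × ℕ × ℕ × ℕ => q.2.2.2) (by fun_prop))))
    exact ((ha b).comp Computable.fst).pair (by fun_prop)
  obtain ⟨q, hq⟩ := exists_byT hQ
  obtain ⟨r, hr⟩ := byT_join q pr
  refine ⟨r, fun w w' h1 h2 => hr _ _ _ (hq _ _ fun b n => ?_) (hpr _ _)⟩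
  obtain ⟨-, hl⟩ := hkl (L w) (L w') (hi' w w' h1) (hj' w' w h2)
  have e1 : ∀ n m, S1 (join (f.1 (L w)).1 t.1) (n, m) ↔
      jump c.1 (Nat.pair i1 (Nat.pair n m)) = true := fun n m =>
    hS1' _ _ (hpc _ _ _ (hpr _ _) hp) (n, m)
  have e2 : ∀ n m, S2 (join (f.1 (L w)).1 t.1) (n, m) ↔
      jump c.1 (Nat.pair i2 (Nat.pair n m)) = true := fun n m =>
    hS2' _ _ (hpc _ _ _ (hpr _ _) hp) (n, m)
  have e3 : ∀ n, S3 (join (f.1 (L w)).1 t.1) n ↔ jump (f.1 (L w)).1 n = true := fun n =>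
    hS3' _ _ (hpl _ _) n
  simp only [e1, e2, e3]
  have hl' : ∀ m v, v ∈ l.eval m → (g.1 (L w')).1 m = (g.1 (L w)).1 v := by
    intro m v hv
    obtain ⟨v', h3, h4⟩ := hl m
    rw [Part.mem_unique hv h3]
    exact h4
  rw [ha' b]
  obtain ⟨h3, h4⟩ := (hK w').1
  obtain ⟨h5, h6⟩ := (hK w).2
  constructor
  · rintro ⟨⟨m1, m2, m3⟩, h7, h8, h9, h10⟩
    simp only at h7 h8 h9 h10
    rw [h4 _ _ h7, hl' _ _ h8, h6 _ _ h9, h10]
  · intro h7
    obtain ⟨m1, hm1⟩ := h3 (a b n)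
    obtain ⟨m2, hm2, -⟩ := hl m1
    obtain ⟨m3, hm3⟩ := h5 m2
    refine ⟨(m1, m2, m3), hm1, hm2, hm3, ?_⟩
    simp only
    rw [← h6 _ _ hm3, ← hl' _ _ hm2, ← h4 _ _ hm1, h7]

/-- the uniformization of `f`: above any real `c₀` there are `t` and `L` such that `L w` is Turing
equivalent to `t ⊕ w` and `w ↦ f(L w) ⊕ t` is uniformly Turing invariant -/
theorem sc_core (hD : DC E) (hAD : AD E) (hS : SCm E) {f : Fn E} (hf : TInv f) (c₀ : Rl E) :
    ∃ (t : Rl E) (L : Rl E → Rl E) (g : Fn E), DefF E L ∧ Above c₀ t ∧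
      (∀ w, EqT (L w).1 (join t.1 w.1)) ∧ UTInv g ∧ ∀ w, g.1 w = jn' (f.1 (L w)) t := by
  obtain ⟨g, hg, h1, h2⟩ := hS (jf f) (jf_tminv hf)
  obtain ⟨c', b, hcb'⟩ := common h1 h2
  -- enlarge the parameter
  let c : Rl E := jn' c' c₀
  have key : ∀ {a b x y : ℕ → Bool}, LeT a b → LeMC a x y → LeMC b x y := by
    rintro a b x y h ⟨ρ, hρ, h'⟩
    exact ⟨ρ, hρ.trans h, h'⟩
  have hcb : ∀ x, Above b x → LeMC c.1 ((jf f).1 x).1 (g.1 x).1 ∧
      LeMC c.1 (g.1 x).1 ((jf f).1 x).1 := fun x hx =>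
    ⟨key (le_join_left _ _) (hcb' x hx).1, key (le_join_left _ _) (hcb' x hx).2⟩
  -- the pieces
  let K : ℕ → Rl E → Prop := fun k x => MV k.unpair.1 c.1 ((jf f).1 x).1 (g.1 x).1 ∧
    MV k.unpair.2 c.1 (g.1 x).1 ((jf f).1 x).1
  have hKd : Def E (fun p : ℕ × Rl E => K p.1 p.2) := by
    have e1 : DefF E (fun p : ℕ × Rl E => (jf f).1 p.2) :=
      DefF.comp (fn_iff.1 (jf f).2) DefF.snd
    have e2 : DefF E (fun p : ℕ × Rl E => g.1 p.2) := DefF.comp (fn_iff.1 g.2) DefF.snd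
    exact Def.and (Def.mv (DefF.leftN DefF.fst) (DefF.const c) e1 e2)
      (Def.mv (DefF.rightN DefF.fst) (DefF.const c) e2 e1)
  have hcov : ∀ x, Above b x → ∃ k, K k x := by
    intro x hx
    obtain ⟨i1, h3⟩ := exists_mv (hcb x hx).1
    obtain ⟨i2, h4⟩ := exists_mv (hcb x hx).2
    exact ⟨Nat.pair i1 i2, by simpa [K] using ⟨h3, h4⟩⟩
  have hcof : ∃ k, ∀ z, ∃ x, Above z x ∧ K k x := by
    by_contra hcon
    push Not at hcon
    have hPd : Def E (fun p : ℕ × Rl E => ∀ x, Above p.2 x → ¬ K p.1 x) := by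
      refine Def.all (P := fun (p : ℕ × Rl E) (x : Rl E) => Above p.2 x → ¬ K p.1 x)
        (Def.imp ?_ ?_)
      · exact Def.leT (DefF.comp DefF.snd DefF.fst) DefF.snd
      · exact (Def.comp (P := fun p : ℕ × Rl E => K p.1 p.2)
          (g := fun p : (ℕ × Rl E) × Rl E => (p.1.1, p.2)) hKd
          (DefF.pair (DefF.comp DefF.fst DefF.fst) DefF.snd)).not
    obtain ⟨z, hz⟩ := choose_bound hD (P := fun k z => ∀ x, Above z x → ¬ K k x) hPd
      (fun k z z' h h' x hx => h' x (h.trans hx)) hcon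
    obtain ⟨y, hy⟩ := exists_join b z
    have h3 := hy y (LeT.rfl' _)
    obtain ⟨k, hk⟩ := hcov y h3.1
    exact hz k y h3.2 hk
  obtain ⟨k, hk⟩ := hcof
  have hKd' : Def E (K k) := Def.comp (P := fun p : ℕ × Rl E => K p.1 p.2)
    (g := fun x : Rl E => (k, x)) hKd (DefF.pair (DefF.const k) DefF.id)
  obtain ⟨t, L, hL, hLK, ⟨p, hp⟩, ⟨e, he⟩, d, hd⟩ := uniformize hAD hKd' hk c
  have hF : DefF E (fun w => jn' (f.1 (L w)) t) :=
    DefF.jn' (DefF.comp (fn_iff.1 f.2) hL) (DefF.const t)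
  refine ⟨t, L, ⟨fun w => jn' (f.1 (L w)) t, fn_iff.2 hF⟩, hL,
    (le_join_right _ _).trans (leT_iff.2 ⟨p, hp⟩),
    fun w => ⟨leT_iff.2 ⟨d, hd w⟩, leT_iff.2 ⟨e, he w⟩⟩, ?_, fun _ => rfl⟩
  intro i j
  obtain ⟨a, ha⟩ := half hg hLK hp he hd i j
  obtain ⟨a', ha'⟩ := half hg hLK hp he hd j i
  exact ⟨a, a', fun x y h3 h4 => ⟨ha x y h3 h4, ha' y x h4 h3⟩⟩

theorem eq_of_above {t : Rl E} {L : Rl E → Rl E} (hL : ∀ w, EqT (L w).1 (join t.1 w.1)) {x : Rl E}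
    (hx : Above t x) : EqT (L x).1 x.1 :=
  ⟨(hL x).1.trans (join_le hx (LeT.rfl' _)), (le_join_right _ _).trans (hL x).2⟩

/-- Steel's conjecture with a parameter -/
theorem sc_param (hD : DC E) (hAD : AD E) (hS : SCm E) {f : Fn E} (hf : TInv f) :
    ∃ (t : Rl E) (g : Fn E), UTInv g ∧
      ∀ x, Above t x → EqT (g.1 x).1 (join (f.1 x).1 t.1) := by
  obtain ⟨t, L, g, -, -, hL, hg, hgL⟩ := sc_core hD hAD hS hf
    ⟨fun _ => false, real_iff.2 ((Def.const (T := ℕ) False).congr fun n => by simp)⟩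
  refine ⟨t, g, hg, fun x hx => ?_⟩
  have h4 := hf (L x) x (eq_of_above hL hx)
  rw [hgL]
  constructor
  · exact join_le (h4.1.trans (le_join_left _ _)) (le_join_right _ _)
  · exact join_le (h4.2.trans (le_join_left _ _)) (le_join_right _ _)

/-- Steel's conjecture for increasing functions -/
theorem sc_incr (hD : DC E) (hAD : AD E) (hS : SCm E) {f : Fn E} (hf : TInv f) (hi : Incr f) :
    ∃ g : Fn E, UTInv g ∧ LeC f g ∧ LeC g f := by
  obtain ⟨t, g, hg, h⟩ := sc_param hD hAD hS hf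
  obtain ⟨b, hb⟩ := hi
  obtain ⟨y, hy⟩ := exists_join b t
  refine ⟨g, hg, ⟨y, fun x hx => ?_⟩, ⟨y, fun x hx => ?_⟩⟩
  · exact (le_join_left _ _).trans (h x (hy x hx).2).2
  · refine (h x (hy x hx).2).1.trans (join_le (LeT.rfl' _) ?_)
    exact (hy x hx).2.trans (hb x (hy x hx).1)

end

end Run7.h931
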