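import Pool.Agent.Run7.h931.TR

/-!
Uniform relative enumerability.
-/

set_option autoImplicit false

namespace Run7.h931

open Encodable
open Nat.Partrec (Code)
open Pool.Agent.H639.LU Pool.Agent.H869R3.FN Pool.Agent.R616.DI
open Pool.Agent.Helper446 Pool.Agent.Helper446.Defs

section

variable {α β : Type} [Primcodable α] [Primcodable β]

/-- `S X a` is computably enumerable in `X`, uniformly in `X` -/
def UCE (S : (ℕ → Bool) → α → Prop) : Prop :=
  ∃ R : α × Str → Prop, REPred R ∧ (∀ a σ τ, σ <+: τ → R (a, σ) → R (a, τ)) ∧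
    ∀ X a, S X a ↔ ∃ s, R (a, seg X s)

theorem seg_mono (X : ℕ → Bool) {s t : ℕ} (h : s ≤ t) : seg X s <+: seg X t := G2_seg_le X h

theorem seg_take' (X : ℕ → Bool) (s i : ℕ) : (seg X s).take i = seg X (min i s) := by
  unfold seg
  rw [← List.map_take, List.take_range]

theorem UCE.mk' {S : (ℕ → Bool) → α → Prop} (R : α × Str → Prop) (hR : REPred R)
    (h : ∀ X a, S X a ↔ ∃ s, R (a, seg X s)) : UCE S := by
  refine ⟨fun p => ∃ i : ℕ, R (p.1, p.2.take i), ?_, ?_, fun X a => ?_⟩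
  · refine RE.ex (p := fun (p : α × Str) (i : ℕ) => R (p.1, p.2.take i)) ?_
    exact RE.comp hR (f := fun y : (α × Str) × ℕ => (y.1.1, y.1.2.take y.2))
      ((Computable.fst.comp Computable.fst).pair
        (Primrec.list_take.to_comp.comp Computable.snd (Computable.snd.comp Computable.fst)))
  · rintro a σ τ hστ ⟨i, hi⟩
    refine ⟨min i σ.length, ?_⟩
    obtain ⟨ρ, rfl⟩ := hστ
    simp only at hi ⊢
    rw [List.take_append_of_le_length (by omega)]
    have : σ.take (min i σ.length) = σ.take i := by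
      rcases le_total i σ.length with h1 | h1
      · rw [min_eq_left h1]
      · rw [min_eq_right h1, List.take_of_length_le h1, List.take_length]
    rw [this]
    exact hi
  · rw [h]
    constructor
    · rintro ⟨s, hs⟩
      refine ⟨s, s, ?_⟩
      simp only
      rw [seg_take', min_self]
      exact hs
    · rintro ⟨s, i, hi⟩
      simp only at hi
      rw [seg_take'] at hi
      exact ⟨_, hi⟩

theorem UCE.of_eq {S T : (ℕ → Bool) → α → Prop} (h : UCE S) (h' : ∀ X a, S X a ↔ T X a) :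
    UCE T := by
  obtain ⟨R, h1, h2, h3⟩ := h
  exact ⟨R, h1, h2, fun X a => (h' X a).symm.trans (h3 X a)⟩

theorem UCE.of_re {S : α → Prop} (h : REPred S) : UCE (fun _ a => S a) :=
  ⟨fun p => S p.1, RE.comp h Computable.fst, fun _ _ _ _ h => h,
    fun X a => ⟨fun h => ⟨0, h⟩, fun ⟨_, h⟩ => h⟩⟩

theorem UCE.comp {S : (ℕ → Bool) → β → Prop} (h : UCE S) {f : α → β} (hf : Computable f) :
    UCE (fun X a => S X (f a)) := by
  obtain ⟨R, h1, h2, h3⟩ := h
  exact ⟨fun p => R (f p.1, p.2), RE.comp h1 (f := fun p : α × Str => (f p.1, p.2))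
    ((hf.comp Computable.fst).pair Computable.snd), fun a σ τ h h' => h2 _ _ _ h h',
    fun X a => h3 X (f a)⟩

theorem UCE.and {S T : (ℕ → Bool) → α → Prop} (hS : UCE S) (hT : UCE T) :
    UCE (fun X a => S X a ∧ T X a) := by
  obtain ⟨R, h1, h2, h3⟩ := hS
  obtain ⟨R', h1', h2', h3'⟩ := hT
  refine ⟨fun p => R p ∧ R' p, RE.and h1 h1', fun a σ τ h h' => ⟨h2 _ _ _ h h'.1, h2' _ _ _ h h'.2⟩,
    fun X a => ?_⟩
  show (S X a ∧ T X a) ↔ _
  rw [h3, h3']
  constructor
  · rintro ⟨⟨s, hs⟩, t, ht⟩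
    exact ⟨max s t, h2 _ _ _ (seg_mono X (le_max_left _ _)) hs,
      h2' _ _ _ (seg_mono X (le_max_right _ _)) ht⟩
  · rintro ⟨s, hs, ht⟩
    exact ⟨⟨s, hs⟩, s, ht⟩

theorem UCE.or {S T : (ℕ → Bool) → α → Prop} (hS : UCE S) (hT : UCE T) :
    UCE (fun X a => S X a ∨ T X a) := by
  obtain ⟨R, h1, h2, h3⟩ := hS
  obtain ⟨R', h1', h2', h3'⟩ := hT
  refine ⟨fun p => R p ∨ R' p, RE.or h1 h1', fun a σ τ h h' => h'.imp (h2 _ _ _ h) (h2' _ _ _ h),
    fun X a => ?_⟩
  show (S X a ∨ T X a) ↔ _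
  rw [h3, h3', ← exists_or]

theorem UCE.ex {S : (ℕ → Bool) → α → β → Prop} (hS : UCE (fun X (p : α × β) => S X p.1 p.2)) :
    UCE (fun X a => ∃ b, S X a b) := by
  obtain ⟨R, h1, h2, h3⟩ := hS
  refine ⟨fun p => ∃ b, R ((p.1, b), p.2), ?_, fun a σ τ h h' => ?_, fun X a => ?_⟩
  · refine RE.ex (p := fun (p : α × Str) (b : β) => R ((p.1, b), p.2)) ?_
    exact RE.comp h1 (f := fun y : (α × Str) × β => ((y.1.1, y.2), y.1.2)) (by fun_prop)
  · obtain ⟨b, hb⟩ := h'
    exact ⟨b, h2 _ _ _ h hb⟩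
  · constructor
    · rintro ⟨b, hb⟩
      obtain ⟨s, hs⟩ := (h3 X (a, b)).1 hb
      exact ⟨s, b, hs⟩
    · rintro ⟨s, b, hs⟩
      exact ⟨b, (h3 X (a, b)).2 ⟨s, hs⟩⟩

theorem UCE.all_lt {S : (ℕ → Bool) → α → ℕ → Prop}
    (hS : UCE (fun X (p : α × ℕ) => S X p.1 p.2)) {f : α → ℕ} (hf : Computable f) :
    UCE (fun X a => ∀ i < f a, S X a i) := by
  obtain ⟨R, h1, h2, h3⟩ := hS
  refine ⟨fun p => ∀ i < f p.1, R ((p.1, i), p.2), ?_, fun a σ τ h h' i hi => h2 _ _ _ h (h' i hi),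
    fun X a => ?_⟩
  · refine RE.all_lt (p := fun (p : α × Str) (i : ℕ) => R ((p.1, i), p.2)) ?_
      (f := fun p => f p.1) (hf.comp Computable.fst)
    exact RE.comp h1 (f := fun y : (α × Str) × ℕ => ((y.1.1, y.2), y.1.2)) (by fun_prop)
  · constructor
    · intro h
      have h4 : ∀ i, ∃ s, i < f a → R ((a, i), seg X s) := by
        intro i
        by_cases hi : i < f a
        · obtain ⟨s, hs⟩ := (h3 X (a, i)).1 (h i hi)
          exact ⟨s, fun _ => hs⟩
        · exact ⟨0, fun h => absurd h hi⟩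
      choose s hs using h4
      refine ⟨(Finset.range (f a)).sup s, fun i hi => ?_⟩
      exact h2 _ _ _ (seg_mono X (Finset.le_sup (f := s) (Finset.mem_range.2 hi))) (hs i hi)
    · rintro ⟨s, hs⟩ i hi
      exact (h3 X (a, i)).2 ⟨s, hs i hi⟩

theorem UCE.digit {f : α → ℕ} (hf : Computable f) (b : Bool) : UCE (fun X a => X (f a) = b) := by
  refine ⟨fun p => p.2[f p.1]? = some b, ?_, fun a σ τ h h' => ?_, fun X a => ?_⟩
  · exact RE.eq (Computable.list_getElem?.comp Computable.snd (hf.comp Computable.fst))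
      (Computable.const _)
  · obtain ⟨ρ, rfl⟩ := h
    simp only at h' ⊢
    have : f a < σ.length := by
      by_contra hc
      rw [List.getElem?_eq_none (by omega)] at h'
      cases h'
    rw [List.getElem?_append_left this]
    exact h'
  · simp only [seg_get]
    constructor
    · intro h
      exact ⟨f a + 1, by rw [if_pos (by omega), h]⟩
    · rintro ⟨s, hs⟩
      split_ifs at hs
      exact Option.some.inj hs

/-- the outputs of programs -/
theorem UCE.eval : UCE (fun X (p : Code × ℕ × ℕ) =>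
    ∃ s, p.2.2 ∈ p.1.eval (encode (p.2.1, seg X s))) := by
  refine UCE.mk' (fun p => p.1.2.2 ∈ p.1.1.eval (encode (p.1.2.1, p.2))) ?_ fun X a => Iff.rfl
  have h1 : REPred (fun p : (Code × ℕ × ℕ) × Str => ∃ k : ℕ, Nat.Partrec.Code.evaln k p.1.1
      (encode (p.1.2.1, p.2)) = some p.1.2.2) := by
    refine RE.ex (p := fun (p : (Code × ℕ × ℕ) × Str) (k : ℕ) => Nat.Partrec.Code.evaln k p.1.1
      (encode (p.1.2.1, p.2)) = some p.1.2.2) ?_
    refine RE.eq ?_ ?_
    · exact Nat.Partrec.Code.primrec_evaln.to_comp.comp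
        (f := fun a : (ℕ × Code) × ℕ => Nat.Partrec.Code.evaln a.1.1 a.1.2 a.2)
        (g := fun x : ((Code × ℕ × ℕ) × Str) × ℕ => ((x.2, x.1.1.1), encode (x.1.1.2.1, x.1.2)))
        (by fun_prop)
    · exact Computable.option_some.comp (by fun_prop)
  have h2 : (fun p : (Code × ℕ × ℕ) × Str => p.1.2.2 ∈ p.1.1.eval (encode (p.1.2.1, p.2))) =
      fun p => ∃ k : ℕ, Nat.Partrec.Code.evaln k p.1.1 (encode (p.1.2.1, p.2)) = some p.1.2.2 := by
    funext p
    exact propext Nat.Partrec.Code.evaln_complete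
  rw [h2]
  exact h1

theorem UCE.out {f v : α → ℕ} {g : α → Code} (hg : Computable g) (hf : Computable f)
    (hv : Computable v) : UCE (fun X a => ∃ s, v a ∈ (g a).eval (encode (f a, seg X s))) :=
  UCE.comp (f := fun a => (g a, f a, v a)) UCE.eval (hg.pair (hf.pair hv))

/-- domains of programs -/
theorem UCE.dom : UCE (fun X (p : Code × ℕ) => ∃ s, (p.1.eval (encode (p.2, seg X s))).Dom) := by
  have h : UCE (fun X (p : Code × ℕ) => ∃ v : ℕ, ∃ s, v ∈ p.1.eval (encode (p.2, seg X s))) := by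
    refine UCE.ex (S := fun X (p : Code × ℕ) (v : ℕ) => ∃ s, v ∈ p.1.eval (encode (p.2, seg X s))) ?_
    exact UCE.comp (f := fun a : (Code × ℕ) × ℕ => (a.1.1, a.1.2, a.2)) UCE.eval (by fun_prop)
  refine h.of_eq fun X p => ?_
  simp only [Part.dom_iff_mem]
  constructor
  · rintro ⟨v, s, h⟩
    exact ⟨s, v, h⟩
  · rintro ⟨s, v, h⟩
    exact ⟨v, s, h⟩

theorem UCE.ofJump {f : α → ℕ} (hf : Computable f) : UCE (fun X a => jump X (f a) = true) := by
  have h : UCE (fun X a => ∃ s, ((Denumerable.ofNat Code (f a).unpair.1).eval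
      (encode ((f a).unpair.2, seg X s))).Dom) := by
    refine UCE.comp (f := fun a => (Denumerable.ofNat Code (f a).unpair.1, (f a).unpair.2))
      UCE.dom ?_
    have h1 : Computable fun a => (f a).unpair := Computable.unpair.comp hf
    exact ((Computable.ofNat Code).comp (Computable.fst.comp h1)).pair (Computable.snd.comp h1)
  exact h.of_eq fun X a => jump_iff.symm

/-- substitution of an oracle which is computed by a program -/
theorem UCE.subst {S : (ℕ → Bool) → α → Prop} (hS : UCE S) (c : Code) :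
    ∃ S' : (ℕ → Bool) → α → Prop, UCE S' ∧ ∀ X Y, ByT c X Y → ∀ a, S' X a ↔ S Y a := by
  obtain ⟨R, h1, h2, h3⟩ := hS
  refine ⟨fun X a => ∃ τ : Str, R (a, τ) ∧ ∀ i < τ.length, (∃ b : Bool, τ[i]? = some b ∧
    ∃ s, b.toNat ∈ c.eval (encode (i, seg X s))), ?_, fun X Y hc a => ?_⟩
  · refine UCE.ex (S := fun X (a : α) (τ : Str) => R (a, τ) ∧ ∀ i < τ.length, (∃ b : Bool,
      τ[i]? = some b ∧ ∃ s, b.toNat ∈ c.eval (encode (i, seg X s)))) (UCE.and (UCE.of_re h1) ?_)
    refine UCE.all_lt (S := fun X (p : α × Str) (i : ℕ) => (∃ b : Bool,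
      p.2[i]? = some b ∧ ∃ s, b.toNat ∈ c.eval (encode (i, seg X s)))) ?_ (by fun_prop)
    refine UCE.ex (S := fun X (p : (α × Str) × ℕ) (b : Bool) =>
      p.1.2[p.2]? = some b ∧ ∃ s, b.toNat ∈ c.eval (encode (p.2, seg X s))) (UCE.and ?_ ?_)
    · exact UCE.of_re (RE.eq (by fun_prop) (by fun_prop))
    · exact UCE.comp (f := fun a : ((α × Str) × ℕ) × Bool => (c, a.1.2, a.2.toNat)) UCE.eval
        ((Computable.const c).pair ((Computable.snd.comp Computable.fst).pair
          ((Primrec.dom_finite (fun b : Bool => b.toNat)).to_comp.comp Computable.snd)))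
  · rw [h3]
    have key : ∀ i (b : Bool), (∃ s, b.toNat ∈ c.eval (encode (i, seg X s))) ↔ b = Y i := by
      intro i b
      rw [show (∃ s, b.toNat ∈ c.eval (encode (i, seg X s))) ↔ b.toNat = (Y i).toNat from hc i _]
      cases b <;> cases Y i <;> simp
    simp only [key]
    constructor
    · rintro ⟨τ, h4, h5⟩
      refine ⟨τ.length, ?_⟩
      have : seg Y τ.length = τ := by
        refine List.ext_getElem? fun i => ?_
        rw [seg_get]
        by_cases hi : i < τ.length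
        · obtain ⟨b, hb, hb'⟩ := h5 i hi
          rw [if_pos hi, hb, hb']
        · rw [if_neg hi, List.getElem?_eq_none (by omega)]
      rw [this]
      exact h4
    · rintro ⟨s, hs⟩
      refine ⟨seg Y s, hs, fun i hi => ⟨Y i, ?_, rfl⟩⟩
      rw [seg_len] at hi
      rw [seg_get, if_pos hi]

end

/-- programs from uniformly enumerable operations -/
theorem exists_byT {Q : Bool → (ℕ → Bool) → ℕ → Prop} (hQ : ∀ b, UCE (Q b)) :
    ∃ c : Code, ∀ X Y : ℕ → Bool, (∀ b n, Q b X n ↔ Y n = b) → ByT c X Y := by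
  obtain ⟨R1, hR1, -, hS1⟩ := hQ true
  obtain ⟨R0, hR0, -, hS0⟩ := hQ false
  have hr : REPred (fun x : (ℕ × Str) × ℕ =>
      (fun (p : ℕ × Str) (v : ℕ) => (R1 p ∧ v = 1) ∨ (R0 p ∧ v = 0)) x.1 x.2) := by
    refine RE.or (RE.and ?_ (RE.eq (by fun_prop) (by fun_prop)))
      (RE.and ?_ (RE.eq (by fun_prop) (by fun_prop)))
    · exact RE.comp hR1 (f := fun x : (ℕ × Str) × ℕ => x.1) (by fun_prop)
    · exact RE.comp hR0 (f := fun x : (ℕ × Str) × ℕ => x.1) (by fun_prop)
  obtain ⟨f, hf, hdom, hval⟩ := RE.uniformize (r := fun (p : ℕ × Str) (v : ℕ) =>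
    (R1 p ∧ v = 1) ∨ (R0 p ∧ v = 0)) hr
  obtain ⟨c, hc⟩ := code_of hf
  refine ⟨c, fun X Y h => ?_⟩
  have key : ∀ n v s, v ∈ c.eval (encode (n, seg X s)) → v = (Y n).toNat := by
    intro n v s hv
    rw [hc] at hv
    rcases hval _ _ hv with ⟨h3, h4⟩ | ⟨h3, h4⟩
    · rw [h4, (h true n).1 ((hS1 X n).2 ⟨s, h3⟩)]
      rfl
    · rw [h4, (h false n).1 ((hS0 X n).2 ⟨s, h3⟩)]
      rfl
  intro n v
  constructor
  · rintro ⟨s, hv⟩
    exact key n v s hv
  · intro hv
    have hex : ∃ s, ∃ w, (R1 (n, seg X s) ∧ w = 1) ∨ (R0 (n, seg X s) ∧ w = 0) := by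
      cases hn : Y n with
      | true =>
        obtain ⟨s, hs⟩ := (hS1 X n).1 ((h true n).2 hn)
        exact ⟨s, 1, Or.inl ⟨hs, rfl⟩⟩
      | false =>
        obtain ⟨s, hs⟩ := (hS0 X n).1 ((h false n).2 hn)
        exact ⟨s, 0, Or.inr ⟨hs, rfl⟩⟩
    obtain ⟨s, hs⟩ := hex
    have hd : (f (n, seg X s)).Dom := (hdom (n, seg X s)).2 hs
    obtain ⟨w, hw⟩ := Part.dom_iff_mem.1 hd
    rw [← hc] at hw
    have := key n w s hw
    refine ⟨s, ?_⟩
    rw [hv, ← this]
    exact hw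

/-- composition of programs -/
theorem byT_comp (c d : Code) : ∃ e : Code, ∀ X Y Z : ℕ → Bool, ByT c X Y → ByT d Y Z →
    ByT e X Z := by
  obtain ⟨κ, -, hκ⟩ := K7
  exact ⟨κ (c, d), fun X Y Z h1 h2 => hκ c d X Y Z h1 h2⟩

theorem join_eq (x y : ℕ → Bool) : join x y = Pool.Agent.Y579.PP.jn 0 x y := rfl

theorem byT_left : ∃ c : Code, ∀ A B : ℕ → Bool, ByT c (join A B) A := red_fst

theorem byT_right : ∃ c : Code, ∀ A B : ℕ → Bool, ByT c (join A B) B := red_snd

theorem byT_join (c d : Code) : ∃ e : Code, ∀ X A B : ℕ → Bool, ByT c X A → ByT d X B →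
    ByT e X (join A B) := red_join c d

end Run7.h931
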